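import Pool.Agent.E8helper72.PC.ZStep

/-! # Pair sums over all zeros: the asymptotic formulas -/

set_option autoImplicit false

namespace Pool.Agent.E8helper72.PC

open MeasureTheory Set Filter Topology
open H370 (Zf mult mem_Zf good_zeta zset NN NN_eq)
open Pool.Agent.Y750.OM (PO rh NO)

/-- the predicted pair sum -/
noncomputable def MM (r : ℝ → ℝ) : ℝ := bl r 0 + 2 * ∫ u in Ioi 0, bl r u ∂lam

lemma MM_eq {δ : ℝ} {r : ℝ → ℝ} (hr : TF δ r) (hδ : δ ≤ 1 / 2) :
    MM r = r 0 + ∫ α : ℝ, |α| * r α := by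
  obtain ⟨A, hA, hdec⟩ := hr.decay 1
  simp only [pow_one] at hdec
  have h1 := Pool.Agent.Y750.OM.main_eq hr.cont (A := A) hdec (fun x hx => hr.supp x (by linarith))
  rw [← h1]
  unfold MM
  rw [lam_integral _ measurableSet_Ioi]
  have h2 : ∫ u in Ioi (0 : ℝ), FF u * bl r u = ∫ u in Ioi (0 : ℝ), bl r |u| *
      (1 - Real.sinc (Real.pi * |u|) ^ 2) := by
    apply setIntegral_congr_fun measurableSet_Ioi
    intro u hu
    simp only
    rw [abs_of_pos hu]
    unfold FF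
    ring
  have h3 : ∀ u : ℝ, bl r |u| * (1 - Real.sinc (Real.pi * |u|) ^ 2) =
      Pool.Agent.Y750.OM.bl r u * (1 - Real.sinc (Real.pi * u) ^ 2) := by
    intro u
    rcases abs_cases u with ⟨h, -⟩ | ⟨h, -⟩
    · rw [h]; rfl
    · rw [h, bl_neg_arg, mul_neg, Real.sinc_neg]; rfl
  have h4 := integral_comp_abs (f := fun u => bl r u * (1 - Real.sinc (Real.pi * u) ^ 2))
  have h5 : ∫ u in Ioi (0 : ℝ), bl r |u| * (1 - Real.sinc (Real.pi * |u|) ^ 2) =
      ∫ u in Ioi (0 : ℝ), bl r u * (1 - Real.sinc (Real.pi * u) ^ 2) := by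
    apply setIntegral_congr_fun measurableSet_Ioi
    intro u hu
    simp only
    rw [abs_of_pos hu]
  rw [h2, h5, ← h4]
  simp_rw [h3]
  rfl

lemma QS_PO (r : ℝ → ℝ) (A L : ℝ) : QS (Zf riemannZeta A (2 * A)) (Zf riemannZeta A (2 * A)) L
    (bl r) = PO (rh r) A (2 * A) L := by
  unfold QS PO
  rw [Finset.sum_product]
  apply Finset.sum_congr rfl
  intro s _
  apply Finset.sum_congr rfl
  intro s' _
  have h1 : bl r (dd L (s, s')) = rh r ((s.im - s'.im) * L) := by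
    rw [← Pool.Agent.Y750.OM.bl_eq]
    unfold dd
    simp only
    rcases abs_cases (s.im - s'.im) with ⟨h, -⟩ | ⟨h, -⟩
    · rw [h]; rfl
    · rw [h, neg_mul, neg_div, bl_neg_arg]; rfl
  rw [h1]
  rfl

/-- the block error -/
lemma block_err : ∃ C θ : ℝ, 0 < C ∧ 0 < θ ∧ ∀ δ : ℝ, 0 < δ → δ ≤ 1 / 2 → ∀ r, TF δ r →
    ∀ R : ℝ, (∀ α, |r α| ≤ R) → ∀ ε : ℝ, 0 < ε → ∀ᶠ A : ℝ in atTop,
    |QS (Zf riemannZeta A (2 * A)) (Zf riemannZeta A (2 * A)) (Real.log A) (bl r) - MM r * XX A| ≤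
      (2 * C * R * δ ^ 3 * (NO A (2 * A) / ∑ s ∈ Zf riemannZeta A (2 * A), mz s) ^ θ + ε) * XX A := by
  obtain ⟨C, θ, hC, hθ, h⟩ := Pool.Agent.Y750.OM.pair_ord (κ0 := 1 / 2) (by norm_num) (by norm_num)
  refine ⟨C, θ, hC, hθ, fun δ hδ hδ2 r hr R hR ε hε => ?_⟩
  obtain ⟨K, hK⟩ := hr.lip
  obtain ⟨A0, hA0, hdec⟩ := hr.decay 1
  simp only [pow_one] at hdec
  have hR0 : 0 ≤ R := (abs_nonneg _).trans (hR 0)
  obtain ⟨T0, hT0, h1⟩ := h δ hδ hδ2 r K hK hr.supp _ (Pool.Agent.Y750.OM.rh_of_bl hdec) R hR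
    (ε / 4) (by positivity)
  obtain ⟨e, he⟩ : ∃ e : ℝ, e = min 1 (ε / (2 * (|MM r| + 1))) := ⟨_, rfl⟩
  have he0 : 0 < e := by rw [he]; positivity
  have he1 : e ≤ 1 := by rw [he]; exact min_le_left _ _
  have he2 : |MM r| * e ≤ ε / 2 := by
    have h2 : e ≤ ε / (2 * (|MM r| + 1)) := by rw [he]; exact min_le_right _ _
    have h3 := abs_nonneg (MM r)
    calc |MM r| * e ≤ (|MM r| + 1) * (ε / (2 * (|MM r| + 1))) := by
          apply mul_le_mul (by linarith) h2 he0.le (by linarith)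
      _ = ε / 2 := by field_simp
  filter_upwards [eventually_ge_atTop T0, block_count e he0, eventually_ge_atTop 10] with A h2 h3 h4
  have hX := XX_pos h4
  have h5 := h1 A h2
  have hNN : (NN riemannZeta A (2 * A) : ℝ) = ∑ s ∈ Zf riemannZeta A (2 * A), mz s := by
    rw [NN_eq good_zeta (by linarith)]
    push_cast
    rfl
  rw [hNN, ← MM_eq hr hδ2] at h5
  rw [QS_PO]
  set N := ∑ s ∈ Zf riemannZeta A (2 * A), mz s with hN
  have hN0 : 0 ≤ N := Finset.sum_nonneg fun s _ => mz_nonneg s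
  have hN2 : N ≤ 2 * XX A := by
    have := (abs_le.1 h3).2
    nlinarith
  set ρ := (NO A (2 * A) / N) ^ θ with hρ
  have hρ0 : 0 ≤ ρ := Real.rpow_nonneg (div_nonneg (Pool.Agent.Y750.OM.NO_nonneg _ _) hN0) _
  have h6 : |PO (rh r) A (2 * A) (Real.log A) - MM r * XX A| ≤
      |PO (rh r) A (2 * A) (Real.log A) - N * MM r| + |MM r| * |N - XX A| := by
    have e1 : PO (rh r) A (2 * A) (Real.log A) - MM r * XX A =
        (PO (rh r) A (2 * A) (Real.log A) - N * MM r) + MM r * (N - XX A) := by ring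
    rw [e1, ← abs_mul]
    exact abs_add_le _ _
  have h7 : (C * R * δ ^ 3 * ρ + ε / 4) * N ≤ (C * R * δ ^ 3 * ρ + ε / 4) * (2 * XX A) :=
    mul_le_mul_of_nonneg_left hN2 (by positivity)
  have h8 : |MM r| * |N - XX A| ≤ |MM r| * (e * XX A) :=
    mul_le_mul_of_nonneg_left h3 (abs_nonneg _)
  have h9 : |MM r| * (e * XX A) ≤ ε / 2 * XX A := by
    rw [← mul_assoc]
    exact mul_le_mul_of_nonneg_right he2 hX.le
  nlinarith

/-- the number of zeros up to `T` -/
noncomputable def NT (T : ℝ) : ℝ := ∑ s ∈ ZT T, mz s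

/-- the number of zeros off the critical line up to `T` -/
noncomputable def NF (T : ℝ) : ℝ := ∑ s ∈ (ZT T).filter (fun s => s.re ≠ 1 / 2), mz s

/-- their proportion -/
noncomputable def offp (T : ℝ) : ℝ := NF T / NT T

lemma NT_nonneg (T : ℝ) : 0 ≤ NT T := Finset.sum_nonneg fun s _ => mz_nonneg s

lemma NF_nonneg (T : ℝ) : 0 ≤ NF T := Finset.sum_nonneg fun s _ => mz_nonneg s

lemma NF_le (T : ℝ) : NF T ≤ NT T :=
  Finset.sum_le_sum_of_subset_of_nonneg (Finset.filter_subset _ _) fun s _ _ => mz_nonneg s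

lemma offp_mem (T : ℝ) : 0 ≤ offp T ∧ offp T ≤ 1 :=
  ⟨div_nonneg (NF_nonneg T) (NT_nonneg T), div_le_one_of_le₀ (NF_le T) (NT_nonneg T)⟩

/-- the number of zeros is asymptotic to the expected one -/
theorem NT_asymp : Tendsto (fun T => NT T / XX T) atTop (𝓝 1) := by
  classical
  obtain ⟨C, T0, hC, hT0, hle⟩ := sum_mz_le
  set e : ℝ → ℝ := fun T => |NT T - XX T| / XX T with he
  set eb : ℝ → ℝ := fun A => |∑ s ∈ Zf riemannZeta A (2 * A), mz s - XX A| / XX A with heb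
  have hB : ∀ᶠ T : ℝ in atTop, e T ≤ C + 1 := by
    filter_upwards [eventually_ge_atTop T0] with T hT
    have hX := XX_pos (hT0.trans hT)
    simp only [he]
    rw [div_le_iff₀ hX]
    have h1 := hle T hT
    have h2 := NT_nonneg T
    rw [abs_le]
    unfold NT at h2 ⊢
    constructor <;> nlinarith
  have hstep : ∀ ε : ℝ, 0 < ε → ∀ᶠ T : ℝ in atTop, e T ≤ (e (T / 2) + eb (T / 2)) / 2 + ε := by
    intro ε hε
    filter_upwards [ev_div ((XX_large (Real.log 2 / Real.pi) ε hε).and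
      (eventually_ge_atTop 10)) 2 (by norm_num)] with T hT
    obtain ⟨A, hA⟩ : ∃ A, A = T / 2 := ⟨_, rfl⟩
    have hTA : T = 2 * A := by rw [hA]; ring
    rw [← hA] at hT ⊢
    obtain ⟨h1, h2⟩ := hT
    have hX := XX_pos h2
    have hX2 := XX_double_ge h2
    have hpi := Real.pi_pos
    have hsplit : NT (2 * A) = NT A + ∑ s ∈ Zf riemannZeta A (2 * A), mz s := by
      unfold NT
      rw [ZT_split (by linarith), Finset.sum_union (ZT_disj (by linarith))]
    rw [hTA]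
    simp only [he, heb]
    set P := NT A with hP
    set Q := ∑ s ∈ Zf riemannZeta A (2 * A), mz s with hQ
    have h3 : |NT (2 * A) - XX (2 * A)| ≤ |P - XX A| + |Q - XX A| + ε * XX A := by
      rw [hsplit, XX_double (by linarith)]
      have e1 : P + Q - (2 * XX A + A * Real.log 2 / Real.pi) =
          (P - XX A) + (Q - XX A) - A * Real.log 2 / Real.pi := by ring
      rw [e1]
      refine (abs_sub _ _).trans (add_le_add (abs_add_le _ _) ?_)
      have hl2 := Real.log_pos (show (1 : ℝ) < 2 by norm_num)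
      rw [abs_of_nonneg (by positivity)]
      refine le_trans (le_of_eq ?_) h1
      ring
    have h4 : 0 ≤ |P - XX A| + |Q - XX A| + ε * XX A := by positivity
    calc |NT (2 * A) - XX (2 * A)| / XX (2 * A) ≤
        (|P - XX A| + |Q - XX A| + ε * XX A) / (2 * XX A) := by
          rw [div_le_div_iff₀ (by linarith) (by linarith)]
          nlinarith
      _ ≤ (|P - XX A| / XX A + |Q - XX A| / XX A) / 2 + ε := by
          have e2 : (|P - XX A| + |Q - XX A| + ε * XX A) / (2 * XX A) =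
              (|P - XX A| / XX A + |Q - XX A| / XX A) / 2 + ε / 2 := by
            field_simp
          rw [e2]
          linarith
  have hlim : ∀ ε : ℝ, 0 < ε → ∀ᶠ T : ℝ in atTop, e T ≤ ε := by
    intro ε hε
    obtain ⟨K, hK⟩ := recur e eb (C + 1) hB hstep (ε / 2) (by linarith)
    have hbl : ∀ᶠ A : ℝ in atTop, eb A ≤ ε / 2 := by
      filter_upwards [block_count (ε / 2) (by linarith), eventually_ge_atTop 10] with A h1 h2
      simp only [heb]
      rw [div_le_iff₀ (XX_pos h2)]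
      exact h1
    have hall : ∀ᶠ T : ℝ in atTop, ∀ k ∈ Finset.Icc 1 K, eb (T / 2 ^ k) ≤ ε / 2 := by
      rw [Filter.eventually_all_finset]
      intro k _
      exact ev_div hbl (2 ^ k) (by positivity)
    filter_upwards [hK, hall] with T h1 h2
    have := h1 (ε / 2) (by linarith) (fun k hk1 hk2 => h2 k (Finset.mem_Icc.2 ⟨hk1, hk2⟩))
    linarith
  rw [Metric.tendsto_nhds]
  intro ε hε
  filter_upwards [hlim (ε / 2) (by linarith), eventually_ge_atTop 10] with T h1 h2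
  have hX := XX_pos h2
  rw [Real.dist_eq]
  have e1 : NT T / XX T - 1 = (NT T - XX T) / XX T := by field_simp
  rw [e1, abs_div, abs_of_pos hX]
  simp only [he] at h1
  linarith

/-- the pair sums over all zeros up to `T` -/
lemma pair_recur {δ : ℝ} {r : ℝ → ℝ} (hr : TF δ r) (ε : ℝ) (hε : 0 < ε) :
    ∃ K : ℕ, ∀ᶠ T : ℝ in atTop, ∀ η : ℝ, 0 ≤ η → (∀ k : ℕ, 1 ≤ k → k ≤ K →
      |QS (Zf riemannZeta (T / 2 ^ k) (2 * (T / 2 ^ k))) (Zf riemannZeta (T / 2 ^ k)
        (2 * (T / 2 ^ k))) (Real.log (T / 2 ^ k)) (bl r) - MM r * XX (T / 2 ^ k)| /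
        XX (T / 2 ^ k) ≤ η) →
      |QS (ZT T) (ZT T) (Real.log T) (bl r) - MM r * XX T| / XX T ≤ η + ε := by
  obtain ⟨B, hB, hdec⟩ := hr.decay 1
  simp only [pow_one] at hdec
  obtain ⟨C, T0, hC, hT0, hW⟩ := WS_le
  apply recur (fun T => |QS (ZT T) (ZT T) (Real.log T) (bl r) - MM r * XX T| / XX T)
    (fun A => |QS (Zf riemannZeta A (2 * A)) (Zf riemannZeta A (2 * A)) (Real.log A) (bl r) -
      MM r * XX A| / XX A) (B * C + |MM r|) _ _ ε hε
  · filter_upwards [eventually_ge_atTop T0] with T hT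
    have hX := XX_pos (hT0.trans hT)
    rw [div_le_iff₀ hX]
    have h1 := QS_bound (S := ZT T) (L := Real.log T) hdec
    have h2 := hW T hT
    calc |QS (ZT T) (ZT T) (Real.log T) (bl r) - MM r * XX T| ≤
        |QS (ZT T) (ZT T) (Real.log T) (bl r)| + |MM r * XX T| := abs_sub _ _
      _ ≤ B * (C * XX T) + |MM r| * XX T := by
          apply add_le_add (h1.trans (mul_le_mul_of_nonneg_left h2 hB.le))
          rw [abs_mul, abs_of_pos hX]
      _ = _ := by ring
  · intro e he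
    filter_upwards [ev_div ((step hr (MM r) e he).and (eventually_ge_atTop 10)) 2
      (by norm_num)] with T hT
    obtain ⟨A, hA⟩ : ∃ A, A = T / 2 := ⟨_, rfl⟩
    have hTA : T = 2 * A := by rw [hA]; ring
    rw [← hA] at hT ⊢
    obtain ⟨h1, h2⟩ := hT
    have hX := XX_pos h2
    have hX2 := XX_double_ge h2
    rw [hTA]
    set P := |QS (ZT A) (ZT A) (Real.log A) (bl r) - MM r * XX A| with hP
    set Q := |QS (Zf riemannZeta A (2 * A)) (Zf riemannZeta A (2 * A)) (Real.log A) (bl r) -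
      MM r * XX A| with hQ
    have hP0 : 0 ≤ P := abs_nonneg _
    have hQ0 : 0 ≤ Q := abs_nonneg _
    have h4 : 0 ≤ P + Q + e * XX A := by positivity
    calc |QS (ZT (2 * A)) (ZT (2 * A)) (Real.log (2 * A)) (bl r) - MM r * XX (2 * A)| /
          XX (2 * A) ≤ (P + Q + e * XX A) / (2 * XX A) := by
          rw [div_le_div_iff₀ (by linarith) (by linarith)]
          nlinarith
      _ ≤ (P / XX A + Q / XX A) / 2 + e := by
          have e2 : (P + Q + e * XX A) / (2 * XX A) = (P / XX A + Q / XX A) / 2 + e / 2 := by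
            field_simp
          rw [e2]
          linarith

/-- **The pair sums with a small error.** -/
theorem pair_full : ∃ C : ℝ, 0 < C ∧ ∀ δ : ℝ, 0 < δ → δ ≤ 1 / 2 → ∀ r, TF δ r →
    ∀ R : ℝ, (∀ α, |r α| ≤ R) → ∀ ε : ℝ, 0 < ε → ∀ᶠ T : ℝ in atTop,
    |QS (ZT T) (ZT T) (Real.log T) (bl r) - MM r * XX T| / XX T ≤ C * R * δ ^ 3 + ε := by
  obtain ⟨C, θ, hC, hθ, h⟩ := block_err
  refine ⟨2 * C, by positivity, fun δ hδ hδ2 r hr R hR ε hε => ?_⟩
  have hR0 : 0 ≤ R := (abs_nonneg _).trans (hR 0)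
  obtain ⟨K, hK⟩ := pair_recur hr (ε / 2) (by linarith)
  have hbl : ∀ᶠ A : ℝ in atTop, |QS (Zf riemannZeta A (2 * A)) (Zf riemannZeta A (2 * A))
      (Real.log A) (bl r) - MM r * XX A| / XX A ≤ 2 * C * R * δ ^ 3 + ε / 2 := by
    filter_upwards [h δ hδ hδ2 r hr R hR (ε / 2) (by linarith), eventually_ge_atTop 10] with A h1 h2
    rw [div_le_iff₀ (XX_pos h2)]
    refine h1.trans (mul_le_mul_of_nonneg_right ?_ (XX_pos h2).le)
    apply add_le_add_left
    have h3 : (NO A (2 * A) / ∑ s ∈ Zf riemannZeta A (2 * A), mz s) ^ θ ≤ 1 := by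
      apply Real.rpow_le_one (div_nonneg (Pool.Agent.Y750.OM.NO_nonneg _ _)
        (Finset.sum_nonneg fun s _ => mz_nonneg s)) _ hθ.le
      apply div_le_one_of_le₀ _ (Finset.sum_nonneg fun s _ => mz_nonneg s)
      exact Finset.sum_le_sum_of_subset_of_nonneg (Finset.filter_subset _ _)
        fun s _ _ => mz_nonneg s
    exact mul_le_of_le_one_right (by positivity) h3
  have hall : ∀ᶠ T : ℝ in atTop, ∀ k ∈ Finset.Icc 1 K,
      |QS (Zf riemannZeta (T / 2 ^ k) (2 * (T / 2 ^ k))) (Zf riemannZeta (T / 2 ^ k)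
        (2 * (T / 2 ^ k))) (Real.log (T / 2 ^ k)) (bl r) - MM r * XX (T / 2 ^ k)| /
        XX (T / 2 ^ k) ≤ 2 * C * R * δ ^ 3 + ε / 2 := by
    rw [Filter.eventually_all_finset]
    intro k _
    exact ev_div hbl (2 ^ k) (by positivity)
  filter_upwards [hK, hall] with T h1 h2
  have := h1 (2 * C * R * δ ^ 3 + ε / 2) (by positivity)
    (fun k hk1 hk2 => h2 k (Finset.mem_Icc.2 ⟨hk1, hk2⟩))
  linarith

lemma XX_pow_le (k : ℕ) : ∀ᶠ T : ℝ in atTop, XX T ≤ 4 ^ k * XX (T / 2 ^ k) := by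
  induction k with
  | zero => simp
  | succ k ih =>
    filter_upwards [ih, ev_div XX_double_le (2 ^ (k + 1)) (by positivity)] with T h1 h2
    have e1 : 2 * (T / 2 ^ (k + 1)) = T / 2 ^ k := by
      rw [pow_succ]
      field_simp
    rw [e1] at h2
    calc XX T ≤ 4 ^ k * XX (T / 2 ^ k) := h1
      _ ≤ 4 ^ k * (4 * XX (T / 2 ^ (k + 1))) := mul_le_mul_of_nonneg_left h2 (by positivity)
      _ = _ := by rw [pow_succ]; ring

/-- **The pair sums when almost all zeros are on the critical line.** -/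
theorem pair_exact {r : ℝ → ℝ} (hr : TF (1 / 2) r) (ε : ℝ) (hε : 0 < ε) :
    ∃ η : ℝ, 0 < η ∧ ∀ᶠ T : ℝ in atTop, offp T ≤ η →
    |QS (ZT T) (ZT T) (Real.log T) (bl r) - MM r * XX T| / XX T ≤ ε := by
  classical
  obtain ⟨C, θ, hC, hθ, h⟩ := block_err
  obtain ⟨R, hR0, hR⟩ := hr.bdd
  obtain ⟨C2, T2, hC2, hT2, hN⟩ := sum_mz_le
  obtain ⟨K, hK⟩ := pair_recur hr (ε / 2) (by linarith)
  set D : ℝ := 2 * C * R * (1 / 2) ^ 3 with hD
  have hD0 : 0 < D := by positivity
  set τ : ℝ := (ε / (4 * D)) ^ (1 / θ) with hτ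
  have hτ0 : 0 < τ := by rw [hτ]; positivity
  have hτθ : τ ^ θ = ε / (4 * D) := by
    rw [hτ, ← Real.rpow_mul (by positivity), one_div_mul_cancel hθ.ne', Real.rpow_one]
  refine ⟨τ / (2 * C2 * 4 ^ K), by positivity, ?_⟩
  have hall : ∀ᶠ T : ℝ in atTop, ∀ k ∈ Finset.Icc 1 K,
      (|QS (Zf riemannZeta (T / 2 ^ k) (2 * (T / 2 ^ k))) (Zf riemannZeta (T / 2 ^ k)
        (2 * (T / 2 ^ k))) (Real.log (T / 2 ^ k)) (bl r) - MM r * XX (T / 2 ^ k)| ≤
      (D * (NO (T / 2 ^ k) (2 * (T / 2 ^ k)) / ∑ s ∈ Zf riemannZeta (T / 2 ^ k)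
        (2 * (T / 2 ^ k)), mz s) ^ θ + ε / 4) * XX (T / 2 ^ k)) ∧
      XX T ≤ 4 ^ k * XX (T / 2 ^ k) ∧ 10 ≤ T / 2 ^ k ∧
      |∑ s ∈ Zf riemannZeta (T / 2 ^ k) (2 * (T / 2 ^ k)), mz s - XX (T / 2 ^ k)| ≤
        1 / 2 * XX (T / 2 ^ k) := by
    rw [Filter.eventually_all_finset]
    intro k _
    filter_upwards [ev_div (h (1 / 2) (by norm_num) le_rfl r hr R hR (ε / 4) (by linarith)) (2 ^ k)
      (by positivity), XX_pow_le k, ev_div (eventually_ge_atTop 10) (2 ^ k) (by positivity),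
      ev_div (block_count (1 / 2) (by norm_num)) (2 ^ k) (by positivity)] with T h1 h2 h3 h4
    exact ⟨h1, h2, h3, h4⟩
  filter_upwards [hK, hall, eventually_ge_atTop T2] with T h1 h2 h3 hoff
  have := h1 (ε / 2) (by linarith) (fun k hk1 hk2 => by
    obtain ⟨g1, g2, g3, g4⟩ := h2 k (Finset.mem_Icc.2 ⟨hk1, hk2⟩)
    have hX := XX_pos g3
    set A := T / 2 ^ k with hA
    have hTA : 2 * A ≤ T := by
      have h5 : (2 : ℝ) ≤ 2 ^ k := by
        calc (2 : ℝ) = 2 ^ 1 := (pow_one _).symm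
          _ ≤ 2 ^ k := pow_le_pow_right₀ (by norm_num) hk1
      have h6 : A * 2 ^ k = T := by rw [hA]; field_simp
      nlinarith
    rw [div_le_iff₀ hX]
    refine g1.trans (mul_le_mul_of_nonneg_right ?_ hX.le)
    -- the proportion in the block
    set N := ∑ s ∈ Zf riemannZeta A (2 * A), mz s with hNdef
    have hN1 : XX A / 2 ≤ N := by
      have := (abs_le.1 g4).1
      linarith
    have hNpos : 0 < N := by linarith
    have hNO : NO A (2 * A) ≤ NF T := by
      unfold NO NF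
      apply Finset.sum_le_sum_of_subset_of_nonneg
      · intro s hs
        rw [Finset.mem_filter, mem_Zf good_zeta (by linarith)] at hs
        rw [Finset.mem_filter, mem_ZT]
        obtain ⟨⟨f1, f2, f3, f4, f5⟩, f6⟩ := hs
        exact ⟨⟨f1, f2, by linarith, by linarith, f5⟩, f6⟩
      · intro s _ _
        exact mz_nonneg s
    have hNT := hN T h3
    have hNF : NF T ≤ τ / (2 * C2 * 4 ^ K) * (C2 * XX T) := by
      have hXT := XX_pos (hT2.trans h3)
      rcases (NT_nonneg T).eq_or_lt with h0 | h0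
      · have : NF T ≤ 0 := (NF_le T).trans (by rw [← h0])
        refine this.trans (by positivity)
      · unfold offp at hoff
        rw [div_le_iff₀ h0] at hoff
        refine hoff.trans (mul_le_mul_of_nonneg_left hNT (by positivity))
    have hρ : NO A (2 * A) / N ≤ τ := by
      rw [div_le_iff₀ hNpos]
      have h5 : (4 : ℝ) ^ k ≤ 4 ^ K := pow_le_pow_right₀ (by norm_num) hk2
      calc NO A (2 * A) ≤ τ / (2 * C2 * 4 ^ K) * (C2 * XX T) := hNO.trans hNF
        _ ≤ τ / (2 * C2 * 4 ^ K) * (C2 * (4 ^ K * XX A)) := by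
            apply mul_le_mul_of_nonneg_left _ (by positivity)
            apply mul_le_mul_of_nonneg_left _ hC2.le
            exact g2.trans (mul_le_mul_of_nonneg_right h5 hX.le)
        _ = τ * (XX A / 2) := by field_simp
        _ ≤ τ * N := mul_le_mul_of_nonneg_left hN1 hτ0.le
    have h6 : (NO A (2 * A) / N) ^ θ ≤ ε / (4 * D) := by
      rw [← hτθ]
      exact Real.rpow_le_rpow (div_nonneg (Pool.Agent.Y750.OM.NO_nonneg _ _) hNpos.le) hρ hθ.le
    have h7 : D * (NO A (2 * A) / N) ^ θ ≤ ε / 4 := by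
      calc D * (NO A (2 * A) / N) ^ θ ≤ D * (ε / (4 * D)) := mul_le_mul_of_nonneg_left h6 hD0.le
        _ = ε / 4 := by field_simp
    linarith)
  linarith

end Pool.Agent.E8helper72.PC
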