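import Pool.Agent.E8helper72.PC.ZLim
import Pool.Agent.Y21.FW.Zeros

/-! # Translation to the pair counting function of the problem -/

set_option autoImplicit false

namespace Pool.Agent.E8helper72.PC

open MeasureTheory Set Filter Topology
open H370 (Zf mult mem_Zf good_zeta zset NN NN_eq)

/-- the zeros in the form of the problem -/
lemma zeros_eq (T : ℝ) : {s : ℂ | riemannZeta s = 0 ∧ 0 < s.re ∧ s.re < 1 ∧ 0 ≤ s.im ∧ s.im ≤ T} =
    ↑(ZT T) := by
  ext s
  rw [Finset.mem_coe, mem_ZT]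
  constructor
  · rintro ⟨h1, h2, h3, h4, h5⟩
    refine ⟨h2, h3, ?_, h5, h1⟩
    rcases h4.eq_or_lt with h | h
    · exfalso
      have e : s = (s.re : ℂ) := by
        apply Complex.ext
        · simp
        · simp [← h]
      rw [e] at h1
      exact Pool.Agent.Y21.FW.real_ne h2 h3 h1
    · exact h
  · rintro ⟨h1, h2, h3, h4, h5⟩
    exact ⟨h5, h1, h2, h3.le, h4⟩

/-- the normalised signed difference -/
noncomputable def ud (T : ℝ) (p : ℂ × ℂ) : ℝ := (p.1.im - p.2.im) * Real.log T / (2 * Real.pi)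

/-- pairs as a finite sum -/
lemma pairs_eq (T : ℝ) (I : Set ℝ) [DecidablePred (· ∈ I)] :
    ((∑ᶠ p ∈ {p : ℂ × ℂ | p.1 ∈ {s : ℂ | riemannZeta s = 0 ∧ 0 < s.re ∧ s.re < 1 ∧ 0 ≤ s.im ∧
      s.im ≤ T} ∧ p.2 ∈ {s : ℂ | riemannZeta s = 0 ∧ 0 < s.re ∧ s.re < 1 ∧ 0 ≤ s.im ∧ s.im ≤ T} ∧
      (p.1.im - p.2.im) * Real.log T / (2 * Real.pi) ∈ I},
      analyticOrderNatAt riemannZeta p.1 * analyticOrderNatAt riemannZeta p.2 : ℕ) : ℝ) =
    ∑ p ∈ ZT T ×ˢ ZT T with ud T p ∈ I, ww p := by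
  have e : {p : ℂ × ℂ | p.1 ∈ {s : ℂ | riemannZeta s = 0 ∧ 0 < s.re ∧ s.re < 1 ∧ 0 ≤ s.im ∧
      s.im ≤ T} ∧ p.2 ∈ {s : ℂ | riemannZeta s = 0 ∧ 0 < s.re ∧ s.re < 1 ∧ 0 ≤ s.im ∧ s.im ≤ T} ∧
      (p.1.im - p.2.im) * Real.log T / (2 * Real.pi) ∈ I} =
      ↑((ZT T ×ˢ ZT T).filter (fun p => ud T p ∈ I)) := by
    rw [zeros_eq]
    ext p
    rw [Finset.mem_coe, Finset.mem_filter, Finset.mem_product]
    simp only [mem_ofPred_eq, Finset.mem_coe, ud]
    tauto
  rw [e, finsum_mem_coe_finset]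
  push_cast
  rfl

lemma dd_eq_abs {T : ℝ} (hT : 1 ≤ T) (p : ℂ × ℂ) : dd (Real.log T) p = |ud T p| := by
  unfold dd ud
  have h1 := Real.log_nonneg hT
  have hpi := Real.pi_pos
  rw [abs_div, abs_mul, abs_of_nonneg h1, abs_of_pos (show 0 < 2 * Real.pi by positivity)]

/-- the windows away from the origin -/
lemma cw_window {T α β : ℝ} (hT : 10 ≤ T) (hα : 0 < α) :
    cw (SS T) (wn T) (xn T) α β = (∑ p ∈ ZT T ×ˢ ZT T with ud T p ∈ Icc α β, ww p) / XX T := by
  classical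
  have hX := XX_pos hT
  have h1 : cw (SS T) (wn T) (xn T) α β =
      (∑ p ∈ ZT T ×ˢ ZT T with (α ≤ |ud T p| ∧ |ud T p| ≤ β), ww p) / (2 * XX T) := by
    unfold cw SS wn xn
    simp_rw [dd_eq_abs (show 1 ≤ T by linarith)]
    rw [Finset.sum_div]
  have h2 : ∑ p ∈ ZT T ×ˢ ZT T with (α ≤ |ud T p| ∧ |ud T p| ≤ β), ww p =
      ∑ p ∈ ZT T ×ˢ ZT T with ud T p ∈ Icc α β, ww p +
      ∑ p ∈ ZT T ×ˢ ZT T with -ud T p ∈ Icc α β, ww p := by
    rw [← Finset.sum_union]
    · apply Finset.sum_congr _ fun _ _ => rfl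
      ext p
      simp only [Finset.mem_filter, Finset.mem_union, mem_Icc]
      rcases abs_cases (ud T p) with ⟨h, h'⟩ | ⟨h, h'⟩
      · rw [h]
        constructor
        · rintro ⟨a, b, c⟩
          exact Or.inl ⟨a, b, c⟩
        · rintro (⟨a, b, c⟩ | ⟨a, b, c⟩)
          · exact ⟨a, b, c⟩
          · exfalso; linarith
      · rw [h]
        constructor
        · rintro ⟨a, b, c⟩
          exact Or.inr ⟨a, b, c⟩
        · rintro (⟨a, b, c⟩ | ⟨a, b, c⟩)
          · exfalso; linarith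
          · exact ⟨a, b, c⟩
    · rw [Finset.disjoint_left]
      intro p hp hp'
      rw [Finset.mem_filter] at hp hp'
      have a := hp.2.1
      have b := hp'.2.1
      linarith
  have h3 : ∑ p ∈ ZT T ×ˢ ZT T with -ud T p ∈ Icc α β, ww p =
      ∑ p ∈ ZT T ×ˢ ZT T with ud T p ∈ Icc α β, ww p := by
    apply Finset.sum_nbij' (fun p => (p.2, p.1)) (fun p => (p.2, p.1))
    · intro p hp
      rw [Finset.mem_filter, Finset.mem_product] at hp ⊢
      refine ⟨⟨hp.1.2, hp.1.1⟩, ?_⟩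
      have : ud T (p.2, p.1) = -ud T p := by unfold ud; ring
      rw [this]
      exact hp.2
    · intro p hp
      rw [Finset.mem_filter, Finset.mem_product] at hp ⊢
      refine ⟨⟨hp.1.2, hp.1.1⟩, ?_⟩
      have : -ud T (p.2, p.1) = ud T p := by unfold ud; ring
      rw [this]
      exact hp.2
    · intro p _; rfl
    · intro p _; rfl
    · intro p _
      exact mul_comm _ _
  rw [h1, h2, h3]
  field_simp
  ring

/-- the windows around the origin -/
lemma cw_zero {T β : ℝ} (hT : 10 ≤ T) :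
    cw (SS T) (wn T) (xn T) 0 β =
      (∑ p ∈ ZT T ×ˢ ZT T with ud T p ∈ Icc (-β) β, ww p) / (2 * XX T) := by
  classical
  unfold cw SS wn xn
  simp_rw [dd_eq_abs (show 1 ≤ T by linarith)]
  rw [Finset.sum_div]
  apply Finset.sum_congr _ fun _ _ => rfl
  apply Finset.filter_congr
  intro p _
  rw [mem_Icc, ← abs_le]
  exact ⟨fun h => h.2, fun h => ⟨abs_nonneg _, h⟩⟩

/-- the density of the problem -/
lemma II_eq (a b : ℝ) : ∫ u in a..b, (1 - (Real.sin (Real.pi * u) / (Real.pi * u)) ^ 2) = II a b := by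
  unfold II
  apply intervalIntegral.integral_congr_ae
  have h0 : ∀ᵐ x : ℝ, x ≠ 0 := by
    rw [ae_iff]
    simp
  filter_upwards [h0] with u hu _
  unfold FF
  have hpi := Real.pi_pos
  rw [Real.sinc_of_ne_zero (by positivity)]

lemma FF_pos {u : ℝ} (hu : 0 < u) : 0 < FF u := by
  unfold FF
  have hpi := Real.pi_pos
  set y := Real.pi * u with hy
  have hy0 : 0 < y := by positivity
  rw [Real.sinc_of_ne_zero hy0.ne']
  have h1 : |Real.sin y| < y := by
    rcases le_or_gt y 1 with h | h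
    · have h2 := Real.sin_pos_of_pos_of_le_one hy0 h
      rw [abs_of_pos h2]
      exact Real.sin_lt hy0
    · exact (Real.abs_sin_le_one y).trans_lt h
  have h2 : (Real.sin y / y) ^ 2 < 1 := by
    rw [div_pow, div_lt_one (by positivity), ← sq_abs]
    exact pow_lt_pow_left₀ h1 (abs_nonneg _) (by norm_num)
  linarith

lemma II_pos {a b : ℝ} (ha : 0 ≤ a) (hab : a < b) : 0 < II a b := by
  unfold II
  apply intervalIntegral.intervalIntegral_pos_of_pos_on (FF_ii a b) _ hab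
  intro u hu
  exact FF_pos (ha.trans_lt hu.1)

lemma low_iff {l : Filter ℝ} (hl : l ≤ atTop) {c : ℝ} (hc : 0 < c) (f : ℝ → ℝ) :
    (∀ ε : ℝ, 0 < ε → ∀ᶠ T in l, (1 - ε) * (XX T * c) ≤ f T) ↔
    (∀ ε : ℝ, 0 < ε → ∀ᶠ T in l, c - ε ≤ f T / XX T) := by
  constructor
  · intro h ε hε
    filter_upwards [h (ε / c) (by positivity), hl (eventually_ge_atTop 10)] with T hT hT10
    rw [le_div_iff₀ (XX_pos hT10)]
    refine le_trans (le_of_eq ?_) hT
    field_simp
  · intro h ε hε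
    filter_upwards [h (ε * c) (by positivity), hl (eventually_ge_atTop 10)] with T hT hT10
    rw [le_div_iff₀ (XX_pos hT10)] at hT
    refine le_trans (le_of_eq ?_) hT
    ring

lemma up_iff {l : Filter ℝ} (hl : l ≤ atTop) {c : ℝ} (hc : 0 < c) (f : ℝ → ℝ) :
    (∀ ε : ℝ, 0 < ε → ∀ᶠ T in l, f T ≤ (1 + ε) * (XX T * c)) ↔
    (∀ ε : ℝ, 0 < ε → ∀ᶠ T in l, f T / XX T ≤ c + ε) := by
  constructor
  · intro h ε hε
    filter_upwards [h (ε / c) (by positivity), hl (eventually_ge_atTop 10)] with T hT hT10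
    rw [div_le_iff₀ (XX_pos hT10)]
    refine hT.trans (le_of_eq ?_)
    field_simp
  · intro h ε hε
    filter_upwards [h (ε * c) (by positivity), hl (eventually_ge_atTop 10)] with T hT hT10
    rw [div_le_iff₀ (XX_pos hT10)] at hT
    refine hT.trans (le_of_eq ?_)
    ring

lemma equiv_iff {l : Filter ℝ} (hl : l ≤ atTop) {c : ℝ} (hc : 0 < c) (f : ℝ → ℝ) :
    Asymptotics.IsEquivalent l f (fun T => XX T * c) ↔ Tendsto (fun T => f T / XX T) l (𝓝 c) := by
  have hne : ∀ᶠ T in l, XX T * c ≠ 0 := by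
    filter_upwards [hl (eventually_ge_atTop 10)] with T hT
    have := XX_pos hT
    positivity
  rw [Asymptotics.isEquivalent_iff_tendsto_one hne]
  constructor
  · intro h
    have h2 := h.mul_const c
    rw [one_mul] at h2
    refine h2.congr' ?_
    filter_upwards [hl (eventually_ge_atTop 10)] with T hT
    have := XX_pos hT
    simp only [Pi.div_apply]
    field_simp
  · intro h
    have h2 := h.div_const c
    rw [div_self hc.ne'] at h2
    refine h2.congr' ?_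
    filter_upwards [hl (eventually_ge_atTop 10)] with T hT
    have := XX_pos hT
    simp only [Pi.div_apply]
    field_simp

/-- the number of zeros -/
lemma NT_eq (T : ℝ) : ((∑ᶠ s ∈ {s : ℂ | riemannZeta s = 0 ∧ 0 < s.re ∧ s.re < 1 ∧ 0 ≤ s.im ∧
    s.im ≤ T}, analyticOrderNatAt riemannZeta s : ℕ) : ℝ) = NT T := by
  rw [zeros_eq, finsum_mem_coe_finset]
  push_cast
  rfl

/-- the number of zeros off the line -/
lemma NF_eq (T : ℝ) : ((∑ᶠ s ∈ {s : ℂ | s ∈ {s : ℂ | riemannZeta s = 0 ∧ 0 < s.re ∧ s.re < 1 ∧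
    0 ≤ s.im ∧ s.im ≤ T} ∧ s.re ≠ 1 / 2}, analyticOrderNatAt riemannZeta s : ℕ) : ℝ) = NF T := by
  classical
  have e : {s : ℂ | s ∈ {s : ℂ | riemannZeta s = 0 ∧ 0 < s.re ∧ s.re < 1 ∧
    0 ≤ s.im ∧ s.im ≤ T} ∧ s.re ≠ 1 / 2} = ↑((ZT T).filter (fun s => s.re ≠ 1 / 2)) := by
    rw [zeros_eq]
    ext s
    simp
  rw [e, finsum_mem_coe_finset]
  push_cast
  rfl

end Pool.Agent.E8helper72.PC
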