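import Pool.Agent.E8helper72.PC.Mono

/-! # Rigidity of the limit measures -/

set_option autoImplicit false

namespace Pool.Agent.E8helper72.PC

open MeasureTheory Set Filter Topology

/-- the properties of the limits of the normalised pair counting measures; `w` is the limit
proportion of the zeros off the critical line -/
structure LimData (μ : Measure ℝ) (w : ℝ) : Prop where
  lf : IsLocallyFiniteMeasure μ
  neg : μ (Iio 0) = 0
  int : ∀ δ r, TF δ r → Integrable (bl r) μ
  nonneg : 0 ≤ w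
  diag : 1 + w ≤ 2 * μ.real {0}
  approx : ∃ C : ℝ, ∀ δ : ℝ, 0 < δ → δ ≤ 1 / 2 → ∀ r, TF δ r → ∀ R : ℝ, (∀ α, |r α| ≤ R) →
    |2 * ∫ u, bl r u ∂μ - (bl r 0 + 2 * ∫ u in Ioi 0, bl r u ∂lam)| ≤ C * R * δ ^ 3
  exact : w = 0 → ∀ r, TF (1 / 2) r →
    2 * ∫ u, bl r u ∂μ = bl r 0 + 2 * ∫ u in Ioi 0, bl r u ∂lam

/-- the exact identities on the open half line, for functions that vanish at the origin -/
lemma LimData.ident {μ : Measure ℝ} (h : LimData μ 0) {r : ℝ → ℝ} (hr : TF (1 / 2) r)
    (h0 : bl r 0 = 0) : ∫ u in Ioi 0, bl r u ∂μ = ∫ u in Ioi 0, bl r u ∂lam := by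
  have := h.lf
  have h1 := h.exact rfl r hr
  rw [split_zero μ h.neg (h.int _ r hr), h0] at h1
  linarith

/-- almost all zeros on the line and domination of the distant intervals from below -/
theorem LimData.eq_of_far {μ : Measure ℝ} (h : LimData μ 0) {A : ℝ} (hA : 0 ≤ A)
    (hdom : ∀ a b : ℝ, A ≤ a → a < b → lam (Ioc a b) ≤ μ (Ioc a b)) :
    μ.restrict (Ioi 0) = lam.restrict (Ioi 0) := by
  have := h.lf
  have hfar := far_eq μ lam h.int lam_int (δ := 1 / 2) (by norm_num) hA
    (fun r hr h0 => h.ident hr h0) hdom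
  exact near_eq μ lam h.int lam_int (δ := 1 / 2) (by norm_num) hA
    (fun r hr h0 => h.ident hr h0) hfar

/-- almost all zeros on the line and domination of the distant intervals from above -/
theorem LimData.eq_of_far' {μ : Measure ℝ} (h : LimData μ 0) {A : ℝ} (hA : 0 ≤ A)
    (hdom : ∀ a b : ℝ, A ≤ a → a < b → μ (Ioc a b) ≤ lam (Ioc a b)) :
    μ.restrict (Ioi 0) = lam.restrict (Ioi 0) := by
  have := h.lf
  have hfar := far_eq lam μ lam_int h.int (δ := 1 / 2) (by norm_num) hA
    (fun r hr h0 => (h.ident hr h0).symm) hdom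
  exact near_eq μ lam h.int lam_int (δ := 1 / 2) (by norm_num) hA
    (fun r hr h0 => h.ident hr h0) hfar.symm

/-- **Domination of the intervals at the origin.** -/
theorem LimData.eq_of_near {μ : Measure ℝ} {w : ℝ} (h : LimData μ w)
    (hlow : ∀ x, 0 < x → lam (Ioc 0 x) ≤ μ (Ioc 0 x)) :
    w = 0 ∧ μ.real {0} = 1 / 2 ∧ μ.restrict (Ioi 0) = lam.restrict (Ioi 0) := by
  have := h.lf
  obtain ⟨r, hr, hanti, -, h0, hlim, hnn⟩ := exists_dec
  obtain ⟨M, hM, hMb⟩ := hr.bdd
  obtain ⟨C, hC⟩ := h.approx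
  set D : ℝ := 2 * μ.real {0} with hD
  have hineq : ∀ δ : ℝ, 0 < δ → δ ≤ 1 / 2 → (D - 1) * bl r 0 ≤ |C| * M * δ ^ 2 := by
    intro δ hδ hδ2
    have hr2 : TF δ (fun α => r (α / δ)) := by
      have h1 := hr.scale hδ
      rwa [mul_one] at h1
    have hb : ∀ u, bl (fun α => r (α / δ)) u = δ * bl r (δ * u) := fun u => bl_scale r hδ u
    have h1 := hC δ hδ hδ2 _ hr2 M (fun α => hMb _)
    rw [split_zero μ h.neg (h.int _ _ hr2)] at h1
    have hcont := bl_cont hr2
    have h2 := mono_integral μ lam (f := bl fun α => r (α / δ)) hcont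
      (fun u => by rw [hb]; exact mul_nonneg hδ.le (hnn _))
      (fun u hu v huv => by
        rw [hb, hb]
        exact mul_le_mul_of_nonneg_left (hanti _ (by positivity) _
          (mul_le_mul_of_nonneg_left huv hδ.le)) hδ.le)
      (by
        have h2 : Tendsto (fun u : ℝ => δ * u) atTop atTop := tendsto_id.const_mul_atTop hδ
        have h3 := (hlim.comp h2).const_mul δ
        rw [mul_zero] at h3
        exact h3.congr fun u => (hb u).symm) hlow (h.int _ _ hr2)
    have h3 := (abs_le.1 h1).2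
    have h4 : bl (fun α => r (α / δ)) 0 = δ * bl r 0 := by rw [hb, mul_zero]
    rw [h4] at h3
    have h5 : (D - 1) * bl r 0 * δ ≤ |C| * M * δ ^ 2 * δ := by
      have h6 : C * M * δ ^ 3 ≤ |C| * M * δ ^ 3 := by
        have := le_abs_self C
        have h7 : 0 ≤ M * δ ^ 3 := by positivity
        nlinarith
      rw [hD]
      nlinarith
    exact le_of_mul_le_mul_right h5 hδ
  have hD1 : D ≤ 1 := by
    have hlim0 : Tendsto (fun δ : ℝ => |C| * M * δ ^ 2) (𝓝[>] 0) (𝓝 (|C| * M * 0 ^ 2)) := by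
      apply Tendsto.mono_left _ nhdsWithin_le_nhds
      exact (Continuous.tendsto (by fun_prop) 0)
    have h1 : (D - 1) * bl r 0 ≤ |C| * M * 0 ^ 2 := by
      apply ge_of_tendsto hlim0
      filter_upwards [Ioc_mem_nhdsGT (show (0 : ℝ) < 1 / 2 by norm_num)] with δ hδ
      exact hineq δ hδ.1 hδ.2
    by_contra hcon
    push Not at hcon
    have := mul_pos (sub_pos.2 hcon) h0
    linarith
  have hdiag := h.diag
  have hw := h.nonneg
  have hw0 : w = 0 := by
    rw [hD] at hD1
    linarith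
  have hhalf : μ.real {0} = 1 / 2 := by
    rw [hD] at hD1
    linarith
  refine ⟨hw0, hhalf, ?_⟩
  apply mono_eq μ lam h.int (δ := 1 / 2) (by norm_num) _ hlow
  intro s hs
  have h1 := h.exact hw0 s hs
  rw [split_zero μ h.neg (h.int _ s hs), hhalf] at h1
  linarith

/-- if the limit measure is the predicted one then almost all zeros are on the critical line, and
there is no further mass at the origin -/
theorem LimData.crit {μ : Measure ℝ} {w : ℝ} (h : LimData μ w)
    (heq : μ.restrict (Ioi 0) = lam.restrict (Ioi 0)) : w = 0 ∧ μ.real {0} = 1 / 2 := by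
  have h1 := h.eq_of_near fun x hx => (restrict_Ioc heq le_rfl).ge
  exact ⟨h1.1, h1.2.1⟩

end Pool.Agent.E8helper72.PC
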