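import Pool.Agent.E8helper72.PC.Lim

/-! # Limits of families of weighted point sets along ultrafilters -/

set_option autoImplicit false

namespace Pool.Agent.E8helper72.PC

open MeasureTheory Set Filter Topology
open scoped NNReal ENNReal

variable {ι κ : Type*}

/-- the finite measure of a weighted point set, with the weight `1 / (1 + x²)` -/
noncomputable def ptm (S : Finset κ) (w x : κ → ℝ) : Measure ℝ :=
  ∑ p ∈ S, ENNReal.ofReal (w p / (1 + x p ^ 2)) • Measure.dirac (x p)

lemma ptm_apply (S : Finset κ) (w x : κ → ℝ) {s : Set ℝ} (hs : MeasurableSet s) :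
    ptm S w x s = ∑ p ∈ S, ENNReal.ofReal (w p / (1 + x p ^ 2)) * s.indicator 1 (x p) := by
  unfold ptm
  rw [Measure.finsetSum_apply]
  apply Finset.sum_congr rfl
  intro p _
  rw [Measure.smul_apply, Measure.dirac_apply' _ hs, smul_eq_mul]

instance ptm_finite (S : Finset κ) (w x : κ → ℝ) : IsFiniteMeasure (ptm S w x) := by
  constructor
  rw [ptm_apply S w x MeasurableSet.univ, ENNReal.sum_lt_top]
  intro p _
  simp

lemma ptm_le (S : Finset κ) (w x : κ → ℝ) (hw : ∀ p ∈ S, 0 ≤ w p) {s : Set ℝ} (hs : MeasurableSet s)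
    (P : κ → Prop) [DecidablePred P] (hP : ∀ p ∈ S, x p ∈ s → P p) :
    ptm S w x s ≤ ENNReal.ofReal (∑ p ∈ S with P p, w p / (1 + x p ^ 2)) := by
  rw [ptm_apply S w x hs, ENNReal.ofReal_sum_of_nonneg (fun p hp =>
    div_nonneg (hw p (Finset.mem_filter.1 hp).1) (by positivity)), Finset.sum_filter]
  apply Finset.sum_le_sum
  intro p hp
  by_cases h : x p ∈ s
  · rw [if_pos (hP p hp h), indicator_of_mem h]
    simp
  · rw [indicator_of_notMem h]
    simp

lemma ptm_integral (S : Finset κ) (w x : κ → ℝ) (hw : ∀ p ∈ S, 0 ≤ w p) (f : ℝ → ℝ) :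
    ∫ u, (1 + u ^ 2) * f u ∂(ptm S w x) = ∑ p ∈ S, w p * f (x p) := by
  unfold ptm
  rw [integral_finsetSum_measure]
  · apply Finset.sum_congr rfl
    intro p hp
    rw [integral_smul_measure, integral_dirac, ENNReal.toReal_ofReal
      (div_nonneg (hw p hp) (by positivity)), smul_eq_mul]
    field_simp
  · intro p hp
    apply Integrable.smul_measure _ ENNReal.ofReal_ne_top
    exact integrable_dirac enorm_lt_top

/-- convergence of a family of weighted point sets to a measure -/
structure LimM (U : Filter ι) (S : ι → Finset κ) (w x : ι → κ → ℝ) (μ : Measure ℝ) : Prop where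
  lf : IsLocallyFiniteMeasure μ
  neg : μ (Iio 0) = 0
  int : ∀ f : ℝ → ℝ, Continuous f → (∃ B, ∀ u, |f u| * (1 + u ^ 2) ≤ B) → Integrable f μ
  lim : ∀ f : ℝ → ℝ, Continuous f → (∃ B, ∀ u, |f u| * (1 + u ^ 2) ≤ B) →
    Tendsto (fun i => ∑ p ∈ S i, w i p * f (x i p)) U (𝓝 (∫ u, f u ∂μ))

/-- **Existence of limit measures.** -/
theorem exists_limM (U : Ultrafilter ι) (S : ι → Finset κ) (w x : ι → κ → ℝ) (C : ℝ)
    (h : ∀ᶠ i in (U : Filter ι), (∀ p ∈ S i, 0 ≤ w i p) ∧ (∀ p ∈ S i, 0 ≤ x i p) ∧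
      ∀ n : ℕ, ∑ p ∈ S i with (n : ℝ) ≤ x i p, w i p / (1 + x i p ^ 2) ≤ C / (n + 1)) :
    ∃ μ : Measure ℝ, LimM (U : Filter ι) S w x μ := by
  set u : ℕ → ℝ≥0 := fun n => (C / ((n : ℝ) + 1)).toNNReal with hu
  set K : ℕ → Set ℝ := fun n => Icc 0 (n : ℝ) with hK
  have hu0 : Tendsto u atTop (𝓝 0) := by
    have h1 : Tendsto (fun n : ℕ => C / ((n : ℝ) + 1)) atTop (𝓝 0) :=
      (tendsto_const_div_atTop_nhds_zero_nat C).comp (tendsto_add_atTop_nat 1) |>.congr
        fun k => by simp
    have h2 := (continuous_real_toNNReal.tendsto 0).comp h1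
    rwa [Real.toNNReal_zero] at h2
  have hcomp := isCompact_setOfPred_finiteMeasure_mass_le_compl_isCompact_le (E := ℝ) (u := u)
    (K := K) C.toNNReal hu0 (fun n => isCompact_Icc) (Or.inl inferInstance)
  set ρ : ι → FiniteMeasure ℝ := fun i => ⟨ptm (S i) (w i) (x i), inferInstance⟩ with hρ
  have hmem : ∀ᶠ i in (U : Filter ι), ρ i ∈
      {μ : FiniteMeasure ℝ | μ.mass ≤ C.toNNReal ∧ ∀ n, μ (K n)ᶜ ≤ u n} := by
    filter_upwards [h] with i hi
    obtain ⟨h1, h2, h3⟩ := hi
    have key : ∀ (s : Set ℝ) (n : ℕ), MeasurableSet s → (∀ y ∈ s, 0 ≤ y → (n : ℝ) ≤ y) →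
        (ρ i) s ≤ u n := by
      intro s n hs hsn
      rw [← ENNReal.coe_le_coe, FiniteMeasure.ennreal_coeFn_eq_coeFn_toMeasure]
      have h4 : ((ρ i : FiniteMeasure ℝ) : Measure ℝ) s = ptm (S i) (w i) (x i) s := rfl
      rw [h4]
      refine (ptm_le (S i) (w i) (x i) h1 hs (fun p => (n : ℝ) ≤ x i p)
        (fun p hp hps => hsn _ hps (h2 p hp))).trans ?_
      exact ENNReal.ofReal_le_ofReal (h3 n)
    refine ⟨?_, fun n => ?_⟩
    · have := key univ 0 MeasurableSet.univ (fun y _ hy => by simpa using hy)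
      have h5 : u 0 = C.toNNReal := by simp [hu]
      rw [h5] at this
      exact this
    · apply key _ n measurableSet_Icc.compl
      intro y hy hy0
      by_contra hcon
      push Not at hcon
      exact hy ⟨hy0, hcon.le⟩
  obtain ⟨ν, hνmem, hν⟩ := hcomp.ultrafilter_le_nhds' (U.map ρ) (by
    rw [Ultrafilter.mem_map]
    exact hmem)
  have hten : Tendsto ρ (U : Filter ι) (𝓝 ν) := by
    rw [Ultrafilter.coe_map] at hν
    exact hν
  rw [FiniteMeasure.tendsto_iff_forall_integral_tendsto] at hten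
  have hνneg : (ν : Measure ℝ) (Iio 0) = 0 := by
    have h1 : ∀ n : ℕ, ν (Iio 0) ≤ u n := by
      intro n
      have hsub : Iio (0 : ℝ) ⊆ (K n)ᶜ := by
        intro y hy hy2
        exact not_lt.2 hy2.1 hy
      exact (FiniteMeasure.apply_mono ν hsub).trans (hνmem.2 n)
    have h2 : ν (Iio 0) ≤ 0 := ge_of_tendsto hu0 (Eventually.of_forall h1)
    have h3 : ν (Iio 0) = 0 := le_antisymm h2 bot_le
    exact (FiniteMeasure.null_iff_toMeasure_null ν _).1 h3
  have hcont : Continuous fun y : ℝ => 1 + y ^ 2 := by fun_prop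
  have hw : ∀ f : ℝ → ℝ, ∫ y, f y ∂((ν : Measure ℝ).withDensity fun y => ENNReal.ofReal (1 + y ^ 2)) =
      ∫ y, (1 + y ^ 2) * f y ∂(ν : Measure ℝ) := by
    intro f
    rw [integral_withDensity_eq_integral_toReal_smul (by fun_prop)
      (Eventually.of_forall fun _ => ENNReal.ofReal_lt_top)]
    congr 1
    funext y
    rw [ENNReal.toReal_ofReal (by positivity), smul_eq_mul]
  refine ⟨(ν : Measure ℝ).withDensity fun y => ENNReal.ofReal (1 + y ^ 2), ?_, ?_, ?_, ?_⟩
  · exact IsLocallyFiniteMeasure.withDensity_ofReal hcont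
  · exact withDensity_absolutelyContinuous _ _ hνneg
  · rintro f hf ⟨B, hB⟩
    rw [integrable_withDensity_iff_integrable_smul' (by fun_prop)
      (Eventually.of_forall fun _ => ENNReal.ofReal_lt_top)]
    refine Integrable.mono' (integrable_const B) (by
      have : Measurable fun y : ℝ => (ENNReal.ofReal (1 + y ^ 2)).toReal • f y := by
        have := hf.measurable
        fun_prop
      exact this.aestronglyMeasurable) (Eventually.of_forall fun y => ?_)
    rw [ENNReal.toReal_ofReal (by positivity), norm_smul, Real.norm_eq_abs, Real.norm_eq_abs,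
      abs_of_nonneg (by positivity), mul_comm]
    exact hB y
  · rintro f hf ⟨B, hB⟩
    rw [hw]
    have hfc : Continuous fun y : ℝ => (1 + y ^ 2) * f y := hcont.mul hf
    have h1 := hten (BoundedContinuousFunction.ofNormedAddCommGroup _ hfc B (fun y => by
      rw [norm_mul, Real.norm_eq_abs, Real.norm_eq_abs, abs_of_nonneg (by positivity), mul_comm]
      exact hB y))
    refine h1.congr' ?_
    filter_upwards [h] with i hi
    exact ptm_integral (S i) (w i) (x i) hi.1 f

/-- the weight of the points in a window -/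
noncomputable def cw (S : Finset κ) (w x : κ → ℝ) (a b : ℝ) : ℝ :=
  ∑ p ∈ S with a ≤ x p ∧ x p ≤ b, w p

/-- trapezoids -/
noncomputable def trap (a b c d : ℝ) (u : ℝ) : ℝ :=
  max 0 (min 1 (min ((u - a) / (b - a)) ((d - u) / (d - c))))

lemma trap_cont (a b c d : ℝ) : Continuous (trap a b c d) := by
  unfold trap
  fun_prop

lemma trap_nonneg (a b c d u : ℝ) : 0 ≤ trap a b c d u := le_max_left _ _

lemma trap_le_one (a b c d u : ℝ) : trap a b c d u ≤ 1 :=
  max_le zero_le_one (min_le_left _ _)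

lemma trap_eq_one {a b c d u : ℝ} (hab : a < b) (hcd : c < d) (h1 : b ≤ u) (h2 : u ≤ c) :
    trap a b c d u = 1 := by
  unfold trap
  have h3 : 1 ≤ (u - a) / (b - a) := by
    rw [le_div_iff₀ (by linarith)]; linarith
  have h4 : 1 ≤ (d - u) / (d - c) := by
    rw [le_div_iff₀ (by linarith)]; linarith
  rw [min_eq_left (le_min h3 h4), max_eq_right zero_le_one]

lemma trap_eq_zero {a b c d u : ℝ} (hab : a < b) (hcd : c < d) (h : u ≤ a ∨ d ≤ u) :
    trap a b c d u = 0 := by
  unfold trap
  apply max_eq_left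
  rcases h with h | h
  · exact (min_le_right _ _).trans ((min_le_left _ _).trans
      (div_nonpos_of_nonpos_of_nonneg (by linarith) (by linarith)))
  · exact (min_le_right _ _).trans ((min_le_right _ _).trans
      (div_nonpos_of_nonpos_of_nonneg (by linarith) (by linarith)))

lemma trap_bdd {a b c d : ℝ} (hab : a < b) (hcd : c < d) :
    ∃ B, ∀ u, |trap a b c d u| * (1 + u ^ 2) ≤ B := by
  refine ⟨1 + (|a| + |d|) ^ 2, fun u => ?_⟩
  rw [abs_of_nonneg (trap_nonneg _ _ _ _ _)]
  by_cases h : a < u ∧ u < d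
  · have h1 : |u| ≤ |a| + |d| := by
      rw [abs_le]
      have := neg_abs_le a
      have := le_abs_self d
      have := abs_nonneg a
      have := abs_nonneg d
      constructor <;> linarith
    have h2 : u ^ 2 ≤ (|a| + |d|) ^ 2 := by
      rw [← sq_abs u]
      exact pow_le_pow_left₀ (abs_nonneg _) h1 2
    have h3 := trap_le_one a b c d u
    have h4 := trap_nonneg a b c d u
    nlinarith [sq_nonneg u]
  · have h2 : u ≤ a ∨ d ≤ u := by
      by_contra hcon
      push Not at hcon
      exact h hcon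
    rw [trap_eq_zero hab hcd h2, zero_mul]
    positivity

/-- upper bound of the windows by the limit measure -/
lemma LimM.window_lt {U : Filter ι} {S : ι → Finset κ} {w x : ι → κ → ℝ}
    {μ : Measure ℝ} (h : LimM U S w x μ) (hw : ∀ᶠ i in U, ∀ p ∈ S i, 0 ≤ w i p)
    {a α β d : ℝ} (h1 : a < α) (h2 : β < d) {v : ℝ} (hv : μ.real (Ioc a d) < v) :
    ∀ᶠ i in U, cw (S i) (w i) (x i) α β < v := by
  have := h.lf
  have hb := trap_bdd h1 h2
  have hc := trap_cont a α β d
  have hle : ∫ u, trap a α β d u ∂μ ≤ μ.real (Ioc a d) := by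
    have h3 : μ.real (Ioc a d) = ∫ u, (Ioc a d).indicator 1 u ∂μ := by
      rw [integral_indicator_one measurableSet_Ioc]
    rw [h3]
    apply integral_mono (h.int _ hc hb)
    · exact (integrable_indicator_iff measurableSet_Ioc).2
        (integrableOn_const measure_Ioc_lt_top.ne)
    · intro u
      by_cases hu : u ∈ Ioc a d
      · rw [indicator_of_mem hu]
        exact trap_le_one _ _ _ _ _
      · rw [indicator_of_notMem hu]
        have h4 : u ≤ a ∨ d ≤ u := by
          by_contra hcon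
          push Not at hcon
          exact hu ⟨hcon.1, hcon.2.le⟩
        exact (trap_eq_zero h1 h2 h4).le
  filter_upwards [(h.lim _ hc hb).eventually (gt_mem_nhds (hle.trans_lt hv)), hw] with i hi hwi
  refine lt_of_le_of_lt ?_ hi
  unfold cw
  rw [Finset.sum_filter]
  apply Finset.sum_le_sum
  intro p hp
  have h5 := hwi p hp
  split_ifs with hc
  · rw [trap_eq_one h1 h2 hc.1 hc.2, mul_one]
  · exact mul_nonneg h5 (trap_nonneg _ _ _ _ _)

/-- lower bound of the windows by the limit measure -/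
lemma LimM.window_gt {U : Filter ι} {S : ι → Finset κ} {w x : ι → κ → ℝ}
    {μ : Measure ℝ} (h : LimM U S w x μ) (hw : ∀ᶠ i in U, ∀ p ∈ S i, 0 ≤ w i p)
    {b α β c : ℝ} (h1 : α < b) (h2 : c < β) {v : ℝ} (hv : v < μ.real (Icc b c)) :
    ∀ᶠ i in U, v < cw (S i) (w i) (x i) α β := by
  have := h.lf
  have hb := trap_bdd h1 h2
  have hc := trap_cont α b c β
  have hle : μ.real (Icc b c) ≤ ∫ u, trap α b c β u ∂μ := by
    have h3 : μ.real (Icc b c) = ∫ u, (Icc b c).indicator 1 u ∂μ := by
      rw [integral_indicator_one measurableSet_Icc]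
    rw [h3]
    apply integral_mono _ (h.int _ hc hb)
    · intro u
      by_cases hu : u ∈ Icc b c
      · rw [indicator_of_mem hu]
        exact (trap_eq_one h1 h2 hu.1 hu.2).ge
      · rw [indicator_of_notMem hu]
        exact trap_nonneg _ _ _ _ _
    · exact (integrable_indicator_iff measurableSet_Icc).2
        (integrableOn_const measure_Icc_lt_top.ne)
  filter_upwards [(h.lim _ hc hb).eventually (lt_mem_nhds (hv.trans_le hle)), hw] with i hi hwi
  refine lt_of_lt_of_le hi ?_
  unfold cw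
  rw [Finset.sum_filter]
  apply Finset.sum_le_sum
  intro p hp
  have h5 := hwi p hp
  split_ifs with hc
  · exact mul_le_of_le_one_right h5 (trap_le_one _ _ _ _ _)
  · have h4 : x i p ≤ α ∨ β ≤ x i p := by
      by_contra hcon
      push Not at hcon
      exact hc ⟨hcon.1.le, hcon.2.le⟩
    rw [trap_eq_zero h1 h2 h4, mul_zero]

end Pool.Agent.E8helper72.PC
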