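import Mathlib

/-! # Comparison of measures on the line from intervals -/

set_option autoImplicit false

namespace Pool.Agent.E8helper72.PC

open MeasureTheory Set Filter Topology

/-- the distribution function is right continuous -/
lemma dist_right (m : Measure ℝ) [IsLocallyFiniteMeasure m] (A x : ℝ) :
    Tendsto (fun y => (m (Ioc A y)).toReal) (𝓝[>] x) (𝓝 (m (Ioc A x)).toReal) := by
  have h1 := tendsto_measure_biInter_gt (μ := m) (s := fun y : ℝ => Ioc A y) (a := x)
    (fun r _ => measurableSet_Ioc.nullMeasurableSet)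
    (fun i j _ hij => Ioc_subset_Ioc_right hij)
    ⟨x + 1, by linarith, measure_Ioc_lt_top.ne⟩
  have h2 : (⋂ r > x, Ioc A r) = Ioc A x := by
    ext y
    simp only [mem_iInter, mem_Ioc]
    constructor
    · intro h
      refine ⟨(h (x + 1) (by linarith)).1, ?_⟩
      exact le_of_forall_gt_imp_ge_of_dense fun r hr => (h r hr).2
    · intro h r hr
      exact ⟨h.1, h.2.trans (le_of_lt hr)⟩
  rw [h2] at h1
  exact (ENNReal.tendsto_toReal measure_Ioc_lt_top.ne).comp h1

/-- additivity of the distribution function -/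
lemma dist_add (m : Measure ℝ) [IsLocallyFiniteMeasure m] {A a b : ℝ} (h1 : A ≤ a) (h2 : a ≤ b) :
    (m (Ioc A b)).toReal = (m (Ioc A a)).toReal + (m (Ioc a b)).toReal := by
  rw [← Ioc_union_Ioc_eq_Ioc h1 h2, measure_union (Ioc_disjoint_Ioc_of_le le_rfl) measurableSet_Ioc,
    ENNReal.toReal_add measure_Ioc_lt_top.ne measure_Ioc_lt_top.ne]

/-- a measure that dominates another one on all intervals to the right of `A` dominates it -/
theorem exists_excess (m l : Measure ℝ) [IsLocallyFiniteMeasure m] [IsLocallyFiniteMeasure l] (A : ℝ)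
    (h : ∀ a b : ℝ, A ≤ a → a < b → l (Ioc a b) ≤ m (Ioc a b)) :
    ∃ g : Measure ℝ, m.restrict (Ioi A) = l.restrict (Ioi A) + g := by
  have hr : ∀ a b : ℝ, A ≤ a → a < b → (l (Ioc a b)).toReal ≤ (m (Ioc a b)).toReal := fun a b h1 h2 =>
    ENNReal.toReal_mono measure_Ioc_lt_top.ne (h a b h1 h2)
  set G : ℝ → ℝ := fun x => (m (Ioc A x)).toReal - (l (Ioc A x)).toReal with hG
  have hG0 : ∀ x, x ≤ A → G x = 0 := by
    intro x hx
    simp [hG, Ioc_eq_empty_of_le hx]
  have hGd : ∀ a b, A ≤ a → a ≤ b → G b - G a = (m (Ioc a b)).toReal - (l (Ioc a b)).toReal := by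
    intro a b h1 h2
    simp only [hG]
    rw [dist_add m h1 h2, dist_add l h1 h2]
    ring
  have hmono : Monotone G := by
    intro a b hab
    rcases hab.lt_or_eq with hab | hab
    swap
    · rw [hab]
    rcases le_total A a with hA | hA
    · have := hGd a b hA hab.le
      have := hr a b hA hab
      linarith
    · rw [hG0 a hA]
      rcases le_or_gt b A with hb | hb
      · rw [hG0 b hb]
      · have h1 := hGd A b le_rfl hb.le
        have h2 := hr A b le_rfl hb
        rw [hG0 A le_rfl] at h1
        linarith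
  have hcont : ∀ x, ContinuousWithinAt G (Ici x) x := by
    intro x
    rw [← continuousWithinAt_Ioi_iff_Ici]
    exact (dist_right m A x).sub (dist_right l A x)
  let S : StieltjesFunction ℝ := ⟨G, hmono, hcont⟩
  refine ⟨S.measure, ?_⟩
  apply Measure.ext_of_Ioc
  intro a b hab
  rw [Measure.add_apply, Measure.restrict_apply measurableSet_Ioc,
    Measure.restrict_apply measurableSet_Ioc, StieltjesFunction.measure_Ioc]
  show m (Ioc a b ∩ Ioi A) = l (Ioc a b ∩ Ioi A) + ENNReal.ofReal (G b - G a)
  have hint : Ioc a b ∩ Ioi A = Ioc (max a A) b := by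
    ext x
    simp only [mem_inter_iff, mem_Ioc, mem_Ioi, max_lt_iff]
    tauto
  rw [hint]
  rcases le_or_gt b A with hb | hb
  · rw [hG0 b hb, hG0 a (hab.le.trans hb), Ioc_eq_empty_of_le (hb.trans (le_max_right _ _))]
    simp
  · have hGa : G a = G (max a A) := by
      rcases le_total a A with h1 | h1
      · rw [hG0 a h1, max_eq_right h1, hG0 A le_rfl]
      · rw [max_eq_left h1]
    rw [hGa, hGd (max a A) b (le_max_right _ _) (max_le hab.le hb.le),
      ENNReal.ofReal_sub _ ENNReal.toReal_nonneg, ENNReal.ofReal_toReal measure_Ioc_lt_top.ne,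
      ENNReal.ofReal_toReal measure_Ioc_lt_top.ne]
    exact (add_tsub_cancel_of_le (h _ _ (le_max_right _ _) (max_lt hab hb))).symm

/-- equality on all intervals gives equality -/
theorem restrict_eq (m l : Measure ℝ) [IsLocallyFiniteMeasure m] (A : ℝ)
    (h : ∀ a b : ℝ, A ≤ a → a < b → m (Ioc a b) = l (Ioc a b)) :
    m.restrict (Ioi A) = l.restrict (Ioi A) := by
  apply Measure.ext_of_Ioc
  intro a b hab
  rw [Measure.restrict_apply measurableSet_Ioc, Measure.restrict_apply measurableSet_Ioc]
  have hint : Ioc a b ∩ Ioi A = Ioc (max a A) b := by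
    ext x
    simp only [mem_inter_iff, mem_Ioc, mem_Ioi, max_lt_iff]
    tauto
  rw [hint]
  rcases le_or_gt b (max a A) with hb | hb
  · rw [Ioc_eq_empty_of_le hb]
    simp
  · exact h _ _ (le_max_right _ _) hb

lemma restrict_Ioc {m l : Measure ℝ} {A : ℝ} (h : m.restrict (Ioi A) = l.restrict (Ioi A))
    {a b : ℝ} (ha : A ≤ a) : m (Ioc a b) = l (Ioc a b) := by
  have h1 : m.restrict (Ioi A) (Ioc a b) = l.restrict (Ioi A) (Ioc a b) := by rw [h]
  rw [Measure.restrict_apply measurableSet_Ioc, Measure.restrict_apply measurableSet_Ioc] at h1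
  have hint : Ioc a b ∩ Ioi A = Ioc a b := by
    apply inter_eq_left.2
    intro x hx
    exact ha.trans_lt hx.1
  rwa [hint] at h1

end Pool.Agent.E8helper72.PC
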