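import Pool.Agent.E8helper72.PC.TFk
import Pool.Agent.E8helper72.PC.Meas

/-! # Measures on a half line with the same integrals against bandlimited functions -/

set_option autoImplicit false

namespace Pool.Agent.E8helper72.PC

open MeasureTheory Set Filter Topology

/-- the functions `u ^ (2 n) h(ε u)` -/
lemma exists_power {χ : ℝ → ℝ} (hχ : TF 1 χ) (n : ℕ) {e : ℝ} (he : 0 < e) :
    ∃ r, TF e r ∧ ∀ u, bl r u = u ^ (2 * n) * bl χ (e * u) := by
  obtain ⟨r, hr, hu⟩ := bl_pow (hχ.scale he) n
  rw [mul_one] at hr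
  refine ⟨fun α => e⁻¹ * r α, hr.const_mul _, fun u => ?_⟩
  rw [bl_const_mul, hu, bl_scale χ he]
  field_simp

/-- **The distant part.** -/
theorem far_eq (m l : Measure ℝ) [IsLocallyFiniteMeasure m] [IsLocallyFiniteMeasure l]
    (hm : ∀ δ r, TF δ r → Integrable (bl r) m) (hl : ∀ δ r, TF δ r → Integrable (bl r) l)
    {δ A : ℝ} (hδ : 0 < δ) (hA : 0 ≤ A)
    (hex : ∀ r, TF δ r → bl r 0 = 0 → ∫ u in Ioi 0, bl r u ∂m = ∫ u in Ioi 0, bl r u ∂l)
    (hdom : ∀ a b : ℝ, A ≤ a → a < b → l (Ioc a b) ≤ m (Ioc a b)) :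
    m.restrict (Ioi A) = l.restrict (Ioi A) := by
  obtain ⟨g, hg⟩ := exists_excess m l A hdom
  obtain ⟨χ, hχ, hev, hnn, h1⟩ := exists_kernel
  obtain ⟨H0, hH0, hH⟩ := hχ.decay 0
  simp only [pow_zero, mul_one] at hH
  -- it is enough to bound the excess of each interval
  have key : ∀ a b : ℝ, A < a → a < b → g (Ioc a b) = 0 := by
    intro a b ha hab
    have ha0 : 0 < a := hA.trans_lt ha
    have hgle : g ≤ m.restrict (Ioi A) := by rw [hg]; exact Measure.le_add_left le_rfl
    have hgfin : g (Ioc a b) ≠ ⊤ := by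
      have h2 : g (Ioc a b) ≤ m.restrict (Ioi A) (Ioc a b) := hgle _
      have h3 : m.restrict (Ioi A) (Ioc a b) ≤ m (Ioc a b) := Measure.restrict_apply_le _ _
      exact ((h2.trans h3).trans_lt measure_Ioc_lt_top).ne
    -- choose the dilation
    obtain ⟨e, he, heδ, hhalf⟩ : ∃ e : ℝ, 0 < e ∧ e ≤ δ ∧ ∀ u ∈ Ioc a b, 1 / 2 ≤ bl χ (e * u) := by
      have h2 : ∀ᶠ u in 𝓝 (0 : ℝ), 1 / 2 < bl χ u := by
        have : (1 / 2 : ℝ) < bl χ 0 := by rw [h1]; norm_num
        exact (bl_cont hχ).continuousAt.eventually (lt_mem_nhds this)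
      obtain ⟨w, hw, h3⟩ := Metric.eventually_nhds_iff.1 h2
      have hb0 : 0 < b := ha0.trans hab
      refine ⟨min δ (w / (2 * b)), by positivity, min_le_left _ _, fun u hu => (h3 ?_).le⟩
      rw [Real.dist_eq, sub_zero]
      have hu0 : 0 < u := ha0.trans hu.1
      rw [abs_of_pos (by positivity)]
      calc min δ (w / (2 * b)) * u ≤ w / (2 * b) * b :=
            mul_le_mul (min_le_right _ _) hu.2 hu0.le (by positivity)
        _ = w / 2 := by field_simp
        _ < w := by linarith
    -- the main inequality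
    have hineq : ∀ n : ℕ, 1 ≤ n → (g (Ioc a b)).toReal ≤
        2 * H0 * ((l (Ioc 0 A)).toReal) * (A / a) ^ (2 * n) := by
      intro n hn
      obtain ⟨r, hr, hu⟩ := exists_power hχ n he
      have hr' := hr.mono heδ
      have h00 : bl r 0 = 0 := by
        rw [hu, zero_pow (by omega), zero_mul]
      have hfn : ∀ u, 0 ≤ bl r u := fun u => by
        rw [hu]; exact mul_nonneg ((even_two_mul n).pow_nonneg u) (hnn _)
      have hI := hex r hr' h00
      have hmi := hm δ r hr'
      have hli := hl δ r hr'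
      have hsplit : ∀ (p : Measure ℝ), Integrable (bl r) p → ∫ u in Ioi 0, bl r u ∂p =
          ∫ u in Ioc 0 A, bl r u ∂p + ∫ u in Ioi A, bl r u ∂p := by
        intro p hp
        rw [← Ioc_union_Ioi_eq_Ioi hA]
        exact setIntegral_union (Set.disjoint_left.2 fun x hx hx' => not_lt.2 hx.2 hx')
          measurableSet_Ioi hp.integrableOn hp.integrableOn
      rw [hsplit m hmi, hsplit l hli] at hI
      have hgi : Integrable (bl r) g := hmi.restrict.mono_measure hgle
      have hli' : Integrable (bl r) (l.restrict (Ioi A)) := hli.restrict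
      rw [hg, integral_add_measure hli' hgi] at hI
      have hm0 : 0 ≤ ∫ u in Ioc 0 A, bl r u ∂m := integral_nonneg fun u => hfn u
      have hg1 : ∫ u, bl r u ∂g ≤ ∫ u in Ioc 0 A, bl r u ∂l := by linarith
      have hg2 : ∫ u in Ioc 0 A, bl r u ∂l ≤ A ^ (2 * n) * H0 * (l (Ioc 0 A)).toReal := by
        have h2 := norm_setIntegral_le_of_norm_le_const (μ := l) (s := Ioc 0 A) (f := bl r)
          (C := A ^ (2 * n) * H0) measure_Ioc_lt_top (by
            intro u hu'
            rw [Real.norm_of_nonneg (hfn u), hu]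
            have h3 : u ^ (2 * n) ≤ A ^ (2 * n) := pow_le_pow_left₀ hu'.1.le hu'.2 _
            have h4 : bl χ (e * u) ≤ H0 := (le_abs_self _).trans (hH _)
            exact mul_le_mul h3 h4 (hnn _) (by positivity))
        rw [measureReal_def] at h2
        exact (Real.le_norm_self _).trans h2
      have hg3 : a ^ (2 * n) * (1 / 2) * (g (Ioc a b)).toReal ≤ ∫ u, bl r u ∂g := by
        have h2 : ∫ u in Ioc a b, bl r u ∂g ≤ ∫ u, bl r u ∂g :=
          setIntegral_le_integral hgi (Eventually.of_forall hfn)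
        refine le_trans ?_ h2
        have h3 : ∫ u in Ioc a b, a ^ (2 * n) * (1 / 2) ∂g = a ^ (2 * n) * (1 / 2) *
            (g (Ioc a b)).toReal := by
          rw [setIntegral_const, measureReal_def, smul_eq_mul, mul_comm]
        rw [← h3]
        apply setIntegral_mono_on (integrableOn_const hgfin) hgi.integrableOn measurableSet_Ioc
        intro u hu'
        rw [hu]
        exact mul_le_mul (pow_le_pow_left₀ ha0.le hu'.1.le _) (hhalf u hu') (by norm_num)
          (by have := ha0.trans hu'.1; positivity)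
      have h5 : a ^ (2 * n) * (1 / 2) * (g (Ioc a b)).toReal ≤
          A ^ (2 * n) * H0 * (l (Ioc 0 A)).toReal := hg3.trans (hg1.trans hg2)
      have ha2 : 0 < a ^ (2 * n) := by positivity
      rw [div_pow]
      rw [show 2 * H0 * (l (Ioc 0 A)).toReal * (A ^ (2 * n) / a ^ (2 * n)) =
        (2 * (A ^ (2 * n) * H0 * (l (Ioc 0 A)).toReal)) / a ^ (2 * n) by ring, le_div_iff₀ ha2]
      linarith
    have hlim : Tendsto (fun n : ℕ => 2 * H0 * ((l (Ioc 0 A)).toReal) * (A / a) ^ (2 * n)) atTop
        (𝓝 (2 * H0 * ((l (Ioc 0 A)).toReal) * 0)) := by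
      apply Tendsto.const_mul
      have hq0 : 0 ≤ A / a := by positivity
      have hq1 : A / a < 1 := (div_lt_one ha0).2 ha
      have h2 := tendsto_pow_atTop_nhds_zero_of_lt_one (r := (A / a) ^ 2) (by positivity)
        (pow_lt_one₀ hq0 hq1 (by norm_num))
      refine h2.congr fun n => ?_
      rw [← pow_mul]
    rw [mul_zero] at hlim
    have hle : (g (Ioc a b)).toReal ≤ 0 := by
      apply ge_of_tendsto hlim
      filter_upwards [eventually_ge_atTop 1] with n hn
      exact hineq n hn
    have h0 : (g (Ioc a b)).toReal = 0 := le_antisymm hle ENNReal.toReal_nonneg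
    rcases (ENNReal.toReal_eq_zero_iff _).1 h0 with h | h
    · exact h
    · exact absurd h hgfin
  -- the excess vanishes
  have hgz : g (Ioi A) = 0 := by
    have h2 : Ioi A = ⋃ n : ℕ, Ioc (A + 1 / ((n : ℝ) + 1)) (A + 1 / ((n : ℝ) + 1) + n + 1) := by
      ext x
      simp only [mem_Ioi, mem_iUnion, mem_Ioc]
      constructor
      · intro hx
        obtain ⟨n, hn⟩ := exists_nat_gt (max (1 / (x - A)) (x - A))
        have hn1 : 1 / (x - A) < n := (le_max_left _ _).trans_lt hn
        have hn2 : x - A < n := (le_max_right _ _).trans_lt hn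
        have hxA : 0 < x - A := by linarith
        refine ⟨n, ?_, ?_⟩
        · have : 1 / ((n : ℝ) + 1) < x - A := by
            rw [div_lt_iff₀ (by positivity)]
            rw [div_lt_iff₀ hxA] at hn1
            nlinarith
          linarith
        · have : (0 : ℝ) < 1 / ((n : ℝ) + 1) := by positivity
          linarith
      · rintro ⟨n, hn, -⟩
        have : (0 : ℝ) < 1 / ((n : ℝ) + 1) := by positivity
        linarith
    rw [h2]
    refine measure_iUnion_null fun n => key _ _ ?_ ?_
    · have : (0 : ℝ) < 1 / ((n : ℝ) + 1) := by positivity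
      linarith
    · have : (0 : ℝ) ≤ n := Nat.cast_nonneg n
      linarith
  have hgz' : g (Ioi A)ᶜ = 0 := by
    have h3 : g (Ioi A)ᶜ ≤ m.restrict (Ioi A) (Ioi A)ᶜ := by
      rw [hg]; exact Measure.le_add_left le_rfl _
    rw [Measure.restrict_apply measurableSet_Ioi.compl, compl_inter_self, measure_empty] at h3
    exact le_antisymm h3 bot_le
  have hg0 : g = 0 := by
    rw [← Measure.measure_univ_eq_zero, ← union_compl_self (Ioi A)]
    exact measure_union_null hgz hgz'
  rw [hg, hg0, add_zero]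

end Pool.Agent.E8helper72.PC
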