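import Pool.Agent.E8helper72.PC.Near

/-! # The measure predicted by the pair correlation conjecture -/

set_option autoImplicit false

namespace Pool.Agent.E8helper72.PC

open MeasureTheory Set Filter Topology

/-- the pair correlation function -/
noncomputable def FF (u : ℝ) : ℝ := 1 - Real.sinc (Real.pi * u) ^ 2

lemma FF_nonneg (u : ℝ) : 0 ≤ FF u := by
  unfold FF
  have h := Real.abs_sinc_le_one (Real.pi * u)
  have h2 : Real.sinc (Real.pi * u) ^ 2 ≤ 1 := by
    rw [← sq_abs]
    exact pow_le_one₀ (abs_nonneg _) h
  linarith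

lemma FF_le_one (u : ℝ) : FF u ≤ 1 := by
  unfold FF
  have := sq_nonneg (Real.sinc (Real.pi * u))
  linarith

lemma FF_cont : Continuous FF := by
  unfold FF
  have := Real.continuous_sinc
  fun_prop

/-- the measure with density `F` -/
noncomputable def lam : Measure ℝ := volume.withDensity fun u => ENNReal.ofReal (FF u)

lemma lam_le : lam ≤ volume := by
  intro s
  unfold lam
  rw [← one_mul (volume s)]
  by_cases hs : MeasurableSet s
  · rw [withDensity_apply _ hs]
    calc ∫⁻ u in s, ENNReal.ofReal (FF u) ≤ ∫⁻ u in s, 1 := by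
          apply lintegral_mono
          intro u
          exact (ENNReal.ofReal_le_ofReal (FF_le_one u)).trans (by simp)
      _ = 1 * volume s := by simp
  · -- outer regularity by measurable hulls
    have h1 : (volume.withDensity fun u => ENNReal.ofReal (FF u)) s ≤
        (volume.withDensity fun u => ENNReal.ofReal (FF u)) (toMeasurable volume s) :=
      measure_mono (subset_toMeasurable _ _)
    refine h1.trans ?_
    rw [withDensity_apply _ (measurableSet_toMeasurable _ _), one_mul,
      ← measure_toMeasurable (μ := volume) s]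
    calc ∫⁻ u in toMeasurable volume s, ENNReal.ofReal (FF u) ≤
        ∫⁻ u in toMeasurable volume s, 1 := by
          apply lintegral_mono
          intro u
          exact (ENNReal.ofReal_le_ofReal (FF_le_one u)).trans (by simp)
      _ = volume (toMeasurable volume s) := by simp
      _ ≤ _ := by simp [measure_toMeasurable]

instance lam_lf : IsLocallyFiniteMeasure lam :=
  Measure.isLocallyFiniteMeasure_of_le lam_le

lemma TF.int_bl {δ : ℝ} {r : ℝ → ℝ} (h : TF δ r) : Integrable (bl r) := by
  obtain ⟨C, hC, hd⟩ := h.decay 1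
  refine (integrable_inv_one_add_sq.const_mul C).mono' (bl_cont h).aestronglyMeasurable
    (Eventually.of_forall fun u => ?_)
  rw [Real.norm_eq_abs, ← div_eq_mul_inv, le_div_iff₀ (by positivity)]
  have := hd u
  rwa [pow_one] at this

lemma lam_int (δ : ℝ) (r : ℝ → ℝ) (h : TF δ r) : Integrable (bl r) lam :=
  h.int_bl.mono_measure lam_le

lemma lam_integral {f : ℝ → ℝ} (s : Set ℝ) (hs : MeasurableSet s) :
    ∫ u in s, f u ∂lam = ∫ u in s, FF u * f u := by
  unfold lam
  rw [restrict_withDensity hs, integral_withDensity_eq_integral_toReal_smul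
    (by have := FF_cont; fun_prop) (Eventually.of_forall fun _ => ENNReal.ofReal_lt_top)]
  congr 1
  funext u
  rw [ENNReal.toReal_ofReal (FF_nonneg u), smul_eq_mul]

lemma lam_Ioc {a b : ℝ} (hab : a ≤ b) : lam (Ioc a b) = ENNReal.ofReal (∫ u in a..b, FF u) := by
  unfold lam
  rw [withDensity_apply _ measurableSet_Ioc, intervalIntegral.integral_of_le hab,
    ofReal_integral_eq_lintegral_ofReal]
  · exact (FF_cont.integrableOn_Icc).mono_set Ioc_subset_Icc_self
  · exact Eventually.of_forall FF_nonneg

/-- splitting off the atom at the origin -/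
lemma split_zero (m : Measure ℝ) [IsLocallyFiniteMeasure m] (hneg : m (Iio 0) = 0) {f : ℝ → ℝ}
    (hf : Integrable f m) : ∫ u, f u ∂m = m.real {0} * f 0 + ∫ u in Ioi 0, f u ∂m := by
  have h1 : ∫ u, f u ∂m = ∫ u in Ici 0, f u ∂m := by
    rw [← integral_add_compl measurableSet_Ici hf, compl_Ici, setIntegral_measure_zero _ hneg,
      add_zero]
  have h2 : Ici (0 : ℝ) = {0} ∪ Ioi 0 := by
    ext x
    simp only [mem_Ici, mem_union, mem_singleton_iff, mem_Ioi]
    rw [le_iff_eq_or_lt, eq_comm]
  rw [h1, h2, setIntegral_union (by simp) measurableSet_Ioi hf.integrableOn hf.integrableOn,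
    integral_singleton, smul_eq_mul]

end Pool.Agent.E8helper72.PC
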