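import Pool.Agent.E8helper72.PC.Lam

/-! # Monotone test functions and distribution functions -/

set_option autoImplicit false

namespace Pool.Agent.E8helper72.PC

open MeasureTheory Set Filter Topology

/-- the superlevel sets of a decreasing function are intervals starting at the origin -/
lemma level_le (m l : Measure ℝ) {f : ℝ → ℝ} (hc : Continuous f)
    (hanti : ∀ u, 0 ≤ u → ∀ v, u ≤ v → f v ≤ f u) (hlim : Tendsto f atTop (𝓝 0))
    (hlow : ∀ x, 0 < x → l (Ioc 0 x) ≤ m (Ioc 0 x)) {t : ℝ} (ht : 0 < t) :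
    l {u | 0 < u ∧ t < f u} ≤ m {u | 0 < u ∧ t < f u} := by
  set S := {u | 0 < u ∧ t < f u} with hS
  rcases S.eq_empty_or_nonempty with hE | hne
  · rw [hE]; simp
  have hbdd : BddAbove S := by
    obtain ⟨X, hX⟩ := (hlim.eventually (gt_mem_nhds ht)).exists_forall_of_atTop
    refine ⟨X, fun u hu => ?_⟩
    by_contra h
    push Not at h
    have := hX u h.le
    have h2 := hu.2
    linarith
  have hopen : IsOpen S := by
    rw [hS]
    exact (isOpen_lt continuous_const continuous_id).inter (isOpen_lt continuous_const hc)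
  have hSI : S = Ioo 0 (sSup S) := by
    ext u
    constructor
    · intro hu
      refine ⟨hu.1, ?_⟩
      obtain ⟨e, he, hb⟩ := Metric.isOpen_iff.1 hopen u hu
      have h2 : u + e / 2 ∈ S := hb (by
        rw [Metric.mem_ball, Real.dist_eq]
        rw [show u + e / 2 - u = e / 2 by ring, abs_of_pos (by linarith)]
        linarith)
      have := le_csSup hbdd h2
      linarith
    · rintro ⟨h1, h2⟩
      obtain ⟨v, hv, huv⟩ := exists_lt_of_lt_csSup hne h2
      exact ⟨h1, hv.2.trans_le (hanti u h1.le v huv.le)⟩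
  have hpos : 0 < sSup S := by
    obtain ⟨u, hu⟩ := hne
    exact hu.1.trans_le (le_csSup hbdd hu)
  obtain ⟨x, hx1, hx2, hx3⟩ := exists_seq_strictMono_tendsto' hpos
  have hU : Ioo 0 (sSup S) = ⋃ n, Ioc 0 (x n) := by
    ext u
    simp only [mem_Ioo, mem_iUnion, mem_Ioc]
    constructor
    · rintro ⟨h1, h2⟩
      obtain ⟨n, hn⟩ := (hx3.eventually (lt_mem_nhds h2)).exists
      exact ⟨n, h1, hn.le⟩
    · rintro ⟨n, h1, h2⟩
      exact ⟨h1, h2.trans_lt (hx2 n).2⟩
  have hmono : Monotone fun n => Ioc 0 (x n) := fun i j hij =>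
    Ioc_subset_Ioc_right (hx1.monotone hij)
  rw [hSI, hU, hmono.measure_iUnion, hmono.measure_iUnion]
  exact iSup_mono fun n => hlow _ (hx2 n).1

/-- the layer cake formula on the half line -/
lemma layer (m : Measure ℝ) {f : ℝ → ℝ} (hc : Continuous f) (hnn : ∀ u, 0 ≤ f u) :
    ∫⁻ u in Ioi 0, ENNReal.ofReal (f u) ∂m = ∫⁻ t in Ioi 0, m {u | 0 < u ∧ t < f u} := by
  rw [lintegral_eq_lintegral_meas_lt _ (Eventually.of_forall hnn) hc.aemeasurable]
  congr 1
  funext t
  rw [Measure.restrict_apply (measurableSet_lt measurable_const hc.measurable)]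
  congr 1
  ext u
  simp only [mem_inter_iff, mem_ofPred_eq, mem_Ioi]
  tauto

/-- decreasing functions have larger integrals -/
lemma mono_lintegral (m l : Measure ℝ) {f : ℝ → ℝ} (hc : Continuous f) (hnn : ∀ u, 0 ≤ f u)
    (hanti : ∀ u, 0 ≤ u → ∀ v, u ≤ v → f v ≤ f u) (hlim : Tendsto f atTop (𝓝 0))
    (hlow : ∀ x, 0 < x → l (Ioc 0 x) ≤ m (Ioc 0 x)) :
    ∫⁻ u in Ioi 0, ENNReal.ofReal (f u) ∂l ≤ ∫⁻ u in Ioi 0, ENNReal.ofReal (f u) ∂m := by
  rw [layer m hc hnn, layer l hc hnn]
  exact setLIntegral_mono' measurableSet_Ioi fun t ht => level_le m l hc hanti hlim hlow ht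

lemma mono_integral (m l : Measure ℝ) {f : ℝ → ℝ} (hc : Continuous f) (hnn : ∀ u, 0 ≤ f u)
    (hanti : ∀ u, 0 ≤ u → ∀ v, u ≤ v → f v ≤ f u) (hlim : Tendsto f atTop (𝓝 0))
    (hlow : ∀ x, 0 < x → l (Ioc 0 x) ≤ m (Ioc 0 x)) (hm : Integrable f m) :
    ∫ u in Ioi 0, f u ∂l ≤ ∫ u in Ioi 0, f u ∂m := by
  rw [integral_eq_lintegral_of_nonneg_ae (Eventually.of_forall hnn)
      (by exact hc.aestronglyMeasurable),
    integral_eq_lintegral_of_nonneg_ae (Eventually.of_forall hnn)
      (by exact hc.aestronglyMeasurable)]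
  apply ENNReal.toReal_mono _ (mono_lintegral m l hc hnn hanti hlim hlow)
  have h := hm.restrict (s := Ioi 0)
  exact ((hasFiniteIntegral_iff_ofReal (Eventually.of_forall hnn)).1 h.2).ne

/-- equality of the integrals of a function that is strictly decreasing at the beginning forces the
equality of the distribution functions there -/
lemma mono_eq_near (m l : Measure ℝ) [IsLocallyFiniteMeasure m] [IsLocallyFiniteMeasure l]
    {f : ℝ → ℝ} (hc : Continuous f) (hnn : ∀ u, 0 ≤ f u)
    (hanti : ∀ u, 0 ≤ u → ∀ v, u ≤ v → f v ≤ f u) (hlim : Tendsto f atTop (𝓝 0))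
    (hlow : ∀ x, 0 < x → l (Ioc 0 x) ≤ m (Ioc 0 x)) (hm : Integrable f m)
    (heq : ∫ u in Ioi 0, f u ∂m ≤ ∫ u in Ioi 0, f u ∂l) {c : ℝ}
    (hstrict : ∀ u v : ℝ, 0 ≤ u → u < v → v ≤ c → f v < f u) {x : ℝ} (hx : 0 < x) (hxc : x < c) :
    m (Ioc 0 x) = l (Ioc 0 x) := by
  have hfin : ∫⁻ u in Ioi 0, ENNReal.ofReal (f u) ∂m ≠ ⊤ :=
    ((hasFiniteIntegral_iff_ofReal (Eventually.of_forall hnn)).1 (hm.restrict (s := Ioi 0)).2).ne
  have hle := mono_lintegral m l hc hnn hanti hlim hlow
  have hfin' : ∫⁻ u in Ioi 0, ENNReal.ofReal (f u) ∂l ≠ ⊤ := ne_top_of_le_ne_top hfin hle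
  rw [integral_eq_lintegral_of_nonneg_ae (Eventually.of_forall hnn)
      (by exact hc.aestronglyMeasurable),
    integral_eq_lintegral_of_nonneg_ae (Eventually.of_forall hnn)
      (by exact hc.aestronglyMeasurable)] at heq
  have heq2 := (ENNReal.toReal_le_toReal hfin hfin').1 heq
  rw [layer m hc hnn, layer l hc hnn] at heq2
  rw [layer l hc hnn] at hfin'
  have hmeas : Measurable fun t : ℝ => m {u | 0 < u ∧ t < f u} := by
    apply Antitone.measurable
    intro s t hst
    exact measure_mono fun u hu => ⟨hu.1, hst.trans_lt hu.2⟩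
  have hae := ae_eq_of_ae_le_of_lintegral_le
    (μ := volume.restrict (Ioi (0 : ℝ))) (f := fun t : ℝ => l {u | 0 < u ∧ t < f u})
    (g := fun t : ℝ => m {u | 0 < u ∧ t < f u})
    ((ae_restrict_iff' measurableSet_Ioi).2 (Eventually.of_forall fun t ht =>
      level_le m l hc hanti hlim hlow ht)) hfin' hmeas.aemeasurable heq2
  -- a good level between any two values
  have key : ∀ y, x < y → y ≤ c → m (Ioc 0 x) ≤ l (Ioc 0 y) := by
    intro y hxy hyc
    have hlt := hstrict x y hx.le hxy hyc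
    have h0y := hnn y
    have hpos : 0 < volume.restrict (Ioi (0 : ℝ)) (Ioo (f y) (f x)) := by
      rw [Measure.restrict_apply measurableSet_Ioo]
      have : Ioo (f y) (f x) ∩ Ioi 0 = Ioo (f y) (f x) := by
        apply inter_eq_left.2
        intro t ht
        exact h0y.trans_lt ht.1
      rw [this, Real.volume_Ioo]
      exact ENNReal.ofReal_pos.2 (by linarith)
    obtain ⟨t, ht1, ht2⟩ : ∃ t, t ∈ Ioo (f y) (f x) ∧
        l {u | 0 < u ∧ t < f u} = m {u | 0 < u ∧ t < f u} := by
      by_contra hcon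
      push Not at hcon
      have h0 : volume.restrict (Ioi (0 : ℝ)) (Ioo (f y) (f x)) = 0 := by
        apply measure_mono_null _ (ae_iff.1 hae)
        intro t ht
        exact hcon t ht
      exact hpos.ne' h0
    calc m (Ioc 0 x) ≤ m {u | 0 < u ∧ t < f u} := by
          apply measure_mono
          intro u hu
          exact ⟨hu.1, ht1.2.trans_le (hanti u hu.1.le x hu.2)⟩
      _ = l {u | 0 < u ∧ t < f u} := ht2.symm
      _ ≤ l (Ioc 0 y) := by
          apply measure_mono
          rintro u ⟨hu1, hu2⟩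
          refine ⟨hu1, ?_⟩
          by_contra h
          push Not at h
          have := hanti y (hx.trans hxy).le u h.le
          have := ht1.1
          linarith
  apply le_antisymm _ (hlow x hx)
  rw [← ENNReal.toReal_le_toReal measure_Ioc_lt_top.ne measure_Ioc_lt_top.ne]
  apply ge_of_tendsto (dist_right l 0 x)
  have h1 : Ioc x c ∈ 𝓝[>] x := Ioc_mem_nhdsGT hxc
  filter_upwards [h1] with y hy
  exact (ENNReal.toReal_le_toReal measure_Ioc_lt_top.ne measure_Ioc_lt_top.ne).2 (key y hy.1 hy.2)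

/-- **Monotone rigidity.** -/
theorem mono_eq (m l : Measure ℝ) [IsLocallyFiniteMeasure m] [IsLocallyFiniteMeasure l]
    (hm : ∀ δ r, TF δ r → Integrable (bl r) m) {δ : ℝ} (hδ : 0 < δ)
    (hex : ∀ r, TF δ r → ∫ u in Ioi 0, bl r u ∂m ≤ ∫ u in Ioi 0, bl r u ∂l)
    (hlow : ∀ x, 0 < x → l (Ioc 0 x) ≤ m (Ioc 0 x)) :
    m.restrict (Ioi 0) = l.restrict (Ioi 0) := by
  obtain ⟨r, hr, hanti, ⟨c, hc, hstrict⟩, h0, hlim, hnn⟩ := exists_dec
  have key : ∀ x, 0 < x → m (Ioc 0 x) = l (Ioc 0 x) := by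
    intro x hx
    set e : ℝ := min δ (c / (2 * x)) with he
    have he0 : 0 < e := by rw [he]; positivity
    have hex1 : e * x < c := by
      calc e * x ≤ c / (2 * x) * x := mul_le_mul_of_nonneg_right (min_le_right _ _) hx.le
        _ = c / 2 := by field_simp
        _ < c := by linarith
    have hr2 : TF δ (fun α => r (α / e)) := by
      have h1 := hr.scale he0
      rw [mul_one] at h1
      exact h1.mono (min_le_left _ _)
    have hb : ∀ u, bl (fun α => r (α / e)) u = e * bl r (e * u) := fun u => bl_scale r he0 u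
    have hcont := bl_cont hr2
    apply mono_eq_near m l (f := bl (fun α => r (α / e))) hcont (c := c / e) _ _ _ hlow
      (hm δ _ hr2) (hex _ hr2) _ hx
    · rw [lt_div_iff₀ he0]; linarith
    · intro u
      rw [hb]
      exact mul_nonneg he0.le (hnn _)
    · intro u hu v huv
      rw [hb, hb]
      exact mul_le_mul_of_nonneg_left (hanti _ (by positivity) _
        (mul_le_mul_of_nonneg_left huv he0.le)) he0.le
    · have h2 : Tendsto (fun u : ℝ => e * u) atTop atTop := tendsto_id.const_mul_atTop he0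
      have h3 := (hlim.comp h2).const_mul e
      rw [mul_zero] at h3
      exact h3.congr fun u => (hb u).symm
    · intro u v hu huv hv
      rw [hb, hb]
      apply mul_lt_mul_of_pos_left _ he0
      apply hstrict _ _ (by positivity) (mul_lt_mul_of_pos_left huv he0)
      rw [le_div_iff₀ he0] at hv
      linarith
  apply restrict_eq m l 0
  intro a b ha hab
  have h1 := dist_add m ha hab.le
  have h2 := dist_add l ha hab.le
  have h3 : (m (Ioc 0 b)).toReal = (l (Ioc 0 b)).toReal := by rw [key b (ha.trans_lt hab)]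
  have h4 : (m (Ioc 0 a)).toReal = (l (Ioc 0 a)).toReal := by
    rcases ha.lt_or_eq with h | h
    · rw [key a h]
    · rw [← h]; simp
  rw [← ENNReal.toReal_eq_toReal_iff' measure_Ioc_lt_top.ne measure_Ioc_lt_top.ne]
  linarith

end Pool.Agent.E8helper72.PC
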