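import Pool.Agent.E8helper72.PC.Far

/-! # Measures on a half line with the same integrals against bandlimited functions: near part -/

set_option autoImplicit false

namespace Pool.Agent.E8helper72.PC

open MeasureTheory Set Filter Topology

/-- a finite measure on `(0, A]` is determined by the even moments of positive order -/
theorem moments_eq (m l : Measure ℝ) [IsLocallyFiniteMeasure m] [IsLocallyFiniteMeasure l] (A : ℝ)
    (h : ∀ n : ℕ, 1 ≤ n → ∫ u in Ioc 0 A, u ^ (2 * n) ∂m = ∫ u in Ioc 0 A, u ^ (2 * n) ∂l) :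
    m.restrict (Ioc 0 A) = l.restrict (Ioc 0 A) := by
  have : IsFiniteMeasure (m.restrict (Ioc 0 A)) := ⟨by
    rw [Measure.restrict_apply_univ]; exact measure_Ioc_lt_top⟩
  have : IsFiniteMeasure (l.restrict (Ioc 0 A)) := ⟨by
    rw [Measure.restrict_apply_univ]; exact measure_Ioc_lt_top⟩
  -- integrability of bounded continuous functions
  have hint : ∀ (p : Measure ℝ) [IsFiniteMeasure (p.restrict (Ioc 0 A))] (f : ℝ → ℝ) (B : ℝ),
      Measurable f → (∀ u ∈ Ioc 0 A, |f u| ≤ B) → Integrable f (p.restrict (Ioc 0 A)) := by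
    intro p _ f B hf hB
    refine Integrable.mono' (integrable_const B) hf.aestronglyMeasurable ?_
    rw [ae_restrict_iff' measurableSet_Ioc]
    exact Eventually.of_forall hB
  -- polynomials in `u ^ 2`
  have hpol : ∀ p : Polynomial ℝ, ∫ u in Ioc 0 A, u ^ 2 * p.eval (u ^ 2) ∂m =
      ∫ u in Ioc 0 A, u ^ 2 * p.eval (u ^ 2) ∂l := by
    intro p
    have e : ∀ u : ℝ, u ^ 2 * p.eval (u ^ 2) =
        ∑ i ∈ Finset.range (p.natDegree + 1), p.coeff i * u ^ (2 * (i + 1)) := by
      intro u
      rw [Polynomial.eval_eq_sum_range, Finset.mul_sum]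
      refine Finset.sum_congr rfl fun i _ => ?_
      ring
    simp_rw [e]
    have hi : ∀ (q : Measure ℝ) [IsFiniteMeasure (q.restrict (Ioc 0 A))] (n : ℕ),
        Integrable (fun u : ℝ => u ^ n) (q.restrict (Ioc 0 A)) := by
      intro q _ n
      refine hint q _ (|A| ^ n) (by fun_prop) fun u hu => ?_
      rw [abs_pow]
      exact pow_le_pow_left₀ (abs_nonneg _) (by
        rw [abs_of_pos hu.1]; exact hu.2.trans (le_abs_self _)) _
    rw [integral_finsetSum _ fun i _ => (hi m _).const_mul _,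
      integral_finsetSum _ fun i _ => (hi l _).const_mul _]
    refine Finset.sum_congr rfl fun i _ => ?_
    rw [integral_const_mul, integral_const_mul, h (i + 1) (by omega)]
  -- continuous functions
  have hcont : ∀ φ : ℝ → ℝ, Continuous φ → ∫ u in Ioc 0 A, u ^ 2 * φ u ∂m =
      ∫ u in Ioc 0 A, u ^ 2 * φ u ∂l := by
    intro φ hφ
    rcases le_or_gt A 0 with hA | hA
    · rw [Ioc_eq_empty_of_le hA]; simp
    set M : ℝ := (m (Ioc 0 A)).toReal + (l (Ioc 0 A)).toReal with hM
    have hM0 : 0 ≤ M := by rw [hM]; positivity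
    obtain ⟨B, hB⟩ := (isCompact_Icc (a := (0 : ℝ)) (b := A)).exists_bound_of_continuousOn
      (f := φ) hφ.continuousOn
    have hd : ∀ ε : ℝ, 0 < ε → |∫ u in Ioc 0 A, u ^ 2 * φ u ∂m - ∫ u in Ioc 0 A, u ^ 2 * φ u ∂l| ≤
        ε * (A ^ 2 * M) := by
      intro ε hε
      obtain ⟨p, hp⟩ := exists_polynomial_near_of_continuousOn 0 (A ^ 2) (fun v => φ (Real.sqrt v))
        (hφ.comp Real.continuous_sqrt).continuousOn ε hε
      have hp' : ∀ u ∈ Ioc 0 A, |u ^ 2 * φ u - u ^ 2 * p.eval (u ^ 2)| ≤ A ^ 2 * ε := by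
        intro u hu
        have h1 := hp (u ^ 2) ⟨sq_nonneg _, pow_le_pow_left₀ hu.1.le hu.2 2⟩
        rw [Real.sqrt_sq hu.1.le] at h1
        rw [← mul_sub, abs_mul, abs_of_nonneg (sq_nonneg u)]
        have h2 : u ^ 2 ≤ A ^ 2 := pow_le_pow_left₀ hu.1.le hu.2 2
        rw [abs_sub_comm] at h1
        exact mul_le_mul h2 h1.le (abs_nonneg _) (by positivity)
      have hone : ∀ (q : Measure ℝ) [IsLocallyFiniteMeasure q]
          [IsFiniteMeasure (q.restrict (Ioc 0 A))],
          |∫ u in Ioc 0 A, u ^ 2 * φ u ∂q - ∫ u in Ioc 0 A, u ^ 2 * p.eval (u ^ 2) ∂q| ≤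
          A ^ 2 * ε * (q (Ioc 0 A)).toReal := by
        intro q _ _
        have i1 : Integrable (fun u => u ^ 2 * φ u) (q.restrict (Ioc 0 A)) := by
          refine hint q _ (A ^ 2 * B) (by fun_prop) fun u hu => ?_
          rw [abs_mul, abs_of_nonneg (sq_nonneg u)]
          exact mul_le_mul (pow_le_pow_left₀ hu.1.le hu.2 2) (hB u ⟨hu.1.le, hu.2⟩)
            (abs_nonneg _) (by positivity)
        have hpc : Continuous fun u : ℝ => u ^ 2 * p.eval (u ^ 2) := by
          have := p.continuous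
          fun_prop
        obtain ⟨B2, hB2⟩ := (isCompact_Icc (a := (0 : ℝ)) (b := A)).exists_bound_of_continuousOn
          (f := fun u : ℝ => u ^ 2 * p.eval (u ^ 2)) hpc.continuousOn
        have i2 : Integrable (fun u => u ^ 2 * p.eval (u ^ 2)) (q.restrict (Ioc 0 A)) :=
          hint q _ B2 hpc.measurable fun u hu => hB2 u ⟨hu.1.le, hu.2⟩
        rw [← integral_sub i1 i2]
        have := norm_setIntegral_le_of_norm_le_const (μ := q) (s := Ioc 0 A)
          (f := fun u => u ^ 2 * φ u - u ^ 2 * p.eval (u ^ 2)) (C := A ^ 2 * ε)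
          measure_Ioc_lt_top hp'
        rwa [measureReal_def, Real.norm_eq_abs] at this
      have h1 := hone m
      have h2 := hone l
      rw [hpol p] at h1
      rw [abs_sub_comm] at h2
      have h3 := abs_sub_le (∫ u in Ioc 0 A, u ^ 2 * φ u ∂m)
        (∫ u in Ioc 0 A, u ^ 2 * p.eval (u ^ 2) ∂l) (∫ u in Ioc 0 A, u ^ 2 * φ u ∂l)
      calc _ ≤ _ := h3
        _ ≤ A ^ 2 * ε * (m (Ioc 0 A)).toReal + A ^ 2 * ε * (l (Ioc 0 A)).toReal := add_le_add h1 h2
        _ = _ := by rw [hM]; ring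
    by_contra hne
    have hpos : 0 < |∫ u in Ioc 0 A, u ^ 2 * φ u ∂m - ∫ u in Ioc 0 A, u ^ 2 * φ u ∂l| :=
      abs_pos.2 (sub_ne_zero.2 hne)
    set D := |∫ u in Ioc 0 A, u ^ 2 * φ u ∂m - ∫ u in Ioc 0 A, u ^ 2 * φ u ∂l| with hD
    have hK : 0 < A ^ 2 * M + 1 := by positivity
    have h4 := hd (D / (2 * (A ^ 2 * M + 1))) (by positivity)
    have h5 : D / (2 * (A ^ 2 * M + 1)) * (A ^ 2 * M) ≤ D / 2 := by
      rw [div_mul_eq_mul_div, div_le_div_iff₀ (by positivity) (by norm_num)]
      nlinarith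
    linarith
  -- the weighted measures agree
  have hw : ∀ (q : Measure ℝ) [IsLocallyFiniteMeasure q],
      IsFiniteMeasure ((q.restrict (Ioc 0 A)).withDensity fun u => ENNReal.ofReal (u ^ 2)) := by
    intro q _
    apply isFiniteMeasure_withDensity
    apply ne_of_lt
    calc ∫⁻ u in Ioc 0 A, ENNReal.ofReal (u ^ 2) ∂q ≤ ∫⁻ u in Ioc 0 A, ENNReal.ofReal (A ^ 2) ∂q := by
          apply setLIntegral_mono' measurableSet_Ioc
          intro u hu
          exact ENNReal.ofReal_le_ofReal (pow_le_pow_left₀ hu.1.le hu.2 2)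
      _ = ENNReal.ofReal (A ^ 2) * q (Ioc 0 A) := by rw [setLIntegral_const]
      _ < ⊤ := ENNReal.mul_lt_top ENNReal.ofReal_lt_top measure_Ioc_lt_top
  have := hw m
  have := hw l
  have hmeas : Measurable fun u : ℝ => ENNReal.ofReal (u ^ 2) := by fun_prop
  have heq : (m.restrict (Ioc 0 A)).withDensity (fun u => ENNReal.ofReal (u ^ 2)) =
      (l.restrict (Ioc 0 A)).withDensity (fun u => ENNReal.ofReal (u ^ 2)) := by
    apply ext_of_forall_integral_eq_of_IsFiniteMeasure
    intro f
    rw [integral_withDensity_eq_integral_toReal_smul hmeas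
      (Eventually.of_forall fun _ => ENNReal.ofReal_lt_top),
      integral_withDensity_eq_integral_toReal_smul hmeas
      (Eventually.of_forall fun _ => ENNReal.ofReal_lt_top)]
    have e : ∀ u : ℝ, (ENNReal.ofReal (u ^ 2)).toReal • f u = u ^ 2 * f u := by
      intro u
      rw [ENNReal.toReal_ofReal (sq_nonneg _), smul_eq_mul]
    simp_rw [e]
    exact hcont f f.continuous
  have hinv : ∀ (q : Measure ℝ), ((q.restrict (Ioc 0 A)).withDensity
      (fun u => ENNReal.ofReal (u ^ 2))).withDensity (fun u => (ENNReal.ofReal (u ^ 2))⁻¹) =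
      q.restrict (Ioc 0 A) := by
    intro q
    apply withDensity_inv_same hmeas
    · rw [ae_restrict_iff' measurableSet_Ioc]
      refine Eventually.of_forall fun u hu => ?_
      have : 0 < u ^ 2 := by have := hu.1; positivity
      simpa using this.ne'
    · exact Eventually.of_forall fun _ => ENNReal.ofReal_ne_top
  rw [← hinv m, heq, hinv l]

/-- **The near part.** -/
theorem near_eq (m l : Measure ℝ) [IsLocallyFiniteMeasure m] [IsLocallyFiniteMeasure l]
    (hm : ∀ δ r, TF δ r → Integrable (bl r) m) (hl : ∀ δ r, TF δ r → Integrable (bl r) l)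
    {δ A : ℝ} (hδ : 0 < δ) (hA : 0 ≤ A)
    (hex : ∀ r, TF δ r → bl r 0 = 0 → ∫ u in Ioi 0, bl r u ∂m = ∫ u in Ioi 0, bl r u ∂l)
    (hfar : m.restrict (Ioi A) = l.restrict (Ioi A)) :
    m.restrict (Ioi 0) = l.restrict (Ioi 0) := by
  obtain ⟨χ, hχ, hev, hnn, h1⟩ := exists_kernel
  obtain ⟨H0, hH0, hH⟩ := hχ.decay 0
  simp only [pow_zero, mul_one] at hH
  have hmom : ∀ n : ℕ, 1 ≤ n → ∫ u in Ioc 0 A, u ^ (2 * n) ∂m = ∫ u in Ioc 0 A, u ^ (2 * n) ∂l := by
    intro n hn
    -- dilated identities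
    have hk : ∀ k : ℕ, ∫ u in Ioc 0 A, u ^ (2 * n) * bl χ (δ / (k + 1) * u) ∂m =
        ∫ u in Ioc 0 A, u ^ (2 * n) * bl χ (δ / (k + 1) * u) ∂l := by
      intro k
      have hk1 : (0 : ℝ) < (k : ℝ) + 1 := by positivity
      obtain ⟨r, hr, hu⟩ := exists_power hχ n (show 0 < δ / ((k : ℝ) + 1) by positivity)
      have hr' : TF δ r := hr.mono (by
        apply div_le_self hδ.le
        have : (0 : ℝ) ≤ k := Nat.cast_nonneg k
        linarith)
      have h00 : bl r 0 = 0 := by
        rw [hu, zero_pow (by omega), zero_mul]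
      have hI := hex r hr' h00
      have hsplit : ∀ (p : Measure ℝ), Integrable (bl r) p → ∫ u in Ioi 0, bl r u ∂p =
          ∫ u in Ioc 0 A, bl r u ∂p + ∫ u in Ioi A, bl r u ∂p := by
        intro p hp
        rw [← Ioc_union_Ioi_eq_Ioi hA]
        exact setIntegral_union (Set.disjoint_left.2 fun x hx hx' => not_lt.2 hx.2 hx')
          measurableSet_Ioi hp.integrableOn hp.integrableOn
      rw [hsplit m (hm δ r hr'), hsplit l (hl δ r hr'), hfar] at hI
      have h2 : ∫ u in Ioc 0 A, bl r u ∂m = ∫ u in Ioc 0 A, bl r u ∂l := by linarith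
      simp_rw [hu] at h2
      exact h2
    -- the limit
    have hlim : ∀ (p : Measure ℝ) [IsLocallyFiniteMeasure p],
        Tendsto (fun k : ℕ => ∫ u in Ioc 0 A, u ^ (2 * n) * bl χ (δ / (k + 1) * u) ∂p) atTop
        (𝓝 (∫ u in Ioc 0 A, u ^ (2 * n) ∂p)) := by
      intro p _
      have : IsFiniteMeasure (p.restrict (Ioc 0 A)) := ⟨by
        rw [Measure.restrict_apply_univ]; exact measure_Ioc_lt_top⟩
      have hc := bl_cont hχ
      apply tendsto_integral_of_dominated_convergence (fun _ => |A| ^ (2 * n) * H0)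
      · intro k
        exact (by fun_prop : Continuous fun u : ℝ =>
          u ^ (2 * n) * bl χ (δ / ((k : ℝ) + 1) * u)).aestronglyMeasurable
      · exact integrable_const _
      · intro k
        rw [ae_restrict_iff' measurableSet_Ioc]
        refine Eventually.of_forall fun u hu => ?_
        rw [norm_mul, norm_pow, Real.norm_eq_abs, Real.norm_eq_abs]
        exact mul_le_mul (pow_le_pow_left₀ (abs_nonneg _) (by
          rw [abs_of_pos hu.1]; exact hu.2.trans (le_abs_self _)) _) (hH _) (abs_nonneg _)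
          (by positivity)
      · refine Eventually.of_forall fun u => ?_
        have h2 : Tendsto (fun k : ℕ => δ / ((k : ℝ) + 1) * u) atTop (𝓝 (0 * u)) := by
          apply Tendsto.mul_const
          exact tendsto_const_div_atTop_nhds_zero_nat δ |>.comp (tendsto_add_atTop_nat 1) |>.congr
            fun k => by simp
        rw [zero_mul] at h2
        have h3 := (hc.tendsto 0).comp h2
        rw [h1] at h3
        have h4 := h3.const_mul (u ^ (2 * n))
        rw [mul_one] at h4
        exact h4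
    have h2 := hlim m
    have h3 := hlim l
    simp_rw [hk] at h2
    exact tendsto_nhds_unique h2 h3
  have hnear := moments_eq m l A hmom
  have hsplit : ∀ p : Measure ℝ, p.restrict (Ioi 0) = p.restrict (Ioc 0 A) + p.restrict (Ioi A) := by
    intro p
    rw [← Ioc_union_Ioi_eq_Ioi hA]
    exact Measure.restrict_union (Set.disjoint_left.2 fun x hx hx' => not_lt.2 hx.2 hx')
      measurableSet_Ioi
  rw [hsplit m, hsplit l, hnear, hfar]

end Pool.Agent.E8helper72.PC
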