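import Mathlib

/-! # Pairs at a given distance and the second moment of the local counts -/

set_option autoImplicit false

namespace Pool.Agent.E8helper72.PC

open MeasureTheory Set Filter Topology

/-- the weight of the points in a short interval around `t` -/
noncomputable def lc (S : Finset ℂ) (m : ℂ → ℝ) (h t : ℝ) : ℝ :=
  ∑ s ∈ S with |s.im - t| ≤ h, m s

lemma lc_eq (S : Finset ℂ) (m : ℂ → ℝ) (h t : ℝ) :
    lc S m h t = ∑ s ∈ S, m s * (Icc (s.im - h) (s.im + h)).indicator (fun _ => (1 : ℝ)) t := by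
  unfold lc
  rw [Finset.sum_filter]
  apply Finset.sum_congr rfl
  intro s _
  by_cases hs : |s.im - t| ≤ h
  · have h1 := abs_le.1 hs
    rw [if_pos hs, indicator_of_mem (show t ∈ Icc (s.im - h) (s.im + h) from
      ⟨by linarith, by linarith⟩), mul_one]
  · rw [if_neg hs, indicator_of_notMem, mul_zero]
    rintro ⟨h1, h2⟩
    exact hs (abs_le.2 ⟨by linarith, by linarith⟩)

lemma lc_nonneg {S : Finset ℂ} {m : ℂ → ℝ} (hm : ∀ s, 0 ≤ m s) (h t : ℝ) : 0 ≤ lc S m h t :=
  Finset.sum_nonneg fun s _ => hm s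

lemma ind_mul (x y h a t : ℝ) :
    (Icc (x - h) (x + h)).indicator (fun _ => (1 : ℝ)) t *
      (Icc (y - h) (y + h)).indicator (fun _ => (1 : ℝ)) (t - a) =
    (Icc (max x (y + a) - h) (min x (y + a) + h)).indicator (fun _ => (1 : ℝ)) t := by
  by_cases h1 : t ∈ Icc (x - h) (x + h)
  · by_cases h2 : t - a ∈ Icc (y - h) (y + h)
    · rw [indicator_of_mem h1, indicator_of_mem h2, indicator_of_mem, mul_one]
      refine ⟨?_, ?_⟩
      · rcases max_choice x (y + a) with h3 | h3 <;> rw [h3]
        · exact h1.1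
        · have := h2.1
          linarith
      · rcases min_choice x (y + a) with h3 | h3 <;> rw [h3]
        · exact h1.2
        · have := h2.2
          linarith
    · rw [indicator_of_notMem h2, mul_zero, indicator_of_notMem]
      rintro ⟨h3, h4⟩
      apply h2
      have h5 := le_max_right x (y + a)
      have h6 := min_le_right x (y + a)
      exact ⟨by linarith, by linarith⟩
  · rw [indicator_of_notMem h1, zero_mul, indicator_of_notMem]
    rintro ⟨h3, h4⟩
    apply h1
    have h5 := le_max_left x (y + a)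
    have h6 := min_le_left x (y + a)
    exact ⟨by linarith, by linarith⟩

lemma ind_int (a b : ℝ) : Integrable ((Icc a b).indicator (fun _ => (1 : ℝ))) :=
  (integrable_indicator_iff measurableSet_Icc).2 (integrableOn_const measure_Icc_lt_top.ne)

lemma lc_mul (S : Finset ℂ) (m : ℂ → ℝ) (h a t : ℝ) :
    lc S m h t * lc S m h (t - a) = ∑ s ∈ S, ∑ s' ∈ S, (m s * m s') *
      (Icc (max s.im (s'.im + a) - h) (min s.im (s'.im + a) + h)).indicator (fun _ => (1 : ℝ)) t := by
  rw [lc_eq, lc_eq, Finset.sum_mul_sum]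
  apply Finset.sum_congr rfl
  intro s _
  apply Finset.sum_congr rfl
  intro s' _
  rw [← ind_mul]
  ring

lemma lc_mul_int (S : Finset ℂ) (m : ℂ → ℝ) (h a : ℝ) :
    Integrable fun t => lc S m h t * lc S m h (t - a) := by
  simp_rw [lc_mul]
  exact integrable_finsetSum _ fun s _ => integrable_finsetSum _ fun s' _ =>
    (ind_int _ _).const_mul _

lemma lc_sq_int (S : Finset ℂ) (m : ℂ → ℝ) (h : ℝ) : Integrable fun t => lc S m h t ^ 2 := by
  have := lc_mul_int S m h 0
  simp only [sub_zero] at this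
  exact this.congr (Eventually.of_forall fun t => by simp only [sq])

/-- the pairs at a given distance -/
theorem pairs_le (S : Finset ℂ) (m : ℂ → ℝ) (hm : ∀ s, 0 ≤ m s) {h : ℝ} (hh : 0 < h) (a : ℝ) :
    h * ∑ s ∈ S, ∑ s' ∈ S, (if |s.im - s'.im - a| ≤ h then m s * m s' else 0) ≤
      ∫ t, lc S m h t ^ 2 := by
  have h1 : h * ∑ s ∈ S, ∑ s' ∈ S, (if |s.im - s'.im - a| ≤ h then m s * m s' else 0) ≤
      ∫ t, lc S m h t * lc S m h (t - a) := by
    simp_rw [lc_mul]
    rw [integral_finsetSum _ fun s _ => integrable_finsetSum _ fun s' _ =>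
      (ind_int _ _).const_mul _, Finset.mul_sum]
    apply Finset.sum_le_sum
    intro s _
    rw [integral_finsetSum _ fun s' _ => (ind_int _ _).const_mul _, Finset.mul_sum]
    apply Finset.sum_le_sum
    intro s' _
    rw [integral_const_mul]
    have h0 : 0 ≤ m s * m s' := mul_nonneg (hm _) (hm _)
    split_ifs with hc
    · rw [mul_comm]
      apply mul_le_mul_of_nonneg_left _ h0
      rw [integral_indicator measurableSet_Icc, setIntegral_const, smul_eq_mul, mul_one,
        Real.volume_real_Icc]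
      refine le_trans ?_ (le_max_left _ _)
      have h2 := abs_le.1 hc
      rcases max_choice s.im (s'.im + a) with h3 | h3 <;>
        rcases min_choice s.im (s'.im + a) with h4 | h4 <;> rw [h3, h4] <;> linarith
    · rw [mul_zero]
      exact mul_nonneg h0 (integral_nonneg fun t => indicator_nonneg (fun _ _ => zero_le_one) _)
  refine h1.trans ?_
  have h2 : ∫ t, lc S m h (t - a) ^ 2 = ∫ t, lc S m h t ^ 2 :=
    integral_sub_right_eq_self (fun t => lc S m h t ^ 2) a
  have hi2 : Integrable fun t => lc S m h (t - a) ^ 2 := (lc_sq_int S m h).comp_sub_right a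
  calc ∫ t, lc S m h t * lc S m h (t - a) ≤
      ∫ t, (1 / 2 * lc S m h t ^ 2 + 1 / 2 * lc S m h (t - a) ^ 2) := by
        apply integral_mono (lc_mul_int S m h a)
          (((lc_sq_int S m h).const_mul _).add (hi2.const_mul _))
        intro t
        have := sq_nonneg (lc S m h t - lc S m h (t - a))
        show lc S m h t * lc S m h (t - a) ≤
          1 / 2 * lc S m h t ^ 2 + 1 / 2 * lc S m h (t - a) ^ 2
        nlinarith
    _ = ∫ t, lc S m h t ^ 2 := by
        rw [integral_add ((lc_sq_int S m h).const_mul _) (hi2.const_mul _), integral_const_mul,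
          integral_const_mul, h2]
        ring

/-- the pairs whose normalised distance has a given integral part -/
theorem window_pairs (S : Finset ℂ) (m : ℂ → ℝ) (hm : ∀ s, 0 ≤ m s) {L : ℝ} (hL : 0 < L) {M : ℝ}
    (hM : ∫ t, lc S m (1 / L) t ^ 2 ≤ M) (n : ℕ) :
    ∑ s ∈ S, ∑ s' ∈ S, (if (n : ℝ) ≤ |s.im - s'.im| * L / (2 * Real.pi) ∧
      |s.im - s'.im| * L / (2 * Real.pi) < n + 1 then m s * m s' else 0) ≤ 8 * M * L := by
  have hpi := Real.pi_pos
  have hpi4 := Real.pi_lt_four
  have hL1 : 0 < 1 / L := by positivity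
  set c : ℕ → ℝ := fun j => (2 * Real.pi * n + 1 + 2 * j) / L with hc
  have hone : ∀ a : ℝ, ∑ s ∈ S, ∑ s' ∈ S, (if |s.im - s'.im - a| ≤ 1 / L then m s * m s' else 0) ≤
      M * L := by
    intro a
    have h1 := (pairs_le S m hm hL1 a).trans hM
    have h2 : ∑ s ∈ S, ∑ s' ∈ S, (if |s.im - s'.im - a| ≤ 1 / L then m s * m s' else 0) =
        L * (1 / L * ∑ s ∈ S, ∑ s' ∈ S, (if |s.im - s'.im - a| ≤ 1 / L then m s * m s' else 0)) := by
      rw [← mul_assoc, mul_one_div_cancel hL.ne', one_mul]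
    rw [h2, mul_comm M]
    exact mul_le_mul_of_nonneg_left h1 hL.le
  have hcover : ∀ d : ℝ, (n : ℝ) ≤ |d| * L / (2 * Real.pi) → |d| * L / (2 * Real.pi) < n + 1 →
      ∃ j ∈ Finset.range 4, |d - c j| ≤ 1 / L ∨ |d - -c j| ≤ 1 / L := by
    intro d h1 h2
    rw [le_div_iff₀ (by positivity)] at h1
    rw [div_lt_iff₀ (by positivity)] at h2
    set y : ℝ := (|d| * L - 2 * Real.pi * n) / 2 with hy
    have hy0 : 0 ≤ y := by rw [hy]; linarith
    have hy4 : y < 4 := by rw [hy]; linarith
    refine ⟨⌊y⌋₊, ?_, ?_⟩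
    · rw [Finset.mem_range]
      exact (Nat.floor_lt hy0).2 (by exact_mod_cast hy4)
    · have h3 := Nat.floor_le hy0
      have h4 := Nat.lt_floor_add_one y
      have h5 : |(|d| - c ⌊y⌋₊)| ≤ 1 / L := by
        have h6 : |d| - c ⌊y⌋₊ = (|d| * L - (2 * Real.pi * n + 1 + 2 * ⌊y⌋₊)) / L := by
          rw [hc]; field_simp
        rw [h6, abs_div, abs_of_pos hL]
        apply div_le_div_of_nonneg_right _ hL.le
        rw [abs_le]
        constructor
        · rw [hy] at h3; linarith
        · rw [hy] at h4; linarith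
      rcases abs_cases d with ⟨h6, -⟩ | ⟨h6, -⟩
      · left; rwa [h6] at h5
      · right
        rw [h6] at h5
        rw [← abs_neg]
        have : -(d - -c ⌊y⌋₊) = -d - c ⌊y⌋₊ := by ring
        rwa [this]
  calc ∑ s ∈ S, ∑ s' ∈ S, (if (n : ℝ) ≤ |s.im - s'.im| * L / (2 * Real.pi) ∧
      |s.im - s'.im| * L / (2 * Real.pi) < n + 1 then m s * m s' else 0) ≤
      ∑ s ∈ S, ∑ s' ∈ S, ∑ j ∈ Finset.range 4,
        ((if |s.im - s'.im - c j| ≤ 1 / L then m s * m s' else 0) +
          (if |s.im - s'.im - -c j| ≤ 1 / L then m s * m s' else 0)) := by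
        apply Finset.sum_le_sum
        intro s _
        apply Finset.sum_le_sum
        intro s' _
        have h0 : 0 ≤ m s * m s' := mul_nonneg (hm _) (hm _)
        have hnn : ∀ j ∈ Finset.range 4, 0 ≤
            ((if |s.im - s'.im - c j| ≤ 1 / L then m s * m s' else 0) +
            (if |s.im - s'.im - -c j| ≤ 1 / L then m s * m s' else 0)) := by
          intro j _
          apply add_nonneg <;> split_ifs <;> first | exact h0 | exact le_rfl
        split_ifs with hd
        · obtain ⟨j, hj, h1⟩ := hcover _ hd.1 hd.2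
          refine le_trans ?_ (Finset.single_le_sum hnn hj)
          rcases h1 with h1 | h1
          · rw [if_pos h1]
            have : (0 : ℝ) ≤ (if |s.im - s'.im - -c j| ≤ 1 / L then m s * m s' else 0) := by
              split_ifs <;> first | exact h0 | exact le_rfl
            linarith
          · rw [if_pos h1]
            have : (0 : ℝ) ≤ (if |s.im - s'.im - c j| ≤ 1 / L then m s * m s' else 0) := by
              split_ifs <;> first | exact h0 | exact le_rfl
            linarith
        · exact Finset.sum_nonneg hnn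
    _ = ∑ j ∈ Finset.range 4, (∑ s ∈ S, ∑ s' ∈ S,
        (if |s.im - s'.im - c j| ≤ 1 / L then m s * m s' else 0) +
        ∑ s ∈ S, ∑ s' ∈ S, (if |s.im - s'.im - -c j| ≤ 1 / L then m s * m s' else 0)) := by
        simp_rw [← Finset.sum_add_distrib]
        rw [Finset.sum_comm (s := Finset.range 4) (t := S)]
        apply Finset.sum_congr rfl
        intro s _
        exact Finset.sum_comm
    _ ≤ ∑ j ∈ Finset.range 4, (M * L + M * L) :=
        Finset.sum_le_sum fun j _ => add_le_add (hone _) (hone _)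
    _ = 8 * M * L := by
        rw [Finset.sum_const, Finset.card_range, nsmul_eq_mul]
        push_cast
        ring

/-- from unit windows to tails -/
theorem tail_le {κ : Type*} (S : Finset κ) (w x : κ → ℝ) (hw : ∀ p ∈ S, 0 ≤ w p)
    (hx : ∀ p ∈ S, 0 ≤ x p) {B : ℝ}
    (h : ∀ n : ℕ, ∑ p ∈ S with ((n : ℝ) ≤ x p ∧ x p < n + 1), w p ≤ B) (n : ℕ) :
    ∑ p ∈ S with (n : ℝ) ≤ x p, w p / (1 + x p ^ 2) ≤ 4 * B / (n + 1) := by
  classical
  have hB : 0 ≤ B := by
    refine le_trans (Finset.sum_nonneg fun p hp => ?_) (h 0)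
    exact hw p (Finset.mem_filter.1 hp).1
  obtain ⟨K, hK⟩ : ∃ K : ℕ, ∀ p ∈ S, ⌊x p⌋₊ < n + K := by
    refine ⟨S.sup (fun p => ⌊x p⌋₊) + 1, fun p hp => ?_⟩
    have h5 : ⌊x p⌋₊ ≤ S.sup (fun p => ⌊x p⌋₊) := Finset.le_sup (f := fun p => ⌊x p⌋₊) hp
    omega
  rw [← Finset.sum_fiberwise_of_maps_to (s := S.filter fun p => (n : ℝ) ≤ x p)
    (t := Finset.Ico n (n + K)) (g := fun p => ⌊x p⌋₊) (fun p hp => by
      rw [Finset.mem_filter] at hp
      rw [Finset.mem_Ico]
      exact ⟨Nat.le_floor hp.2, hK p hp.1⟩)]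
  have h1 : ∀ k ∈ Finset.Ico n (n + K), ∑ p ∈ S.filter (fun p => (n : ℝ) ≤ x p) with ⌊x p⌋₊ = k,
      w p / (1 + x p ^ 2) ≤ 4 * B * (1 / ((k : ℝ) + 1) - 1 / ((k : ℝ) + 2)) := by
    intro k _
    have hk : (0 : ℝ) ≤ k := Nat.cast_nonneg k
    calc ∑ p ∈ S.filter (fun p => (n : ℝ) ≤ x p) with ⌊x p⌋₊ = k, w p / (1 + x p ^ 2) ≤
        ∑ p ∈ S.filter (fun p => (n : ℝ) ≤ x p) with ⌊x p⌋₊ = k, w p / (1 + (k : ℝ) ^ 2) := by
          apply Finset.sum_le_sum
          intro p hp
          rw [Finset.mem_filter, Finset.mem_filter] at hp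
          have h2 : (k : ℝ) ≤ x p := by
            rw [← hp.2]
            exact Nat.floor_le (hx p hp.1.1)
          apply div_le_div_of_nonneg_left (hw p hp.1.1) (by positivity)
          have := pow_le_pow_left₀ hk h2 2
          linarith
      _ ≤ ∑ p ∈ S with ((k : ℝ) ≤ x p ∧ x p < k + 1), w p / (1 + (k : ℝ) ^ 2) := by
          apply Finset.sum_le_sum_of_subset_of_nonneg
          · intro p hp
            rw [Finset.mem_filter, Finset.mem_filter] at hp
            rw [Finset.mem_filter]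
            refine ⟨hp.1.1, ?_, ?_⟩
            · rw [← hp.2]
              exact Nat.floor_le (hx p hp.1.1)
            · rw [← hp.2]
              exact Nat.lt_floor_add_one _
          · intro p hp _
            exact div_nonneg (hw p (Finset.mem_filter.1 hp).1) (by positivity)
      _ = (∑ p ∈ S with ((k : ℝ) ≤ x p ∧ x p < k + 1), w p) / (1 + (k : ℝ) ^ 2) := by
          rw [Finset.sum_div]
      _ ≤ B / (1 + (k : ℝ) ^ 2) := div_le_div_of_nonneg_right (h k) (by positivity)
      _ ≤ 4 * B * (1 / ((k : ℝ) + 1) - 1 / ((k : ℝ) + 2)) := by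
          have h3 : 1 / ((k : ℝ) + 1) - 1 / ((k : ℝ) + 2) = 1 / (((k : ℝ) + 1) * ((k : ℝ) + 2)) := by
            field_simp
            ring
          rw [h3, mul_one_div, div_le_div_iff₀ (by positivity) (by positivity)]
          have h4 : ((k : ℝ) + 1) * ((k : ℝ) + 2) ≤ 4 * (1 + (k : ℝ) ^ 2) := by
            nlinarith [sq_nonneg ((k : ℝ) - 1)]
          nlinarith
  refine (Finset.sum_le_sum h1).trans ?_
  have h2 : ∀ K : ℕ, ∑ k ∈ Finset.Ico n (n + K), 4 * B * (1 / ((k : ℝ) + 1) - 1 / ((k : ℝ) + 2)) =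
      4 * B * (1 / ((n : ℝ) + 1) - 1 / ((n : ℝ) + K + 1)) := by
    intro K
    induction K with
    | zero => simp
    | succ K ih =>
      rw [← add_assoc, Finset.sum_Ico_succ_top (by omega), ih]
      push_cast
      ring
  rw [h2]
  have h3 : (0 : ℝ) ≤ 1 / ((n : ℝ) + K + 1) := by positivity
  have h4 : 4 * B / ((n : ℝ) + 1) = 4 * B * (1 / ((n : ℝ) + 1)) := by ring
  rw [h4]
  apply mul_le_mul_of_nonneg_left _ (by positivity)
  linarith

end Pool.Agent.E8helper72.PC
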