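import Mathlib

/-! # Halving recursions -/

set_option autoImplicit false

namespace Pool.Agent.E8helper72.PC

open Filter Topology

lemma ev_div {P : ℝ → Prop} (h : ∀ᶠ T : ℝ in atTop, P T) (c : ℝ) (hc : 0 < c) :
    ∀ᶠ T : ℝ in atTop, P (T / c) :=
  (tendsto_id.atTop_div_const hc).eventually h

/-- an error that is at most the mean of the error at half the height and of a local error -/
theorem recur (e eb : ℝ → ℝ) (B : ℝ) (hB : ∀ᶠ T : ℝ in atTop, e T ≤ B)
    (hstep : ∀ ε : ℝ, 0 < ε → ∀ᶠ T : ℝ in atTop, e T ≤ (e (T / 2) + eb (T / 2)) / 2 + ε) :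
    ∀ ε : ℝ, 0 < ε → ∃ K : ℕ, ∀ᶠ T : ℝ in atTop, ∀ η : ℝ, 0 ≤ η →
      (∀ k : ℕ, 1 ≤ k → k ≤ K → eb (T / 2 ^ k) ≤ η) → e T ≤ η + ε := by
  have key : ∀ K : ℕ, ∀ ε : ℝ, 0 < ε → ∀ᶠ T : ℝ in atTop, ∀ η : ℝ, 0 ≤ η →
      (∀ k : ℕ, 1 ≤ k → k ≤ K → eb (T / 2 ^ k) ≤ η) → e T ≤ |B| / 2 ^ K + η + ε := by
    intro K
    induction K with
    | zero =>
      intro ε hε
      filter_upwards [hB] with T hT η hη _
      have := le_abs_self B
      rw [pow_zero, div_one]
      linarith
    | succ K ih =>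
      intro ε hε
      filter_upwards [ev_div (ih (ε / 2) (by linarith)) 2 (by norm_num),
        hstep (ε / 2) (by linarith)] with T h1 h2 η hη hk
      have h3 := h1 η hη (fun k hk1 hk2 => by
        have := hk (k + 1) (by omega) (by omega)
        have e1 : T / 2 / 2 ^ k = T / 2 ^ (k + 1) := by
          rw [pow_succ]
          field_simp
        rw [e1]
        exact this)
      have h4 := hk 1 le_rfl (by omega)
      rw [pow_one] at h4
      have h5 : |B| / 2 ^ (K + 1) = |B| / 2 ^ K / 2 := by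
        rw [pow_succ]
        field_simp
      rw [h5]
      linarith
  intro ε hε
  obtain ⟨K, hK⟩ := pow_unbounded_of_one_lt (|B| / (ε / 2)) (one_lt_two)
  refine ⟨K, ?_⟩
  filter_upwards [key K (ε / 2) (by linarith)] with T hT η hη hk
  have h1 := hT η hη hk
  have h2 : |B| / 2 ^ K ≤ ε / 2 := by
    rw [div_lt_iff₀ (by linarith)] at hK
    rw [div_le_iff₀ (by positivity)]
    linarith
  linarith

end Pool.Agent.E8helper72.PC
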