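import Mathlib

/-! # Test functions: cosine transforms of smooth functions with compact support -/

set_option autoImplicit false

namespace Pool.Agent.E8helper72.PC

open MeasureTheory Set Filter Topology

/-- the function with Fourier transform `r` (for even `r`) -/
noncomputable def bl (r : ℝ → ℝ) (u : ℝ) : ℝ := ∫ α : ℝ, r α * Real.cos (2 * Real.pi * α * u)

/-- smooth functions supported in `[-δ, δ]` -/
structure TF (δ : ℝ) (r : ℝ → ℝ) : Prop where
  cd : ContDiff ℝ (⊤ : ℕ∞) r
  supp : ∀ α, δ < |α| → r α = 0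

variable {δ : ℝ} {r : ℝ → ℝ}

lemma TF.cont (h : TF δ r) : Continuous r := h.cd.continuous

lemma TF.hcs (h : TF δ r) : HasCompactSupport r := by
  apply HasCompactSupport.intro (isCompact_Icc (a := -δ) (b := δ))
  intro x hx
  apply h.supp
  by_contra hcon
  push Not at hcon
  exact hx (abs_le.1 hcon)

lemma TF.mono {δ' : ℝ} (h : TF δ r) (hd : δ ≤ δ') : TF δ' r :=
  ⟨h.cd, fun α hα => h.supp α (hd.trans_lt hα)⟩

lemma TF.integrable (h : TF δ r) : Integrable r := h.cont.integrable_of_hasCompactSupport h.hcs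

lemma TF.int_mul (h : TF δ r) {g : ℝ → ℝ} (hg : Continuous g) : Integrable fun α => r α * g α :=
  (h.cont.mul hg).integrable_of_hasCompactSupport h.hcs.mul_right

lemma TF.deriv (h : TF δ r) : TF δ (deriv r) := by
  refine ⟨(contDiff_infty_iff_deriv.1 h.cd).2, fun α hα => ?_⟩
  have he : r =ᶠ[𝓝 α] fun _ => 0 := by
    have : ∀ᶠ x in 𝓝 α, δ < |x| := (continuous_abs.continuousAt).eventually (lt_mem_nhds hα)
    exact this.mono fun x hx => h.supp x hx
  rw [he.deriv_eq]
  simp

lemma TF.hasDeriv (h : TF δ r) (α : ℝ) : HasDerivAt r (_root_.deriv r α) α :=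
  (h.cd.differentiable (by simp)).differentiableAt.hasDerivAt

lemma TF.bdd (h : TF δ r) : ∃ M : ℝ, 0 < M ∧ ∀ α, |r α| ≤ M := by
  obtain ⟨B, hB⟩ := h.hcs.exists_bound_of_continuous h.cont
  exact ⟨|B| + 1, by positivity, fun α => (hB α).trans (by linarith [le_abs_self B])⟩

lemma TF.lip (h : TF δ r) : ∃ K : ℝ, ∀ x y, |r x - r y| ≤ K * |x - y| := by
  obtain ⟨M, hM0, hM⟩ := h.deriv.bdd
  refine ⟨M, fun x y => ?_⟩
  have := Convex.norm_image_sub_le_of_norm_deriv_le (f := r) (C := M) (s := Set.univ) (x := y) (y := x)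
    (fun z _ => (h.cd.differentiable (by simp)).differentiableAt) (fun z _ => hM z) convex_univ
    (mem_univ _) (mem_univ _)
  simpa [Real.norm_eq_abs] using this

lemma TF.const_mul (h : TF δ r) (c : ℝ) : TF δ (fun α => c * r α) :=
  ⟨contDiff_const.mul h.cd, fun α hα => by rw [h.supp α hα, mul_zero]⟩

lemma TF.sub {s : ℝ → ℝ} (h : TF δ r) (h' : TF δ s) : TF δ (fun α => r α - s α) :=
  ⟨h.cd.sub h'.cd, fun α hα => by rw [h.supp α hα, h'.supp α hα, sub_zero]⟩

lemma TF.add {s : ℝ → ℝ} (h : TF δ r) (h' : TF δ s) : TF δ (fun α => r α + s α) :=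
  ⟨h.cd.add h'.cd, fun α hα => by rw [h.supp α hα, h'.supp α hα, add_zero]⟩

lemma TF.mul_left {g : ℝ → ℝ} (h : TF δ r) (hg : ContDiff ℝ (⊤ : ℕ∞) g) : TF δ (fun α => g α * r α) :=
  ⟨hg.mul h.cd, fun α hα => by rw [h.supp α hα, mul_zero]⟩

lemma TF.scale (h : TF δ r) {e : ℝ} (he : 0 < e) : TF (e * δ) (fun α => r (α / e)) := by
  refine ⟨h.cd.comp (contDiff_id.div_const e), fun α hα => h.supp _ ?_⟩
  rw [abs_div, abs_of_pos he, lt_div_iff₀ he]
  linarith

lemma cos_cont (u : ℝ) : Continuous fun α : ℝ => Real.cos (2 * Real.pi * α * u) := by fun_prop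

lemma sin_cont (u : ℝ) : Continuous fun α : ℝ => Real.sin (2 * Real.pi * α * u) := by fun_prop

lemma bl_bound (h : TF δ r) (u : ℝ) : |bl r u| ≤ ∫ α, |r α| := by
  unfold bl
  refine (abs_integral_le_integral_abs).trans ?_
  apply integral_mono (h.int_mul (cos_cont u)).abs h.integrable.abs
  intro α
  show |r α * Real.cos (2 * Real.pi * α * u)| ≤ |r α|
  rw [abs_mul]
  exact mul_le_of_le_one_right (abs_nonneg _) (Real.abs_cos_le_one _)

lemma bl_sub {s : ℝ → ℝ} (h : TF δ r) (h' : TF δ s) (u : ℝ) :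
    bl (fun α => r α - s α) u = bl r u - bl s u := by
  unfold bl
  rw [← integral_sub (h.int_mul (cos_cont u)) (h'.int_mul (cos_cont u))]
  congr 1
  funext α
  ring

lemma bl_add {s : ℝ → ℝ} (h : TF δ r) (h' : TF δ s) (u : ℝ) :
    bl (fun α => r α + s α) u = bl r u + bl s u := by
  unfold bl
  rw [← integral_add (h.int_mul (cos_cont u)) (h'.int_mul (cos_cont u))]
  congr 1
  funext α
  ring

lemma bl_const_mul (c : ℝ) (r : ℝ → ℝ) (u : ℝ) : bl (fun α => c * r α) u = c * bl r u := by
  unfold bl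
  rw [← integral_const_mul]
  congr 1
  funext α
  ring

lemma bl_neg_arg (r : ℝ → ℝ) (u : ℝ) : bl r (-u) = bl r u := by
  unfold bl
  congr 1
  funext α
  rw [mul_neg, Real.cos_neg]

lemma bl_scale (r : ℝ → ℝ) {e : ℝ} (he : 0 < e) (u : ℝ) :
    bl (fun α => r (α / e)) u = e * bl r (e * u) := by
  unfold bl
  have h := Measure.integral_comp_div (fun α => r α * Real.cos (2 * Real.pi * α * (e * u))) e
  rw [abs_of_pos he, smul_eq_mul] at h
  rw [← h]
  congr 1
  funext α
  congr 2
  field_simp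

/-- integration by parts against the sine -/
lemma parts_sin (h : TF δ r) (u : ℝ) :
    ∫ α, deriv r α * Real.sin (2 * Real.pi * α * u) = -(2 * Real.pi * u) * bl r u := by
  have h1 := integral_mul_deriv_eq_deriv_mul_of_integrable (u := r)
    (v := fun α : ℝ => Real.sin (2 * Real.pi * α * u)) (u' := deriv r)
    (v' := fun α : ℝ => Real.cos (2 * Real.pi * α * u) * (2 * Real.pi * u))
    (fun x _ => h.hasDeriv x) (fun x _ => by
      have h2 : HasDerivAt (fun α : ℝ => 2 * Real.pi * α * u) (2 * Real.pi * u) x := by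
        have := ((hasDerivAt_id x).const_mul (2 * Real.pi)).mul_const u
        simpa using this
      exact h2.sin)
    (h.int_mul (by fun_prop)) (h.deriv.int_mul (by fun_prop)) (h.int_mul (by fun_prop))
  have h2 : ∫ α, deriv r α * Real.sin (2 * Real.pi * α * u) =
      -∫ α, r α * (Real.cos (2 * Real.pi * α * u) * (2 * Real.pi * u)) := by
    rw [h1, neg_neg]
  rw [h2]
  unfold bl
  rw [← integral_const_mul, ← integral_neg]
  congr 1
  funext α
  ring

/-- integration by parts against the cosine -/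
lemma parts_cos (h : TF δ r) (u : ℝ) :
    bl (deriv r) u = (2 * Real.pi * u) * ∫ α, r α * Real.sin (2 * Real.pi * α * u) := by
  have h1 := integral_mul_deriv_eq_deriv_mul_of_integrable (u := r)
    (v := fun α : ℝ => Real.cos (2 * Real.pi * α * u)) (u' := deriv r)
    (v' := fun α : ℝ => -Real.sin (2 * Real.pi * α * u) * (2 * Real.pi * u))
    (fun x _ => h.hasDeriv x) (fun x _ => by
      have h2 : HasDerivAt (fun α : ℝ => 2 * Real.pi * α * u) (2 * Real.pi * u) x := by
        have := ((hasDerivAt_id x).const_mul (2 * Real.pi)).mul_const u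
        simpa using this
      exact h2.cos)
    (h.int_mul (by fun_prop)) (h.deriv.int_mul (by fun_prop)) (h.int_mul (by fun_prop))
  have h2 : bl (deriv r) u =
      -∫ α, r α * (-Real.sin (2 * Real.pi * α * u) * (2 * Real.pi * u)) := by
    rw [h1, neg_neg]
    rfl
  rw [h2, ← integral_const_mul, ← integral_neg]
  congr 1
  funext α
  ring

lemma bl_deriv2 (h : TF δ r) (u : ℝ) :
    bl (deriv (deriv r)) u = -(2 * Real.pi * u) ^ 2 * bl r u := by
  rw [parts_cos h.deriv, parts_sin h]
  ring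

/-- multiplication by `u ^ 2` -/
lemma bl_sq (h : TF δ r) : ∃ s, TF δ s ∧ ∀ u, bl s u = u ^ 2 * bl r u := by
  refine ⟨fun α => -(1 / (4 * Real.pi ^ 2)) * deriv (deriv r) α, h.deriv.deriv.const_mul _,
    fun u => ?_⟩
  have hpi := Real.pi_pos
  rw [bl_const_mul, bl_deriv2 h]
  field_simp
  ring

lemma bl_pow (h : TF δ r) (n : ℕ) : ∃ s, TF δ s ∧ ∀ u, bl s u = u ^ (2 * n) * bl r u := by
  induction n with
  | zero => exact ⟨r, h, fun u => by simp⟩
  | succ n ih =>
    obtain ⟨s, hs, hu⟩ := ih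
    obtain ⟨s', hs', hu'⟩ := bl_sq hs
    refine ⟨s', hs', fun u => ?_⟩
    rw [hu', hu]
    ring

lemma bl_onesq (h : TF δ r) (n : ℕ) : ∃ s, TF δ s ∧ ∀ u, bl s u = (1 + u ^ 2) ^ n * bl r u := by
  induction n with
  | zero => exact ⟨r, h, fun u => by simp⟩
  | succ n ih =>
    obtain ⟨s, hs, hu⟩ := ih
    obtain ⟨s', hs', hu'⟩ := bl_sq hs
    refine ⟨_, hs.add hs', fun u => ?_⟩
    rw [bl_add hs hs', hu', hu]
    ring

lemma TF.decay (h : TF δ r) (n : ℕ) : ∃ C : ℝ, 0 < C ∧ ∀ u, |bl r u| * (1 + u ^ 2) ^ n ≤ C := by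
  obtain ⟨s, hs, hu⟩ := bl_onesq h n
  refine ⟨(∫ α, |s α|) + 1, ?_, fun u => ?_⟩
  · have : 0 ≤ ∫ α, |s α| := integral_nonneg fun α => abs_nonneg _
    linarith
  · have h1 := bl_bound hs u
    rw [hu, abs_mul, abs_of_pos (by positivity)] at h1
    linarith

lemma bl_hasDeriv (h : TF δ r) (u : ℝ) :
    HasDerivAt (bl r) (-∫ α, (2 * Real.pi * α * r α) * Real.sin (2 * Real.pi * α * u)) u := by
  have hTF : TF δ (fun α => 2 * Real.pi * α * r α) := h.mul_left (by fun_prop)
  have h1 := hasDerivAt_integral_of_dominated_loc_of_deriv_le (μ := volume) (𝕜 := ℝ)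
    (F := fun u α => r α * Real.cos (2 * Real.pi * α * u))
    (F' := fun u α => -((2 * Real.pi * α * r α) * Real.sin (2 * Real.pi * α * u)))
    (x₀ := u) (s := Set.univ) (bound := fun α => |2 * Real.pi * α * r α|) Filter.univ_mem
    (Eventually.of_forall fun x => (h.cont.mul (cos_cont x)).aestronglyMeasurable)
    (h.int_mul (cos_cont u)) ((hTF.cont.mul (sin_cont u)).neg.aestronglyMeasurable)
    (Eventually.of_forall fun α x _ => by
      rw [norm_neg, norm_mul, Real.norm_eq_abs, Real.norm_eq_abs]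
      exact mul_le_of_le_one_right (abs_nonneg _) (Real.abs_sin_le_one _))
    hTF.integrable.abs
    (Eventually.of_forall fun α x _ => by
      have h2 : HasDerivAt (fun u : ℝ => 2 * Real.pi * α * u) (2 * Real.pi * α) x := by
        have := (hasDerivAt_id x).const_mul (2 * Real.pi * α)
        simpa using this
      refine (h2.cos.const_mul (r α)).congr_deriv ?_
      ring)
  have h2 := h1.2
  rw [integral_neg] at h2
  exact h2

lemma bl_cont (h : TF δ r) : Continuous (bl r) :=
  continuous_iff_continuousAt.2 fun u => (bl_hasDeriv h u).continuousAt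

/-- the derivative, multiplied by `u` -/
lemma bl_euler (h : TF δ r) : ∃ s, TF δ s ∧ ∀ u, ∃ d, HasDerivAt (bl r) d u ∧ u * d = bl s u := by
  have hTF : TF δ (fun α => α * r α) := h.mul_left (by fun_prop)
  refine ⟨fun α => -1 * deriv (fun α => α * r α) α, hTF.deriv.const_mul _, fun u =>
    ⟨_, bl_hasDeriv h u, ?_⟩⟩
  rw [bl_const_mul, parts_cos hTF, mul_neg]
  have e : ∫ α, (2 * Real.pi * α * r α) * Real.sin (2 * Real.pi * α * u) =
      2 * Real.pi * ∫ α, (α * r α) * Real.sin (2 * Real.pi * α * u) := by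
    rw [← integral_const_mul]
    congr 1
    funext α
    ring
  rw [e]
  ring

/-- a small change of the scale -/
lemma bl_rescale (h : TF δ r) : ∃ C : ℝ, 0 < C ∧ ∀ c : ℝ, 1 ≤ c → ∀ u : ℝ,
    |bl r (c * u) - bl r u| ≤ C * (c - 1) * (1 / (1 + u ^ 2)) := by
  obtain ⟨s, hs, hd⟩ := bl_euler h
  obtain ⟨C, hC, hdec⟩ := hs.decay 1
  refine ⟨C, hC, fun c hc u => ?_⟩
  have key : ∀ x ∈ Icc (1 : ℝ) c, HasDerivWithinAt (fun x : ℝ => bl r (x * u))
      (bl s (x * u) / x) (Icc 1 c) x := by
    intro x hx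
    have hx0 : x ≠ 0 := by linarith [hx.1]
    obtain ⟨d, h1, h2⟩ := hd (x * u)
    have h3 : HasDerivAt (fun x : ℝ => x * u) u x := by
      simpa using (hasDerivAt_id x).mul_const u
    have h4 := h1.comp x h3
    have e : d * u = bl s (x * u) / x := by
      rw [← h2]
      field_simp
    rw [e] at h4
    exact h4.hasDerivWithinAt
  have h5 := Convex.norm_image_sub_le_of_norm_hasDerivWithin_le (C := C * (1 / (1 + u ^ 2)))
    key (fun x hx => by
      have hx1 : 1 ≤ x := hx.1
      have h6 := hdec (x * u)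
      rw [pow_one] at h6
      rw [norm_div, Real.norm_eq_abs, Real.norm_eq_abs, abs_of_pos (by linarith : (0 : ℝ) < x)]
      have h7 : |bl s (x * u)| ≤ C * (1 / (1 + u ^ 2)) := by
        rw [mul_one_div, le_div_iff₀ (by positivity)]
        refine le_trans ?_ h6
        apply mul_le_mul_of_nonneg_left _ (abs_nonneg _)
        have : u ^ 2 ≤ (x * u) ^ 2 := by
          rw [mul_pow]
          exact le_mul_of_one_le_left (sq_nonneg _) (one_le_pow₀ hx1)
        linarith
      exact (div_le_self (abs_nonneg _) hx1).trans h7) (convex_Icc 1 c) (left_mem_Icc.2 hc)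
    (right_mem_Icc.2 hc)
  rw [Real.norm_eq_abs, Real.norm_eq_abs, one_mul, abs_of_nonneg (by linarith : (0 : ℝ) ≤ c - 1)] at h5
  refine h5.trans (le_of_eq ?_)
  ring

/-! ### a smooth compactly supported function with nonnegative transform -/

/-- the real part of the Fourier transform -/
lemma bl_fourier (h : TF δ r) (hev : ∀ α, r (-α) = r α) (u : ℝ) :
    FourierTransform.fourier (fun α : ℝ => (r α : ℂ)) u = (bl r u : ℂ) := by
  rw [Real.fourier_real_eq_integral_exp_smul]
  have hc : Integrable fun α : ℝ => ((r α * Real.cos (2 * Real.pi * α * u) : ℝ) : ℂ) :=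
    (h.int_mul (cos_cont u)).ofReal
  have hsn : Integrable fun α : ℝ => ((r α * Real.sin (2 * Real.pi * α * u) : ℝ) : ℂ) :=
    (h.int_mul (sin_cont u)).ofReal
  have e1 : ∀ v : ℝ, Complex.exp (((-2 * Real.pi * v * u : ℝ) : ℂ) * Complex.I) • (r v : ℂ) =
      ((r v * Real.cos (2 * Real.pi * v * u) : ℝ) : ℂ) -
        Complex.I * ((r v * Real.sin (2 * Real.pi * v * u) : ℝ) : ℂ) := by
    intro v
    rw [Complex.exp_mul_I, ← Complex.ofReal_cos, ← Complex.ofReal_sin,
      show -2 * Real.pi * v * u = -(2 * Real.pi * v * u) by ring, Real.cos_neg, Real.sin_neg,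
      smul_eq_mul]
    push_cast
    ring
  simp_rw [e1]
  rw [integral_sub hc (hsn.const_mul _), integral_const_mul, integral_complex_ofReal, integral_complex_ofReal]
  have h0 : ∫ α, r α * Real.sin (2 * Real.pi * α * u) = 0 := by
    have h1 := integral_neg_eq_self (fun α : ℝ => r α * Real.sin (2 * Real.pi * α * u)) volume
    have h2 : ∫ α, r (-α) * Real.sin (2 * Real.pi * (-α) * u) =
        -∫ α, r α * Real.sin (2 * Real.pi * α * u) := by
      rw [← integral_neg]
      congr 1
      funext α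
      rw [hev, show 2 * Real.pi * (-α) * u = -(2 * Real.pi * α * u) by ring, Real.sin_neg]
      ring
    rw [h2] at h1
    linarith
  rw [h0]
  unfold bl
  simp

end Pool.Agent.E8helper72.PC
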