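import Pool.Agent.E8helper72.PC.TF

/-! # Kernels with nonnegative transforms -/

set_option autoImplicit false

namespace Pool.Agent.E8helper72.PC

open MeasureTheory Set Filter Topology
open scoped Convolution

/-- a smooth function with compact support and nonnegative transform -/
theorem exists_kernel : ∃ χ : ℝ → ℝ, TF 1 χ ∧ (∀ α, χ (-α) = χ α) ∧ (∀ u, 0 ≤ bl χ u) ∧
    bl χ 0 = 1 := by
  let b : ContDiffBump (0 : ℝ) := ⟨1 / 4, 1 / 2, by norm_num, by norm_num⟩
  set ψ : ℝ → ℝ := fun x => b x with hψ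
  have hb0 : ∀ x, 1 / 2 ≤ |x| → ψ x = 0 := by
    intro x hx
    apply b.zero_of_le_dist
    simpa [Real.dist_eq, b] using hx
  have hψc : Continuous ψ := b.continuous
  have hψcd : ContDiff ℝ (⊤ : ℕ∞) ψ := b.contDiff
  have hψs : HasCompactSupport ψ := b.hasCompactSupport
  have hψi : Integrable ψ := hψc.integrable_of_hasCompactSupport hψs
  have hev : ∀ x, ψ (-x) = ψ x := fun x => b.neg x
  have hψTF : TF (1 / 2) ψ := ⟨hψcd, fun α hα => hb0 α hα.le⟩
  set χ : ℝ → ℝ := ψ ⋆[ContinuousLinearMap.mul ℝ ℝ] ψ with hχ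
  have hχd : ∀ α, χ α = ∫ t, ψ t * ψ (α - t) := fun α => rfl
  have hχcd : ContDiff ℝ (⊤ : ℕ∞) χ :=
    hψs.contDiff_convolution_left _ hψcd hψi.locallyIntegrable
  have hχs : ∀ α, 1 < |α| → χ α = 0 := by
    intro α hα
    rw [hχd]
    have : ∀ t, ψ t * ψ (α - t) = 0 := by
      intro t
      by_cases h : 1 / 2 ≤ |t|
      · rw [hb0 t h, zero_mul]
      · rw [hb0 (α - t), mul_zero]
        push Not at h
        have := abs_sub_abs_le_abs_sub α t
        linarith
    simp [this]
  have hχTF : TF 1 χ := ⟨hχcd, hχs⟩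
  have hχev : ∀ α, χ (-α) = χ α := by
    intro α
    rw [hχd, hχd, ← integral_neg_eq_self]
    congr 1
    funext t
    rw [hev, show -α - -t = -(α - t) by ring, hev]
  have hsq : ∀ u, bl χ u = bl ψ u ^ 2 := by
    intro u
    have h1 := bl_fourier hχTF hχev u
    have h2 := bl_fourier hψTF hev u
    have e : (fun α : ℝ => (χ α : ℂ)) = (fun t : ℝ => (ψ t : ℂ)) ⋆[ContinuousLinearMap.mul ℂ ℂ]
        (fun t : ℝ => (ψ t : ℂ)) := by
      funext α
      rw [hχd, convolution_def, ← integral_complex_ofReal]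
      congr 1
      funext t
      simp
    have hci : Integrable (fun t : ℝ => (ψ t : ℂ)) := hψi.ofReal
    have h5 := Real.fourier_mul_convolution_eq (R := ℂ) (f₁ := fun t : ℝ => (ψ t : ℂ))
      (f₂ := fun t : ℝ => (ψ t : ℂ)) hci hci u
    have h3 : ((bl ψ u * bl ψ u : ℝ) : ℂ) = (bl χ u : ℂ) := by
      rw [← h1, e, h5, h2]; push_cast; rfl
    have h4 := Complex.ofReal_injective h3
    rw [← h4]
    ring
  have hpos : 0 < bl ψ 0 := by
    have : bl ψ 0 = ∫ x, ψ x := by
      unfold bl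
      simp
    rw [this]
    exact b.integral_pos
  set c := bl χ 0 with hc
  have hc0 : 0 < c := by rw [hc, hsq]; positivity
  refine ⟨fun α => c⁻¹ * χ α, hχTF.const_mul _, fun α => by
    show c⁻¹ * χ (-α) = c⁻¹ * χ α
    rw [hχev], fun u => ?_, ?_⟩
  · rw [bl_const_mul, hsq]
    positivity
  · rw [bl_const_mul]
    exact inv_mul_cancel₀ hc0.ne'

/-! ### integrals of dilations -/

/-- `∫_0^1 t ^ k φ(t α) dt` -/
noncomputable def dil (k : ℕ) (φ : ℝ → ℝ) (α : ℝ) : ℝ := ∫ t in (0 : ℝ)..1, t ^ k * φ (t * α)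

lemma dil_deriv (k : ℕ) {φ : ℝ → ℝ} (h : ContDiff ℝ (⊤ : ℕ∞) φ) (α : ℝ) :
    HasDerivAt (dil k φ) (dil (k + 1) (deriv φ) α) α := by
  have hd : ContDiff ℝ (⊤ : ℕ∞) (deriv φ) := (contDiff_infty_iff_deriv.1 h).2
  have hdc : Continuous (deriv φ) := hd.continuous
  have hφc : Continuous φ := h.continuous
  obtain ⟨B, hB⟩ := (isCompact_Icc (a := -(|α| + 1)) (b := |α| + 1)).exists_bound_of_continuousOn
    (f := deriv φ) hdc.continuousOn
  have h1 := intervalIntegral.hasDerivAt_integral_of_dominated_loc_of_deriv_le (μ := volume)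
    (a := 0) (b := 1) (𝕜 := ℝ) (F := fun x t => t ^ k * φ (t * x))
    (F' := fun x t => t ^ (k + 1) * deriv φ (t * x)) (x₀ := α) (s := Metric.ball α 1)
    (bound := fun _ => B) (Metric.ball_mem_nhds _ one_pos)
    (Eventually.of_forall fun x => (by fun_prop : Continuous fun t : ℝ => t ^ k * φ (t * x)).aestronglyMeasurable)
    ((by fun_prop : Continuous fun t : ℝ => t ^ k * φ (t * α)).intervalIntegrable _ _)
    ((by fun_prop : Continuous fun t : ℝ => t ^ (k + 1) * deriv φ (t * α)).aestronglyMeasurable)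
    (Eventually.of_forall fun t ht x hx => by
      rw [uIoc_of_le zero_le_one] at ht
      have hx1 : |x - α| < 1 := by simpa [Real.dist_eq] using hx
      have hx2 : |x| ≤ |α| + 1 := by
        have := abs_sub_abs_le_abs_sub x α
        linarith
      have ht1 : |t| ≤ 1 := abs_le.2 ⟨by linarith [ht.1], ht.2⟩
      rw [norm_mul, norm_pow, Real.norm_eq_abs]
      have h2 : |t * x| ≤ |α| + 1 := by
        rw [abs_mul]
        exact (mul_le_of_le_one_left (abs_nonneg _) ht1).trans hx2
      have h3 := hB (t * x) (abs_le.1 h2)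
      have h4 : |t| ^ (k + 1) ≤ 1 := pow_le_one₀ (abs_nonneg _) ht1
      exact (mul_le_of_le_one_left (norm_nonneg _) h4).trans h3)
    intervalIntegrable_const
    (Eventually.of_forall fun t _ x _ => by
      have h2 : HasDerivAt (fun x : ℝ => t * x) t x := by
        simpa using (hasDerivAt_id x).const_mul t
      have h3 : HasDerivAt φ (deriv φ (t * x)) (t * x) :=
        (h.differentiable (by simp)).differentiableAt.hasDerivAt
      refine ((h3.comp x h2).const_mul (t ^ k)).congr_deriv ?_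
      ring)
  exact h1.2

lemma dil_contDiff_nat (n : ℕ) : ∀ (k : ℕ) (φ : ℝ → ℝ), ContDiff ℝ (⊤ : ℕ∞) φ →
    ContDiff ℝ n (dil k φ) := by
  induction n with
  | zero =>
    intro k φ h
    rw [Nat.cast_zero, contDiff_zero]
    exact continuous_iff_continuousAt.2 fun α => (dil_deriv k h α).continuousAt
  | succ n ih =>
    intro k φ h
    rw [Nat.cast_succ, contDiff_succ_iff_deriv]
    refine ⟨fun α => (dil_deriv k h α).differentiableAt, by simp, ?_⟩
    have e : deriv (dil k φ) = dil (k + 1) (deriv φ) := funext fun α => (dil_deriv k h α).deriv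
    rw [e]
    exact ih (k + 1) (deriv φ) (contDiff_infty_iff_deriv.1 h).2

lemma dil_contDiff (k : ℕ) {φ : ℝ → ℝ} (h : ContDiff ℝ (⊤ : ℕ∞) φ) :
    ContDiff ℝ (⊤ : ℕ∞) (dil k φ) :=
  contDiff_infty.2 fun n => dil_contDiff_nat n k φ h

/-- a bandlimited function with derivative `-u bl χ(u)` -/
theorem exists_primitive {δ : ℝ} {χ : ℝ → ℝ} (h : TF δ χ) (hev : ∀ α, χ (-α) = χ α) :
    ∃ r, TF δ r ∧ ∀ u, HasDerivAt (bl r) (-(u * bl χ u)) u := by
  have hpi := Real.pi_pos
  have hd2 : ContDiff ℝ (⊤ : ℕ∞) (deriv (deriv χ)) := h.deriv.deriv.cd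
  have h0 : deriv χ 0 = 0 := by
    have h1 : HasDerivAt (fun x => χ (-x)) (-deriv χ 0) 0 := by
      have h2 : HasDerivAt (fun x : ℝ => -x) (-1) 0 := hasDerivAt_neg' 0
      have h3 : HasDerivAt χ (deriv χ 0) (-0) := by simpa using h.hasDeriv 0
      refine (h3.comp 0 h2).congr_deriv ?_
      ring
    have e : (fun x => χ (-x)) = χ := funext hev
    rw [e] at h1
    have := h1.unique (h.hasDeriv 0)
    linarith
  have hmul : ∀ α, α * dil 0 (deriv (deriv χ)) α = deriv χ α := by
    intro α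
    unfold dil
    rw [← intervalIntegral.integral_const_mul]
    have h1 : ∀ t ∈ uIcc (0 : ℝ) 1, HasDerivAt (fun t : ℝ => deriv χ (t * α))
        (α * (t ^ 0 * deriv (deriv χ) (t * α))) t := by
      intro t _
      have h2 : HasDerivAt (fun t : ℝ => t * α) α t := by
        simpa using (hasDerivAt_id t).mul_const α
      refine ((h.deriv.hasDeriv (t * α)).comp t h2).congr_deriv ?_
      ring
    have hcc : Continuous (deriv (deriv χ)) := hd2.continuous
    rw [intervalIntegral.integral_eq_sub_of_hasDerivAt h1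
      ((by fun_prop : Continuous fun t : ℝ => α * (t ^ 0 * deriv (deriv χ) (t * α))).intervalIntegrable
        _ _)]
    rw [one_mul, zero_mul, h0, sub_zero]
  have hTF : TF δ (fun α => -(1 / (4 * Real.pi ^ 2)) * dil 0 (deriv (deriv χ)) α) := by
    refine ⟨contDiff_const.mul (dil_contDiff 0 hd2), fun α hα => ?_⟩
    have h1 := hmul α
    rw [h.deriv.supp α hα] at h1
    by_cases hα0 : α = 0
    · -- then `δ < 0`, and everything vanishes
      have hδ : δ < 0 := by simpa [hα0] using hα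
      have hz : ∀ β, χ β = 0 := fun β => h.supp β (hδ.trans_le (abs_nonneg _))
      have hz0 : χ = fun _ => 0 := funext hz
      have e2 : deriv (deriv χ) = fun _ => 0 := by
        rw [hz0]
        funext x
        simp
      rw [e2]
      simp [dil]
    · rcases mul_eq_zero.1 h1 with h2 | h2
      · exact absurd h2 hα0
      · rw [h2, mul_zero]
  refine ⟨_, hTF, fun u => ?_⟩
  refine (bl_hasDeriv hTF u).congr_deriv ?_
  have e : ∀ α, (2 * Real.pi * α * (-(1 / (4 * Real.pi ^ 2)) * dil 0 (deriv (deriv χ)) α)) *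
      Real.sin (2 * Real.pi * α * u) = -(1 / (2 * Real.pi)) *
      (deriv χ α * Real.sin (2 * Real.pi * α * u)) := by
    intro α
    rw [← hmul α]
    field_simp
    ring
  simp_rw [e]
  rw [integral_const_mul, parts_sin h]
  field_simp

/-- the decreasing bandlimited function -/
theorem exists_dec : ∃ r : ℝ → ℝ, TF 1 r ∧ (∀ u, 0 ≤ u → ∀ v, u ≤ v → bl r v ≤ bl r u) ∧
    (∃ c : ℝ, 0 < c ∧ ∀ u v : ℝ, 0 ≤ u → u < v → v ≤ c → bl r v < bl r u) ∧ 0 < bl r 0 ∧
    Tendsto (bl r) atTop (𝓝 0) ∧ ∀ u, 0 ≤ bl r u := by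
  obtain ⟨χ, hχ, hev, hnn, h1⟩ := exists_kernel
  obtain ⟨r, hr, hd⟩ := exists_primitive hχ hev
  have hχc := bl_cont hχ
  have hanti : AntitoneOn (bl r) (Ici 0) := by
    apply antitoneOn_of_deriv_nonpos (convex_Ici 0) (bl_cont hr).continuousOn
    · intro x _
      exact (hd x).differentiableAt.differentiableWithinAt
    · intro x hx
      rw [interior_Ici] at hx
      rw [(hd x).deriv]
      have := mul_nonneg (le_of_lt hx) (hnn x)
      linarith
  obtain ⟨c, hc0, hc⟩ : ∃ c : ℝ, 0 < c ∧ ∀ u, |u| ≤ c → 0 < bl χ u := by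
    have h2 : ∀ᶠ u in 𝓝 (0 : ℝ), 0 < bl χ u := by
      have : (0 : ℝ) < bl χ 0 := by rw [h1]; exact one_pos
      exact hχc.continuousAt.eventually (lt_mem_nhds this)
    obtain ⟨e, he, h3⟩ := Metric.eventually_nhds_iff.1 h2
    refine ⟨e / 2, by positivity, fun u hu => h3 ?_⟩
    rw [Real.dist_eq, sub_zero]
    linarith
  have hstrict : StrictAntiOn (bl r) (Icc 0 c) := by
    apply strictAntiOn_of_deriv_neg (convex_Icc 0 c) (bl_cont hr).continuousOn
    intro x hx
    rw [interior_Icc] at hx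
    rw [(hd x).deriv]
    have := mul_pos hx.1 (hc x (abs_le.2 ⟨by linarith [hx.1], hx.2.le⟩))
    linarith
  have htend : Tendsto (bl r) atTop (𝓝 0) := by
    obtain ⟨C, hC, hdec⟩ := hr.decay 1
    apply squeeze_zero_norm' (a := fun u : ℝ => C / (1 + u ^ 2))
    · refine Eventually.of_forall fun u => ?_
      rw [Real.norm_eq_abs, le_div_iff₀ (by positivity)]
      have := hdec u
      rwa [pow_one] at this
    · apply Tendsto.const_div_atTop
      exact tendsto_atTop_add_const_left _ _ (tendsto_pow_atTop (by norm_num))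
  have hnn' : ∀ u, 0 ≤ u → 0 ≤ bl r u := by
    intro u hu
    apply le_of_tendsto htend
    filter_upwards [eventually_ge_atTop u] with v hv
    exact hanti hu (hu.trans hv) hv
  refine ⟨r, hr, fun u hu v hv => hanti hu (hu.trans hv) hv, ⟨c, hc0, fun u v hu huv hv =>
    hstrict ⟨hu, huv.le.trans hv⟩ ⟨hu.trans huv.le, hv⟩ huv⟩, ?_, htend, fun u => ?_⟩
  · have := hstrict ⟨le_rfl, hc0.le⟩ ⟨hc0.le, le_rfl⟩ hc0
    linarith [hnn' c hc0.le]
  · rcases le_total 0 u with h | h
    · exact hnn' u h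
    · have := hnn' (-u) (by linarith)
      rwa [bl_neg_arg] at this

end Pool.Agent.E8helper72.PC
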