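import Pool.Agent.E8helper72.PC.Wind

/-! # The abstract equivalences -/

set_option autoImplicit false

namespace Pool.Agent.E8helper72.PC

open MeasureTheory Set Filter Topology

variable {ι κ : Type*}

/-- the abstract form of the equivalences -/
theorem abstract_tfae (l : Filter ι) (S : ι → Finset κ) (w x : ι → κ → ℝ) (off : ι → ℝ)
    (hfam : ∃ C : ℝ, ∀ᶠ i in l, (∀ p ∈ S i, 0 ≤ w i p) ∧ (∀ p ∈ S i, 0 ≤ x i p) ∧
      ∀ n : ℕ, ∑ p ∈ S i with (n : ℝ) ≤ x i p, w i p / (1 + x i p ^ 2) ≤ C / (n + 1))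
    (hoff : ∃ B : ℝ, ∀ᶠ i in l, 0 ≤ off i ∧ off i ≤ B)
    (hdata : ∀ U : Ultrafilter ι, (U : Filter ι) ≤ l → ∀ μ p, LimM (U : Filter ι) S w x μ →
      Tendsto off (U : Filter ι) (𝓝 p) → LimData μ p) :
    List.TFAE [
      ∀ α β : ℝ, 0 < α → α < β → Tendsto (fun i => cw (S i) (w i) (x i) α β) l (𝓝 (II α β)),
      ∀ α β : ℝ, 0 < α → α < β → ∀ ε : ℝ, 0 < ε →
        ∀ᶠ i in l, II α β - ε ≤ cw (S i) (w i) (x i) α β,
      ∀ β : ℝ, 0 < β → ∀ ε : ℝ, 0 < ε → ∃ α : ℝ, 0 < α ∧ α < β ∧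
        ∀ᶠ i in l, II 0 β - ε ≤ cw (S i) (w i) (x i) α β,
      ∀ β : ℝ, 0 < β → ∀ ε : ℝ, 0 < ε →
        ∀ᶠ i in l, cw (S i) (w i) (x i) 0 β ≤ 1 / 2 + II 0 β + ε,
      Tendsto off l (𝓝 0) ∧ ∃ A : ℝ, ∀ α β : ℝ, A < α → α < β → ∀ ε : ℝ, 0 < ε →
        ∀ᶠ i in l, II α β - ε ≤ cw (S i) (w i) (x i) α β,
      Tendsto off l (𝓝 0) ∧ ∃ A : ℝ, ∀ α β : ℝ, A < α → α < β → ∀ ε : ℝ, 0 < ε →
        ∀ᶠ i in l, cw (S i) (w i) (x i) α β ≤ II α β + ε] := by
  obtain ⟨C, hC⟩ := hfam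
  obtain ⟨B, hB⟩ := hoff
  have hw : ∀ᶠ i in l, ∀ p ∈ S i, 0 ≤ w i p := hC.mono fun i h => h.1
  have hx : ∀ᶠ i in l, ∀ p ∈ S i, 0 ≤ x i p := hC.mono fun i h => h.2.1
  -- limits along ultrafilters
  have hlimM : ∀ U : Ultrafilter ι, (U : Filter ι) ≤ l → ∃ μ, LimM (U : Filter ι) S w x μ :=
    fun U hU => exists_limM U S w x C (hU hC)
  have hlimp : ∀ U : Ultrafilter ι, (U : Filter ι) ≤ l → ∃ p, Tendsto off (U : Filter ι) (𝓝 p) := by
    intro U hU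
    obtain ⟨p, -, hp⟩ := (isCompact_Icc (a := (0 : ℝ)) (b := B)).ultrafilter_le_nhds' (U.map off) (by
      rw [Ultrafilter.mem_map]
      exact hU hB)
    refine ⟨p, ?_⟩
    rw [Ultrafilter.coe_map] at hp
    exact hp
  obtain ⟨P0, hP0⟩ : ∃ P : Prop, P ↔ ∀ U : Ultrafilter ι, (U : Filter ι) ≤ l → ∀ μ,
    LimM (U : Filter ι) S w x μ → μ.restrict (Ioi 0) = lam.restrict (Ioi 0) := ⟨_, Iff.rfl⟩
  -- consequences of the equality of the limit measures
  have h01 : P0 → ∀ α β : ℝ, 0 < α → α < β →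
      Tendsto (fun i => cw (S i) (w i) (x i) α β) l (𝓝 (II α β)) := by
    intro h α β hα hαβ
    rw [hP0] at h
    rw [tendsto_iff_ultrafilter]
    intro U hU
    obtain ⟨μ, hμ⟩ := hlimM U hU
    exact hμ.window_tendsto (hU hw) (h U hU μ hμ) hα hαβ
  have hoff0 : P0 → Tendsto off l (𝓝 0) := by
    intro h
    rw [hP0] at h
    rw [tendsto_iff_ultrafilter]
    intro U hU
    obtain ⟨μ, hμ⟩ := hlimM U hU
    obtain ⟨p, hp⟩ := hlimp U hU
    have h1 := ((hdata U hU μ p hμ hp).crit (h U hU μ hμ)).1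
    rw [h1] at hp
    exact hp
  have h30 : (∀ β : ℝ, 0 < β → ∀ ε : ℝ, 0 < ε → ∃ α : ℝ, 0 < α ∧ α < β ∧
      ∀ᶠ i in l, II 0 β - ε ≤ cw (S i) (w i) (x i) α β) → P0 := by
    intro h
    rw [hP0]
    intro U hU μ hμ
    obtain ⟨p, hp⟩ := hlimp U hU
    refine ((hdata U hU μ p hμ hp).eq_of_near fun y hy => ?_).2.2
    apply hμ.low_near (hU hw) _ hy
    intro β hβ ε hε
    obtain ⟨α, h1, h2, h3⟩ := h β hβ ε hε
    exact ⟨α, h1, h2, hU h3⟩
  have h40 : (∀ β : ℝ, 0 < β → ∀ ε : ℝ, 0 < ε →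
      ∀ᶠ i in l, cw (S i) (w i) (x i) 0 β ≤ 1 / 2 + II 0 β + ε) → P0 := by
    intro h
    rw [hP0]
    intro U hU μ hμ
    obtain ⟨p, hp⟩ := hlimp U hU
    refine ((hdata U hU μ p hμ hp).eq_of_up fun y hy => ?_).2.2
    exact hμ.up_near (hU hw) (hU hx) (fun β hβ ε hε => hU (h β hβ ε hε)) hy
  have h50 : (Tendsto off l (𝓝 0) ∧ ∃ A : ℝ, ∀ α β : ℝ, A < α → α < β → ∀ ε : ℝ, 0 < ε →
      ∀ᶠ i in l, II α β - ε ≤ cw (S i) (w i) (x i) α β) → P0 := by
    rintro ⟨h0, A, h⟩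
    rw [hP0]
    intro U hU μ hμ
    refine (hdata U hU μ 0 hμ (h0.mono_left hU)).eq_of_far (A := max A 0) (le_max_right _ _) ?_
    intro a b ha hab
    exact hμ.low_far (hU hw) (fun α β h1 h2 ε hε => hU (h α β h1 h2 ε hε))
      ((le_max_left _ _).trans ha) hab
  have h60 : (Tendsto off l (𝓝 0) ∧ ∃ A : ℝ, ∀ α β : ℝ, A < α → α < β → ∀ ε : ℝ, 0 < ε →
      ∀ᶠ i in l, cw (S i) (w i) (x i) α β ≤ II α β + ε) → P0 := by
    rintro ⟨h0, A, h⟩
    rw [hP0]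
    intro U hU μ hμ
    refine (hdata U hU μ 0 hμ (h0.mono_left hU)).eq_of_far' (A := max A 0) (le_max_right _ _) ?_
    intro a b ha hab
    exact hμ.up_far (hU hw) (fun α β h1 h2 ε hε => hU (h α β h1 h2 ε hε))
      ((le_max_left _ _).trans ha) hab
  have h04 : P0 → ∀ β : ℝ, 0 < β → ∀ ε : ℝ, 0 < ε →
      ∀ᶠ i in l, cw (S i) (w i) (x i) 0 β ≤ 1 / 2 + II 0 β + ε := by
    intro h β hβ ε hε
    rw [hP0] at h
    by_contra hcon
    rw [not_eventually] at hcon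
    obtain ⟨U, hU1, hU2⟩ : ∃ U : Ultrafilter ι, (U : Filter ι) ≤ l ∧
        ∀ᶠ i in (U : Filter ι), ¬ cw (S i) (w i) (x i) 0 β ≤ 1 / 2 + II 0 β + ε := by
      have hne := frequently_iff_neBot.1 hcon
      obtain ⟨U, hU⟩ := exists_ultrafilter_le
        (l ⊓ 𝓟 {i | ¬ cw (S i) (w i) (x i) 0 β ≤ 1 / 2 + II 0 β + ε})
      exact ⟨U, hU.trans inf_le_left, (hU.trans inf_le_right) (mem_principal_self _)⟩
    obtain ⟨μ, hμ⟩ := hlimM U hU1
    obtain ⟨p, hp⟩ := hlimp U hU1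
    have := hμ.lf
    have heq := h U hU1 μ hμ
    have h1 := ((hdata U hU1 μ p hμ hp).crit heq).2
    have h2 : μ.real (Ioc (-1) (β + ε / 2)) = 1 / 2 + II 0 (β + ε / 2) := by
      rw [real_Ioc_add hμ (show (-1 : ℝ) ≤ 0 by norm_num) (show 0 ≤ β + ε / 2 by linarith)]
      congr 1
      · have h3 : μ.real (Ioc (-1) 0) = μ.real {0} := by
          have h4 : Ioc (-1 : ℝ) 0 = {0} ∪ Ioo (-1) 0 := by
            ext y
            simp only [mem_Ioc, mem_union, mem_singleton_iff, mem_Ioo]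
            constructor
            · rintro ⟨h5, h6⟩
              rcases h6.lt_or_eq with h7 | h7
              · exact Or.inr ⟨h5, h7⟩
              · exact Or.inl h7
            · rintro (h5 | ⟨h5, h6⟩)
              · rw [h5]; norm_num
              · exact ⟨h5, h6.le⟩
          have h5 : μ (Ioo (-1) 0) = 0 := measure_mono_null (fun y hy => hy.2) hμ.neg
          rw [measureReal_def, measureReal_def, h4]
          congr 1
          apply le_antisymm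
          · refine (measure_union_le _ _).trans ?_
            rw [h5, add_zero]
          · exact measure_mono subset_union_left
        rw [h3, h1]
      · rw [← lam_real (by linarith), measureReal_def, measureReal_def,
          restrict_Ioc heq le_rfl]
    have h5 := II_add 0 β (β + ε / 2)
    have h6 := II_le (show β ≤ β + ε / 2 by linarith)
    have h7 := hμ.window_lt (hU1 hw) (show (-1 : ℝ) < 0 by norm_num) (show β < β + ε / 2 by linarith)
      (v := 1 / 2 + II 0 β + ε) (by rw [h2]; linarith)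
    obtain ⟨i, hi1, hi2⟩ := (h7.and hU2).exists
    exact hi2 hi1.le
  have h12 : (∀ α β : ℝ, 0 < α → α < β →
      Tendsto (fun i => cw (S i) (w i) (x i) α β) l (𝓝 (II α β))) → ∀ α β : ℝ, 0 < α → α < β →
      ∀ ε : ℝ, 0 < ε → ∀ᶠ i in l, II α β - ε ≤ cw (S i) (w i) (x i) α β := by
    intro h α β hα hαβ ε hε
    filter_upwards [(h α β hα hαβ).eventually (lt_mem_nhds (show II α β - ε < II α β by linarith))]
      with i hi
    exact hi.le
  have h23 : (∀ α β : ℝ, 0 < α → α < β → ∀ ε : ℝ, 0 < ε →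
      ∀ᶠ i in l, II α β - ε ≤ cw (S i) (w i) (x i) α β) → ∀ β : ℝ, 0 < β → ∀ ε : ℝ, 0 < ε →
      ∃ α : ℝ, 0 < α ∧ α < β ∧ ∀ᶠ i in l, II 0 β - ε ≤ cw (S i) (w i) (x i) α β := by
    intro h β hβ ε hε
    set α : ℝ := min (ε / 2) (β / 2) with hα
    have hα0 : 0 < α := lt_min (by linarith) (by linarith)
    have hα1 : α ≤ ε / 2 := min_le_left _ _
    have hα2 : α ≤ β / 2 := min_le_right _ _
    refine ⟨α, hα0, by linarith, ?_⟩
    filter_upwards [h α β hα0 (by linarith) (ε / 2) (by linarith)] with i hi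
    have h3 := II_add 0 α β
    have h4 := II_le hα0.le
    linarith
  tfae_have 1 → 2 := h12
  tfae_have 2 → 3 := h23
  tfae_have 3 → 1 := fun h => h01 (h30 h)
  tfae_have 4 → 1 := fun h => h01 (h40 h)
  tfae_have 1 → 4 := fun h => h04 (h30 (h23 (h12 h)))
  tfae_have 5 → 1 := fun h => h01 (h50 h)
  tfae_have 6 → 1 := fun h => h01 (h60 h)
  tfae_have 1 → 5 := fun h => ⟨hoff0 (h30 (h23 (h12 h))), 0, fun α β hα hαβ => h12 h α β hα hαβ⟩
  tfae_have 1 → 6 := fun h => ⟨hoff0 (h30 (h23 (h12 h))), 0, fun α β hα hαβ ε hε => by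
    filter_upwards [(h α β hα hαβ).eventually (gt_mem_nhds (show II α β < II α β + ε by linarith))]
      with i hi
    exact hi.le⟩
  tfae_finish

end Pool.Agent.E8helper72.PC
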