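import Pool.Agent.E8helper72.PC.TFk

/-! # The function `(cosh(α Y) - 1) / α²` -/

set_option autoImplicit false

namespace Pool.Agent.E8helper72.PC

open MeasureTheory Set Filter Topology

lemma dil_bound (k : ℕ) {ψ : ℝ → ℝ} {B α : ℝ} (h : ∀ t ∈ Icc (0 : ℝ) 1, |ψ (t * α)| ≤ B) :
    |dil k ψ α| ≤ B := by
  unfold dil
  have hB : 0 ≤ B := (abs_nonneg _).trans (h 0 ⟨le_rfl, zero_le_one⟩)
  have h1 := intervalIntegral.norm_integral_le_of_norm_le_const (a := 0) (b := 1) (C := B)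
    (f := fun t => t ^ k * ψ (t * α)) (by
      intro t ht
      rw [uIoc_of_le zero_le_one] at ht
      rw [norm_mul, Real.norm_eq_abs, Real.norm_eq_abs, abs_pow, abs_of_pos ht.1]
      have h2 := h t ⟨ht.1.le, ht.2⟩
      have h3 : t ^ k ≤ 1 := pow_le_one₀ ht.1.le ht.2
      exact (mul_le_of_le_one_left (abs_nonneg _) h3).trans h2)
  rw [Real.norm_eq_abs, sub_zero, abs_one, mul_one] at h1
  exact h1

/-- the hyperbolic cosine with frequency `Y` -/
noncomputable def ch (Y α : ℝ) : ℝ := Real.cosh (Y * α)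

lemma ch_cd (Y : ℝ) : ContDiff ℝ (⊤ : ℕ∞) (ch Y) := by
  unfold ch
  exact Real.contDiff_cosh.comp (contDiff_const.mul contDiff_id)

lemma ch_deriv (Y : ℝ) : deriv (ch Y) = fun α => Y * Real.sinh (Y * α) := by
  funext α
  have h1 : HasDerivAt (fun α : ℝ => Y * α) Y α := by
    simpa using (hasDerivAt_id α).const_mul Y
  have h2 := h1.cosh
  unfold ch
  rw [h2.deriv]
  ring

lemma ch_deriv2 (Y : ℝ) : deriv (deriv (ch Y)) = fun α => Y ^ 2 * Real.cosh (Y * α) := by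
  rw [ch_deriv]
  funext α
  have h1 : HasDerivAt (fun α : ℝ => Y * α) Y α := by
    simpa using (hasDerivAt_id α).const_mul Y
  have h2 := h1.sinh.const_mul Y
  rw [h2.deriv]
  ring

lemma cosh_le_exp (x : ℝ) : |Real.cosh x| ≤ Real.exp |x| := by
  rw [abs_of_pos (Real.cosh_pos x), Real.cosh_eq]
  have h1 : Real.exp x ≤ Real.exp |x| := Real.exp_le_exp.2 (le_abs_self x)
  have h2 : Real.exp (-x) ≤ Real.exp |x| := Real.exp_le_exp.2 (neg_le_abs x)
  linarith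

lemma sinh_le_exp (x : ℝ) : |Real.sinh x| ≤ Real.exp |x| := by
  rw [Real.sinh_eq]
  have h1 : Real.exp x ≤ Real.exp |x| := Real.exp_le_exp.2 (le_abs_self x)
  have h2 : Real.exp (-x) ≤ Real.exp |x| := Real.exp_le_exp.2 (neg_le_abs x)
  have h3 := Real.exp_pos x
  have h4 := Real.exp_pos (-x)
  rw [abs_le]
  constructor <;> linarith

/-- the function `(cosh(α Y) - 1) / α²` and its derivatives -/
noncomputable def q0 (Y α : ℝ) : ℝ := Y ^ 2 * (dil 0 (ch Y) α - dil 1 (ch Y) α)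

noncomputable def q1 (Y α : ℝ) : ℝ := Y ^ 2 * (dil 1 (deriv (ch Y)) α - dil 2 (deriv (ch Y)) α)

noncomputable def q2 (Y α : ℝ) : ℝ :=
  Y ^ 2 * (dil 2 (deriv (deriv (ch Y))) α - dil 3 (deriv (deriv (ch Y))) α)

lemma ch_cd1 (Y : ℝ) : ContDiff ℝ (⊤ : ℕ∞) (deriv (ch Y)) := (contDiff_infty_iff_deriv.1 (ch_cd Y)).2

lemma ch_cd2 (Y : ℝ) : ContDiff ℝ (⊤ : ℕ∞) (deriv (deriv (ch Y))) :=
  (contDiff_infty_iff_deriv.1 (ch_cd1 Y)).2

lemma q0_cd (Y : ℝ) : ContDiff ℝ (⊤ : ℕ∞) (q0 Y) :=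
  contDiff_const.mul ((dil_contDiff 0 (ch_cd Y)).sub (dil_contDiff 1 (ch_cd Y)))

lemma q1_cd (Y : ℝ) : ContDiff ℝ (⊤ : ℕ∞) (q1 Y) :=
  contDiff_const.mul ((dil_contDiff 1 (ch_cd1 Y)).sub (dil_contDiff 2 (ch_cd1 Y)))

lemma q2_cd (Y : ℝ) : ContDiff ℝ (⊤ : ℕ∞) (q2 Y) :=
  contDiff_const.mul ((dil_contDiff 2 (ch_cd2 Y)).sub (dil_contDiff 3 (ch_cd2 Y)))

lemma q0_deriv (Y α : ℝ) : HasDerivAt (q0 Y) (q1 Y α) α :=
  ((dil_deriv 0 (ch_cd Y) α).sub (dil_deriv 1 (ch_cd Y) α)).const_mul (Y ^ 2)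

lemma q1_deriv (Y α : ℝ) : HasDerivAt (q1 Y) (q2 Y α) α :=
  ((dil_deriv 1 (ch_cd1 Y) α).sub (dil_deriv 2 (ch_cd1 Y) α)).const_mul (Y ^ 2)

/-- the common bound -/
noncomputable def qb (Y : ℝ) : ℝ := 2 * Y ^ 2 * (1 + Y ^ 2) * Real.exp (11 / 20 * |Y|)

lemma qb_nonneg (Y : ℝ) : 0 ≤ qb Y := by unfold qb; positivity

lemma exp_small {Y α t : ℝ} (hα : |α| ≤ 11 / 20) (ht : t ∈ Icc (0 : ℝ) 1) :
    Real.exp |Y * (t * α)| ≤ Real.exp (11 / 20 * |Y|) := by
  apply Real.exp_le_exp.2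
  rw [abs_mul, abs_mul, abs_of_nonneg ht.1]
  have h1 := abs_nonneg Y
  have h2 := abs_nonneg α
  have h3 : t * |α| ≤ 11 / 20 := by
    have := ht.2
    nlinarith
  nlinarith

lemma q0_bound {Y α : ℝ} (hα : |α| ≤ 11 / 20) : |q0 Y α| ≤ qb Y := by
  have h : ∀ k, |dil k (ch Y) α| ≤ Real.exp (11 / 20 * |Y|) := fun k =>
    dil_bound k fun t ht => (cosh_le_exp _).trans (exp_small hα ht)
  unfold q0 qb
  rw [abs_mul, abs_of_nonneg (sq_nonneg Y)]
  have h1 := abs_sub (dil 0 (ch Y) α) (dil 1 (ch Y) α)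
  have h2 := h 0
  have h3 := h 1
  have h4 := Real.exp_pos (11 / 20 * |Y|)
  have h5 : |dil 0 (ch Y) α - dil 1 (ch Y) α| ≤ 2 * (1 + Y ^ 2) * Real.exp (11 / 20 * |Y|) := by
    nlinarith [sq_nonneg Y]
  calc Y ^ 2 * |dil 0 (ch Y) α - dil 1 (ch Y) α| ≤
      Y ^ 2 * (2 * (1 + Y ^ 2) * Real.exp (11 / 20 * |Y|)) :=
        mul_le_mul_of_nonneg_left h5 (sq_nonneg Y)
    _ = _ := by ring

lemma q1_bound {Y α : ℝ} (hα : |α| ≤ 11 / 20) : |q1 Y α| ≤ qb Y := by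
  have h : ∀ k, |dil k (deriv (ch Y)) α| ≤ (1 + Y ^ 2) * Real.exp (11 / 20 * |Y|) := fun k =>
    dil_bound k fun t ht => by
      rw [ch_deriv]
      simp only
      rw [abs_mul]
      have h1 := (sinh_le_exp (Y * (t * α))).trans (exp_small hα ht)
      have h2 : |Y| ≤ 1 + Y ^ 2 := by
        rw [← sq_abs Y]
        nlinarith [sq_nonneg (|Y| - 1), abs_nonneg Y]
      exact mul_le_mul h2 h1 (abs_nonneg _) (by positivity)
  unfold q1 qb
  rw [abs_mul, abs_of_nonneg (sq_nonneg Y)]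
  have h1 := abs_sub (dil 1 (deriv (ch Y)) α) (dil 2 (deriv (ch Y)) α)
  have h2 := h 1
  have h3 := h 2
  calc Y ^ 2 * |dil 1 (deriv (ch Y)) α - dil 2 (deriv (ch Y)) α| ≤
      Y ^ 2 * (2 * ((1 + Y ^ 2) * Real.exp (11 / 20 * |Y|))) :=
        mul_le_mul_of_nonneg_left (by linarith) (sq_nonneg Y)
    _ = _ := by ring

lemma q2_bound {Y α : ℝ} (hα : |α| ≤ 11 / 20) : |q2 Y α| ≤ qb Y := by
  have h : ∀ k, |dil k (deriv (deriv (ch Y))) α| ≤ (1 + Y ^ 2) * Real.exp (11 / 20 * |Y|) :=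
    fun k => dil_bound k fun t ht => by
      rw [ch_deriv2]
      simp only
      rw [abs_mul, abs_of_nonneg (sq_nonneg Y)]
      have h1 := (cosh_le_exp (Y * (t * α))).trans (exp_small hα ht)
      have h2 : Y ^ 2 ≤ 1 + Y ^ 2 := by linarith
      exact mul_le_mul h2 h1 (abs_nonneg _) (by positivity)
  unfold q2 qb
  rw [abs_mul, abs_of_nonneg (sq_nonneg Y)]
  have h1 := abs_sub (dil 2 (deriv (deriv (ch Y))) α) (dil 3 (deriv (deriv (ch Y))) α)
  have h2 := h 2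
  have h3 := h 3
  calc Y ^ 2 * |dil 2 (deriv (deriv (ch Y))) α - dil 3 (deriv (deriv (ch Y))) α| ≤
      Y ^ 2 * (2 * ((1 + Y ^ 2) * Real.exp (11 / 20 * |Y|))) :=
        mul_le_mul_of_nonneg_left (by linarith) (sq_nonneg Y)
    _ = _ := by ring

/-- the defining property -/
lemma q0_mul (Y α : ℝ) : α ^ 2 * q0 Y α = Real.cosh (Y * α) - 1 := by
  have h1 : ∀ t : ℝ, HasDerivAt (fun t : ℝ => (1 - t) * (Y * α * Real.sinh (t * (Y * α))) +
      Real.cosh (t * (Y * α))) ((1 - t) * ((Y * α) ^ 2 * Real.cosh (t * (Y * α)))) t := by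
    intro t
    have e1 : HasDerivAt (fun t : ℝ => t * (Y * α)) (Y * α) t := by
      simpa using (hasDerivAt_id t).mul_const (Y * α)
    have e2 : HasDerivAt (fun t : ℝ => 1 - t) (-1) t := by
      simpa using (hasDerivAt_id t).const_sub 1
    have e3 := (e2.mul (e1.sinh.const_mul (Y * α))).add e1.cosh
    refine e3.congr_deriv ?_
    ring
  have h2 := intervalIntegral.integral_eq_sub_of_hasDerivAt (a := 0) (b := 1)
    (fun t _ => h1 t) (by
      apply Continuous.intervalIntegrable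
      have := Real.continuous_cosh
      fun_prop)
  have hc : Continuous (ch Y) := (ch_cd Y).continuous
  have h3 : q0 Y α = Y ^ 2 * ∫ t in (0 : ℝ)..1, (1 - t) * Real.cosh (t * (Y * α)) := by
    unfold q0 dil
    rw [← intervalIntegral.integral_sub]
    · congr 1
      apply intervalIntegral.integral_congr
      intro t _
      simp only [ch]
      have : Y * (t * α) = t * (Y * α) := by ring
      rw [this]
      ring
    · exact Continuous.intervalIntegrable (by fun_prop) _ _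
    · exact Continuous.intervalIntegrable (by fun_prop) _ _
  have h4 : α ^ 2 * q0 Y α = ∫ t in (0 : ℝ)..1, (1 - t) * ((Y * α) ^ 2 * Real.cosh (t * (Y * α))) := by
    rw [h3, ← mul_assoc, ← intervalIntegral.integral_const_mul]
    apply intervalIntegral.integral_congr
    intro t _
    simp only
    ring
  rw [h4, h2]
  simp

/-- the product of a cut-off and of two such functions -/
lemma kq_TF {g : ℝ → ℝ} (hg : TF (11 / 20) g) (Y Y' : ℝ) :
    TF (11 / 20) (fun α => g α * (q0 Y α * q0 Y' α)) :=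
  ⟨hg.cd.mul ((q0_cd Y).mul (q0_cd Y')), fun α hα => by rw [hg.supp α hα, zero_mul]⟩

/-- uniform decay of the transform -/
theorem kq_decay {g : ℝ → ℝ} (hg : TF (11 / 20) g) : ∃ C : ℝ, 0 < C ∧ ∀ Y Y' u : ℝ,
    |bl (fun α => g α * (q0 Y α * q0 Y' α)) u| * (1 + (2 * Real.pi * u) ^ 2) ≤
      C * (qb Y * qb Y') := by
  obtain ⟨G0, hG0, hb0⟩ := hg.bdd
  obtain ⟨G1, hG1, hb1⟩ := hg.deriv.bdd
  obtain ⟨G2, hG2, hb2⟩ := hg.deriv.deriv.bdd
  refine ⟨11 / 10 * (G0 + (G2 + 4 * G1 + 4 * G0)), by positivity, fun Y Y' u => ?_⟩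
  set k : ℝ → ℝ := fun α => g α * (q0 Y α * q0 Y' α) with hk
  have hkTF : TF (11 / 20) k := kq_TF hg Y Y'
  set B := qb Y * qb Y' with hB
  have hB0 : 0 ≤ B := mul_nonneg (qb_nonneg _) (qb_nonneg _)
  -- the derivatives
  have hd1 : deriv k = fun α => deriv g α * (q0 Y α * q0 Y' α) +
      g α * (q1 Y α * q0 Y' α + q0 Y α * q1 Y' α) := by
    funext α
    exact ((hg.hasDeriv α).mul ((q0_deriv Y α).mul (q0_deriv Y' α))).deriv
  have hd2 : deriv (deriv k) = fun α => deriv (deriv g) α * (q0 Y α * q0 Y' α) +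
      deriv g α * (q1 Y α * q0 Y' α + q0 Y α * q1 Y' α) +
      (deriv g α * (q1 Y α * q0 Y' α + q0 Y α * q1 Y' α) +
      g α * ((q2 Y α * q0 Y' α + q1 Y α * q1 Y' α) + (q1 Y α * q1 Y' α + q0 Y α * q2 Y' α))) := by
    rw [hd1]
    funext α
    have e1 := (hg.deriv.hasDeriv α).mul ((q0_deriv Y α).mul (q0_deriv Y' α))
    have e2 := (hg.hasDeriv α).mul (((q1_deriv Y α).mul (q0_deriv Y' α)).add
      ((q0_deriv Y α).mul (q1_deriv Y' α)))
    exact (e1.add e2).deriv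
  have hp : ∀ {a b A' B' : ℝ}, |a| ≤ A' → |b| ≤ B' → |a * b| ≤ A' * B' := by
    intro a b A' B' h1 h2
    rw [abs_mul]
    exact mul_le_mul h1 h2 (abs_nonneg _) ((abs_nonneg _).trans h1)
  have hk0 : ∀ α, |α| ≤ 11 / 20 → |k α| ≤ G0 * B := by
    intro α hα
    exact hp (hb0 α) (hp (q0_bound hα) (q0_bound hα))
  have hk2 : ∀ α, |α| ≤ 11 / 20 → |deriv (deriv k) α| ≤ (G2 + 4 * G1 + 4 * G0) * B := by
    intro α hα
    rw [hd2]
    simp only
    have a0 : |q0 Y α| ≤ qb Y := q0_bound hα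
    have a1 : |q1 Y α| ≤ qb Y := q1_bound hα
    have a2 : |q2 Y α| ≤ qb Y := q2_bound hα
    have b0 : |q0 Y' α| ≤ qb Y' := q0_bound hα
    have b1 : |q1 Y' α| ≤ qb Y' := q1_bound hα
    have b2 : |q2 Y' α| ≤ qb Y' := q2_bound hα
    have c1 : |q1 Y α * q0 Y' α + q0 Y α * q1 Y' α| ≤ 2 * B :=
      (abs_add_le _ _).trans (by linarith [hp a1 b0, hp a0 b1])
    have c2 : |(q2 Y α * q0 Y' α + q1 Y α * q1 Y' α) + (q1 Y α * q1 Y' α + q0 Y α * q2 Y' α)| ≤
        4 * B := by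
      refine (abs_add_le _ _).trans ?_
      have d1 := abs_add_le (q2 Y α * q0 Y' α) (q1 Y α * q1 Y' α)
      have d2 := abs_add_le (q1 Y α * q1 Y' α) (q0 Y α * q2 Y' α)
      linarith [hp a2 b0, hp a1 b1, hp a0 b2]
    have e1 := hp (hb2 α) (hp a0 b0)
    have e2 := hp (hb1 α) c1
    have e3 := hp (hb0 α) c2
    refine (abs_add_le _ _).trans ?_
    have f1 := abs_add_le (deriv (deriv g) α * (q0 Y α * q0 Y' α))
      (deriv g α * (q1 Y α * q0 Y' α + q0 Y α * q1 Y' α))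
    have f2 := abs_add_le (deriv g α * (q1 Y α * q0 Y' α + q0 Y α * q1 Y' α))
      (g α * ((q2 Y α * q0 Y' α + q1 Y α * q1 Y' α) + (q1 Y α * q1 Y' α + q0 Y α * q2 Y' α)))
    linarith
  have hint : ∀ {f : ℝ → ℝ}, TF (11 / 20) f → ∀ M : ℝ, 0 ≤ M → (∀ α, |α| ≤ 11 / 20 → |f α| ≤ M) →
      ∫ α, |f α| ≤ 11 / 10 * M := by
    intro f hf M hM h
    have h1 : ∫ α, |f α| ≤ ∫ α, (Icc (-(11 / 20) : ℝ) (11 / 20)).indicator (fun _ => M) α := by
      apply integral_mono hf.integrable.abs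
        ((integrable_indicator_iff measurableSet_Icc).2 (integrableOn_const measure_Icc_lt_top.ne))
      intro α
      by_cases hα : |α| ≤ 11 / 20
      · rw [indicator_of_mem (show α ∈ Icc (-(11 / 20) : ℝ) (11 / 20) from abs_le.1 hα)]
        exact h α hα
      · have h2 : f α = 0 := hf.supp α (not_le.1 hα)
        show |f α| ≤ _
        rw [h2, abs_zero]
        exact indicator_nonneg (fun _ _ => hM) _
    refine h1.trans (le_of_eq ?_)
    rw [integral_indicator measurableSet_Icc, setIntegral_const, Real.volume_real_Icc, smul_eq_mul,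
      max_eq_left (by norm_num)]
    ring
  have h1 := (bl_bound hkTF u).trans (hint hkTF (G0 * B) (by positivity) hk0)
  have h2 := (bl_bound hkTF.deriv.deriv u).trans
    (hint hkTF.deriv.deriv ((G2 + 4 * G1 + 4 * G0) * B) (by positivity) hk2)
  rw [bl_deriv2 hkTF u, abs_mul, abs_neg, abs_of_nonneg (sq_nonneg _)] at h2
  calc |bl k u| * (1 + (2 * Real.pi * u) ^ 2) = |bl k u| + (2 * Real.pi * u) ^ 2 * |bl k u| := by ring
    _ ≤ 11 / 10 * (G0 * B) + 11 / 10 * ((G2 + 4 * G1 + 4 * G0) * B) := add_le_add h1 h2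
    _ = _ := by ring

end Pool.Agent.E8helper72.PC
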