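import Pool.Agent.E8helper72.PC.UpA
import Pool.Agent.E8helper72.PC.ZBlock

/-! # The contribution of the zeros off the line, weighted by `α⁻⁴` -/

set_option autoImplicit false

namespace Pool.Agent.E8helper72.PC

open MeasureTheory Set Filter Topology Complex
open H370 (Zf mult mem_Zf good_zeta zset NN NN_eq)
open Pool.Agent.Y750.OM (GG JB JD DD cfac bw NO)

/-- the normalised distance from the critical line -/
noncomputable def yv (L : ℝ) (s : ℂ) : ℝ := (s.re - 1 / 2) * L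

/-- the quadratic part -/
noncomputable def JM (S : Finset ℂ) (m : ℂ → ℝ) (L α : ℝ) : ℝ :=
  JB S (fun s => m s * q0 (yv L s) α) (α * L)

lemma JM_nonneg (S : Finset ℂ) (m : ℂ → ℝ) (L α : ℝ) : 0 ≤ JM S m L α :=
  integral_nonneg fun t => by positivity

lemma JM_eq (S : Finset ℂ) (m : ℂ → ℝ) (L α : ℝ) : JM S m L α = Real.sqrt Real.pi *
    ∑ s ∈ S, ∑ s' ∈ S, (m s * m s' * Real.exp (-(s.im - s'.im) ^ 2 / 4)) *
      ((q0 (yv L s) α * q0 (yv L s') α) * Real.cos (α * (L * (s.im - s'.im)))) := by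
  unfold JM
  rw [Pool.Agent.Y750.OM.JB_eq]
  congr 1
  apply Finset.sum_congr rfl
  intro s _
  apply Finset.sum_congr rfl
  intro s' _
  have : α * L * (s.im - s'.im) = α * (L * (s.im - s'.im)) := by ring
  rw [this]
  ring

lemma JM_cont (S : Finset ℂ) (m : ℂ → ℝ) (L : ℝ) : Continuous (JM S m L) := by
  have h : JM S m L = fun α => Real.sqrt Real.pi *
    ∑ s ∈ S, ∑ s' ∈ S, (m s * m s' * Real.exp (-(s.im - s'.im) ^ 2 / 4)) *
      ((q0 (yv L s) α * q0 (yv L s') α) * Real.cos (α * (L * (s.im - s'.im)))) :=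
    funext fun α => JM_eq S m L α
  rw [h]
  apply continuous_const.mul
  apply continuous_finsetSum
  intro s _
  apply continuous_finsetSum
  intro s' _
  have h1 := (q0_cd (yv L s)).continuous
  have h2 := (q0_cd (yv L s')).continuous
  fun_prop

/-- the weighted mean of the quadratic part -/
theorem JM_int {g : ℝ → ℝ} (hg : TF (11 / 20) g) : ∃ C : ℝ, 0 < C ∧
    ∀ (S : Finset ℂ) (m : ℂ → ℝ), (∀ s, 0 ≤ m s) → ∀ L : ℝ,
    ∫ α, g α * JM S m L α ≤ C * ∑ s ∈ S, ∑ s' ∈ S, (m s * qb (yv L s)) * (m s' * qb (yv L s')) *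
      (1 / (1 + (L * (s.im - s'.im)) ^ 2)) := by
  obtain ⟨C, hC, hdec⟩ := kq_decay hg
  refine ⟨Real.sqrt Real.pi * C, by positivity, fun S m hm L => ?_⟩
  have hpi := Real.pi_pos
  have hterm : ∀ s s' : ℂ, Integrable fun α : ℝ => g α * ((q0 (yv L s) α * q0 (yv L s') α) *
      Real.cos (α * (L * (s.im - s'.im)))) := by
    intro s s'
    have h1 := (kq_TF hg (yv L s) (yv L s')).int_mul (g := fun α : ℝ =>
      Real.cos (α * (L * (s.im - s'.im)))) (by fun_prop)
    refine h1.congr (Eventually.of_forall fun α => ?_)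
    simp only
    ring
  have hval : ∀ s s' : ℂ, ∫ α : ℝ, g α * ((q0 (yv L s) α * q0 (yv L s') α) *
      Real.cos (α * (L * (s.im - s'.im)))) =
      bl (fun α => g α * (q0 (yv L s) α * q0 (yv L s') α)) (L * (s.im - s'.im) / (2 * Real.pi)) := by
    intro s s'
    unfold bl
    congr 1
    funext α
    have : 2 * Real.pi * α * (L * (s.im - s'.im) / (2 * Real.pi)) = α * (L * (s.im - s'.im)) := by
      field_simp
    rw [this]
    ring
  have h1 : ∫ α, g α * JM S m L α = Real.sqrt Real.pi * ∑ s ∈ S, ∑ s' ∈ S,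
      (m s * m s' * Real.exp (-(s.im - s'.im) ^ 2 / 4)) *
      bl (fun α => g α * (q0 (yv L s) α * q0 (yv L s') α)) (L * (s.im - s'.im) / (2 * Real.pi)) := by
    have e1 : ∀ α, g α * JM S m L α = ∑ s ∈ S, ∑ s' ∈ S,
        (Real.sqrt Real.pi * (m s * m s' * Real.exp (-(s.im - s'.im) ^ 2 / 4))) *
        (g α * ((q0 (yv L s) α * q0 (yv L s') α) * Real.cos (α * (L * (s.im - s'.im))))) := by
      intro α
      rw [JM_eq, Finset.mul_sum, Finset.mul_sum]
      apply Finset.sum_congr rfl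
      intro s _
      rw [Finset.mul_sum, Finset.mul_sum]
      apply Finset.sum_congr rfl
      intro s' _
      ring
    simp_rw [e1]
    rw [integral_finsetSum _ fun s _ => integrable_finsetSum _ fun s' _ =>
      (hterm s s').const_mul _, Finset.mul_sum]
    apply Finset.sum_congr rfl
    intro s _
    rw [integral_finsetSum _ fun s' _ => (hterm s s').const_mul _, Finset.mul_sum]
    apply Finset.sum_congr rfl
    intro s' _
    rw [integral_const_mul, hval]
    ring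
  rw [h1, mul_assoc]
  apply mul_le_mul_of_nonneg_left _ (Real.sqrt_nonneg _)
  rw [Finset.mul_sum]
  apply Finset.sum_le_sum
  intro s _
  rw [Finset.mul_sum]
  apply Finset.sum_le_sum
  intro s' _
  have h2 := hdec (yv L s) (yv L s') (L * (s.im - s'.im) / (2 * Real.pi))
  have e2 : 2 * Real.pi * (L * (s.im - s'.im) / (2 * Real.pi)) = L * (s.im - s'.im) := by
    field_simp
  rw [e2] at h2
  set b := bl (fun α => g α * (q0 (yv L s) α * q0 (yv L s') α)) (L * (s.im - s'.im) / (2 * Real.pi))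
    with hb
  have h3 : |b| ≤ C * (qb (yv L s) * qb (yv L s')) * (1 / (1 + (L * (s.im - s'.im)) ^ 2)) := by
    rw [mul_one_div, le_div_iff₀ (by positivity)]
    exact h2
  have h4 : Real.exp (-(s.im - s'.im) ^ 2 / 4) ≤ 1 := by
    rw [Real.exp_le_one_iff]
    have := sq_nonneg (s.im - s'.im)
    linarith
  have hmm : 0 ≤ m s * m s' := mul_nonneg (hm s) (hm s')
  calc m s * m s' * Real.exp (-(s.im - s'.im) ^ 2 / 4) * b ≤
      m s * m s' * Real.exp (-(s.im - s'.im) ^ 2 / 4) * |b| :=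
        mul_le_mul_of_nonneg_left (le_abs_self b) (mul_nonneg hmm (Real.exp_pos _).le)
    _ ≤ m s * m s' * 1 * |b| := by gcongr
    _ ≤ m s * m s' * 1 * (C * (qb (yv L s) * qb (yv L s')) *
        (1 / (1 + (L * (s.im - s'.im)) ^ 2))) := by gcongr
    _ = _ := by ring

lemma qb_bw (L : ℝ) (s : ℂ) : qb (yv L s) ≤ 1602 * bw (3 / 5) L s := by
  unfold qb bw yv
  set Y := (s.re - 1 / 2) * L with hY
  have h1 : 1 + Y ^ 2 ≤ 801 * Real.exp (1 / 20 * |Y|) := by
    have h2 := Real.quadratic_le_exp_of_nonneg (x := 1 / 20 * |Y|) (by positivity)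
    have h3 : (1 / 20 * |Y|) ^ 2 = Y ^ 2 / 400 := by
      rw [mul_pow, sq_abs]; ring
    rw [h3] at h2
    have h4 : 0 ≤ 1 / 20 * |Y| := by positivity
    nlinarith [sq_nonneg Y]
  have h2 : Real.exp (3 / 5 * |Y|) = Real.exp (1 / 20 * |Y|) * Real.exp (11 / 20 * |Y|) := by
    rw [← Real.exp_add]
    congr 1
    ring
  rw [h2]
  have h3 : 0 ≤ Y ^ 2 * Real.exp (11 / 20 * |Y|) := by positivity
  nlinarith

lemma sinh_le_mul_cosh {x : ℝ} (hx : 0 ≤ x) : Real.sinh x ≤ x * Real.cosh x := by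
  have hd : ∀ y : ℝ, HasDerivAt (fun y : ℝ => y * Real.cosh y - Real.sinh y) (y * Real.sinh y) y := by
    intro y
    have h1 := ((hasDerivAt_id y).mul (Real.hasDerivAt_cosh y)).sub (Real.hasDerivAt_sinh y)
    refine h1.congr_deriv ?_
    simp only [id]
    ring
  have hm : MonotoneOn (fun y : ℝ => y * Real.cosh y - Real.sinh y) (Ici 0) := by
    apply monotoneOn_of_deriv_nonneg (convex_Ici 0)
      (continuous_iff_continuousAt.2 fun y => (hd y).continuousAt).continuousOn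
    · intro y _
      exact (hd y).differentiableAt.differentiableWithinAt
    · intro y hy
      rw [interior_Ici] at hy
      rw [(hd y).deriv]
      exact mul_nonneg (le_of_lt hy) (Real.sinh_nonneg_iff.2 (le_of_lt hy))
  have h2 := hm (Set.mem_Ici.2 le_rfl) (Set.mem_Ici.2 hx) hx
  simp only [zero_mul, Real.sinh_zero, sub_zero] at h2
  linarith

/-- the difference of the factor and its quadratic part -/
lemma cfac_diff {y v L α : ℝ} (hy : |y| ≤ 1 / 2) (hL : 1 ≤ L) (hα : |α| ≤ 1 / 2) :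
    ‖cfac y v L α - ((Real.cosh (y * L * α) - 1 : ℝ) : ℂ)‖ ≤
      2 / L * ((y * L) ^ 2 * Real.exp (1 / 2 * |y * L|)) * (1 + v ^ 2) := by
  have hL0 : 0 < L := by linarith
  set a : ℝ := y * L * α with ha
  set b : ℝ := y * v with hb
  have e1 : (y : ℂ) * (α * L + I * v) = (a : ℂ) + (b : ℂ) * I := by
    rw [ha, hb]
    push_cast
    ring
  have e2 : cfac y v L α - ((Real.cosh a - 1 : ℝ) : ℂ) =
      ((Real.exp (y ^ 2 / 2) - 1 : ℝ) : ℂ) * Complex.cosh ((a : ℂ) + (b : ℂ) * I) +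
      (((Real.cosh a * (Real.cos b - 1) : ℝ) : ℂ) + ((Real.sinh a * Real.sin b : ℝ) : ℂ) * I) := by
    unfold cfac
    rw [e1, Complex.cosh_add, Complex.cosh_mul_I, Complex.sinh_mul_I]
    push_cast
    ring
  have hE : Real.exp |a| ≤ Real.exp (1 / 2 * |y * L|) := by
    apply Real.exp_le_exp.2
    rw [ha, abs_mul]
    have := abs_nonneg (y * L)
    nlinarith
  set E := Real.exp (1 / 2 * |y * L|) with hEdef
  have hE0 : 0 < E := Real.exp_pos _
  have hcosh : ‖Complex.cosh ((a : ℂ) + (b : ℂ) * I)‖ ≤ E := by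
    rw [Complex.cosh_add, Complex.cosh_mul_I, Complex.sinh_mul_I]
    have h1 : ‖Complex.cosh (a : ℂ) * Complex.cos (b : ℂ) + Complex.sinh (a : ℂ) *
        (Complex.sin (b : ℂ) * I)‖ ^ 2 = Real.cosh a ^ 2 * Real.cos b ^ 2 +
        Real.sinh a ^ 2 * Real.sin b ^ 2 := by
      have e3 : Complex.cosh (a : ℂ) * Complex.cos (b : ℂ) + Complex.sinh (a : ℂ) *
        (Complex.sin (b : ℂ) * I) = ((Real.cosh a * Real.cos b : ℝ) : ℂ) +
        ((Real.sinh a * Real.sin b : ℝ) : ℂ) * I := by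
        push_cast
        ring
      rw [e3, ← Complex.normSq_eq_norm_sq, Complex.normSq_add_mul_I]
      ring
    have h2 : Real.sinh a ^ 2 ≤ Real.cosh a ^ 2 := by
      have := Real.cosh_sq a
      linarith
    have h3 : Real.cosh a ^ 2 * Real.cos b ^ 2 + Real.sinh a ^ 2 * Real.sin b ^ 2 ≤
        Real.cosh a ^ 2 := by
      have := Real.sin_sq_add_cos_sq b
      nlinarith [sq_nonneg (Real.sin b), sq_nonneg (Real.cos b)]
    have h4 : Real.cosh a ≤ E := ((le_abs_self _).trans (cosh_le_exp a)).trans hE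
    have h5 : Real.cosh a ^ 2 ≤ E ^ 2 := pow_le_pow_left₀ (Real.cosh_pos a).le h4 2
    exact abs_le_of_sq_le_sq' (by rw [h1]; linarith) hE0.le |>.2
  have hy2 : y ^ 2 ≤ 1 / 4 := by
    rw [← sq_abs]
    have := abs_nonneg y
    nlinarith
  have hexp : |Real.exp (y ^ 2 / 2) - 1| ≤ y ^ 2 := by
    have h1 : 0 ≤ y ^ 2 / 2 := by positivity
    have h2 := Real.one_le_exp h1
    rw [abs_of_nonneg (by linarith)]
    have h3 := Real.exp_bound_div_one_sub_of_interval h1 (by linarith)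
    have h4 : 1 / (1 - y ^ 2 / 2) ≤ 1 + y ^ 2 := by
      rw [div_le_iff₀ (by linarith)]
      nlinarith [sq_nonneg y]
    linarith
  have hcos : |Real.cos b - 1| ≤ b ^ 2 / 2 := by
    have h1 := Real.one_sub_sq_div_two_le_cos (x := b)
    have h2 := Real.cos_le_one b
    rw [abs_le]
    constructor <;> nlinarith [sq_nonneg b]
  have hsin : |Real.sin b| ≤ |b| := Real.abs_sin_le_abs
  have hsinh : |Real.sinh a| ≤ |a| * E := by
    have h1 : |Real.sinh a| ≤ |a| * Real.cosh a := by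
      rcases le_total 0 a with h | h
      · rw [abs_of_nonneg h, abs_of_nonneg (Real.sinh_nonneg_iff.2 h)]
        have h2 := sinh_le_mul_cosh h
        exact h2
      · rw [abs_of_nonpos h, abs_of_nonpos (Real.sinh_nonpos_iff.2 h)]
        have h2 := sinh_le_mul_cosh (neg_nonneg.2 h)
        rw [Real.sinh_neg, Real.cosh_neg] at h2
        exact h2
    have h4 : Real.cosh a ≤ E := ((le_abs_self _).trans (cosh_le_exp a)).trans hE
    exact h1.trans (mul_le_mul_of_nonneg_left h4 (abs_nonneg _))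
  have hcosha : |Real.cosh a| ≤ E := (cosh_le_exp a).trans hE
  rw [e2]
  have t1 : ‖((Real.exp (y ^ 2 / 2) - 1 : ℝ) : ℂ) * Complex.cosh ((a : ℂ) + (b : ℂ) * I)‖ ≤
      y ^ 2 * E := by
    rw [norm_mul, Complex.norm_real, Real.norm_eq_abs]
    exact mul_le_mul hexp hcosh (norm_nonneg _) (by positivity)
  have t2 : ‖((Real.cosh a * (Real.cos b - 1) : ℝ) : ℂ)‖ ≤ E * (b ^ 2 / 2) := by
    rw [Complex.norm_real, Real.norm_eq_abs, abs_mul]
    exact mul_le_mul hcosha hcos (abs_nonneg _) hE0.le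
  have t3 : ‖((Real.sinh a * Real.sin b : ℝ) : ℂ) * I‖ ≤ |a| * E * |b| := by
    rw [norm_mul, Complex.norm_I, mul_one, Complex.norm_real, Real.norm_eq_abs, abs_mul]
    exact mul_le_mul hsinh hsin (abs_nonneg _) (by positivity)
  have hab : |a| * |b| ≤ y ^ 2 * L * |v| / 2 := by
    rw [ha, hb, abs_mul, abs_mul, abs_mul, abs_of_pos hL0]
    have h1 : |y| * |y| = y ^ 2 := by rw [← sq, sq_abs]
    have h2 : |y| * L * |α| * (|y| * |v|) = |α| * (|y| * |y| * L * |v|) := by ring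
    rw [h2, h1]
    have h3 : 0 ≤ y ^ 2 * L * |v| := by positivity
    nlinarith
  have hv : |v| ≤ (1 + v ^ 2) / 2 := by
    rw [← sq_abs v]
    nlinarith [sq_nonneg (|v| - 1)]
  have hfin : y ^ 2 + b ^ 2 / 2 + |a| * |b| ≤ 2 / L * (y * L) ^ 2 * (1 + v ^ 2) := by
    have e3 : 2 / L * (y * L) ^ 2 * (1 + v ^ 2) = 2 * y ^ 2 * L * (1 + v ^ 2) := by
      field_simp
    rw [e3, hb]
    have h1 : 0 ≤ y ^ 2 := sq_nonneg y
    have h2 : 0 ≤ v ^ 2 := sq_nonneg v
    have h3 : y ^ 2 * L * |v| ≤ y ^ 2 * L * ((1 + v ^ 2) / 2) :=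
      mul_le_mul_of_nonneg_left hv (by positivity)
    have h4 : y ^ 2 ≤ y ^ 2 * L := le_mul_of_one_le_right h1 hL
    have h5 : y ^ 2 * v ^ 2 ≤ y ^ 2 * L * v ^ 2 := mul_le_mul_of_nonneg_right h4 h2
    nlinarith
  calc _ ≤ y ^ 2 * E + (E * (b ^ 2 / 2) + |a| * E * |b|) :=
        (norm_add_le _ _).trans (add_le_add t1 ((norm_add_le _ _).trans (add_le_add t2 t3)))
    _ = (y ^ 2 + b ^ 2 / 2 + |a| * |b|) * E := by ring
    _ ≤ (2 / L * (y * L) ^ 2 * (1 + v ^ 2)) * E := mul_le_mul_of_nonneg_right hfin hE0.le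
    _ = _ := by ring

end Pool.Agent.E8helper72.PC
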