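import Pool.Agent.E8helper72.PC.UpB

/-! # Splitting of the off-line part -/

set_option autoImplicit false

namespace Pool.Agent.E8helper72.PC

open MeasureTheory Set Filter Topology Complex
open H370 (Zf mult mem_Zf good_zeta zset NN NN_eq)
open Pool.Agent.Y750.OM (GG JB JD DD cfac bw NO)

lemma gauss2 (x x' : ℝ) : Integrable (fun t : ℝ => Real.exp (-(x - t) ^ 2 / 4) *
    Real.exp (-(x' - t) ^ 2 / 4)) ∧ ∫ t : ℝ, Real.exp (-(x - t) ^ 2 / 4) *
    Real.exp (-(x' - t) ^ 2 / 4) ≤ 96 * (1 / (1 + (x - x') ^ 2)) := by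
  have hpi := Real.pi_lt_four
  have hpi0 := Real.pi_pos
  have hb : ∀ t : ℝ, Real.exp (-(x - t) ^ 2 / 4) * Real.exp (-(x' - t) ^ 2 / 4) ≤
      16 * (1 / (1 + (x - x') ^ 2)) * Real.exp (-(1 / 8) * (t - x) ^ 2) := by
    intro t
    rw [← Real.exp_add]
    have h1 : -(x - t) ^ 2 / 4 + -(x' - t) ^ 2 / 4 ≤ -(x - x') ^ 2 / 16 + -(1 / 8) * (t - x) ^ 2 := by
      nlinarith [sq_nonneg ((x - t) + (x' - t)), sq_nonneg (x' - t)]
    have h2 : Real.exp (-(x - x') ^ 2 / 16) ≤ 16 * (1 / (1 + (x - x') ^ 2)) := by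
      rw [mul_one_div, le_div_iff₀ (by positivity)]
      have h3 : Real.exp (-(x - x') ^ 2 / 16) * Real.exp ((x - x') ^ 2 / 16) = 1 := by
        rw [← Real.exp_add]
        have : -(x - x') ^ 2 / 16 + (x - x') ^ 2 / 16 = 0 := by ring
        rw [this, Real.exp_zero]
      have h4 := Real.add_one_le_exp ((x - x') ^ 2 / 16)
      have h5 := Real.exp_pos (-(x - x') ^ 2 / 16)
      nlinarith [sq_nonneg (x - x')]
    calc Real.exp (-(x - t) ^ 2 / 4 + -(x' - t) ^ 2 / 4) ≤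
        Real.exp (-(x - x') ^ 2 / 16 + -(1 / 8) * (t - x) ^ 2) := Real.exp_le_exp.2 h1
      _ = Real.exp (-(x - x') ^ 2 / 16) * Real.exp (-(1 / 8) * (t - x) ^ 2) := Real.exp_add _ _
      _ ≤ _ := mul_le_mul_of_nonneg_right h2 (Real.exp_pos _).le
  have hgi : Integrable fun t : ℝ => Real.exp (-(1 / 8) * (t - x) ^ 2) :=
    (integrable_exp_neg_mul_sq (b := 1 / 8) (by norm_num)).comp_sub_right x
  have hg : ∫ t : ℝ, Real.exp (-(1 / 8) * (t - x) ^ 2) ≤ 6 := by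
    rw [integral_sub_right_eq_self (fun t : ℝ => Real.exp (-(1 / 8) * t ^ 2)), integral_gaussian]
    rw [Real.sqrt_le_left (by norm_num)]
    linarith
  have hi : Integrable (fun t : ℝ => Real.exp (-(x - t) ^ 2 / 4) *
      Real.exp (-(x' - t) ^ 2 / 4)) := by
    refine (hgi.const_mul (16 * (1 / (1 + (x - x') ^ 2)))).mono' (by fun_prop)
      (Eventually.of_forall fun t => ?_)
    rw [Real.norm_of_nonneg (by positivity)]
    exact hb t
  refine ⟨hi, ?_⟩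
  calc ∫ t : ℝ, Real.exp (-(x - t) ^ 2 / 4) * Real.exp (-(x' - t) ^ 2 / 4) ≤
      ∫ t : ℝ, 16 * (1 / (1 + (x - x') ^ 2)) * Real.exp (-(1 / 8) * (t - x) ^ 2) :=
        integral_mono hi (hgi.const_mul _) hb
    _ = 16 * (1 / (1 + (x - x') ^ 2)) * ∫ t : ℝ, Real.exp (-(1 / 8) * (t - x) ^ 2) :=
        integral_const_mul _ _
    _ ≤ 16 * (1 / (1 + (x - x') ^ 2)) * 6 := mul_le_mul_of_nonneg_left hg (by positivity)
    _ = _ := by ring

/-- the off-line part at one frequency -/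
theorem JD_le {A B : ℝ} (hA : 1 ≤ A) {L α : ℝ} (hL : 1 ≤ L) (hα : |α| ≤ 1 / 2) :
    JD (Zf riemannZeta A B) (fun s => (mult riemannZeta s : ℝ)) L α ≤
      2 * α ^ 4 * JM (Zf riemannZeta A B) (fun s => (mult riemannZeta s : ℝ)) L α +
      12288 / L ^ 2 * ∑ s ∈ Zf riemannZeta A B, ∑ s' ∈ Zf riemannZeta A B,
        ((mult riemannZeta s : ℝ) * bw (1 / 2) L s) *
        ((mult riemannZeta s' : ℝ) * bw (1 / 2) L s') * (1 / (1 + (s.im - s'.im) ^ 2)) := by
  have hL0 : 0 < L := by linarith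
  set S := Zf riemannZeta A B with hS
  set m : ℂ → ℝ := fun s => (mult riemannZeta s : ℝ) with hm
  have hm0 : ∀ s, 0 ≤ m s := fun s => Nat.cast_nonneg _
  have hDi := Pool.Agent.Y750.OM.DD_int (B := B) hA L α
  have hGi := (Pool.Agent.Y750.OM.GG_sq S (fun s => ((m s * q0 (yv L s) α : ℝ) : ℂ))
    (fun s => (s.im : ℂ)) (α * L)).1
  set G : ℝ → ℂ := fun t => GG S (fun s => ((m s * q0 (yv L s) α : ℝ) : ℂ))
    (fun s => (s.im : ℂ)) (α * L) t with hG
  set c : ℂ → ℝ := fun s => 8 / L * (m s * bw (1 / 2) L s) with hc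
  have hc0 : ∀ s, 0 ≤ c s := fun s => by
    have h1 := hm0 s
    have h2 := Pool.Agent.Y750.OM.bw_nonneg (1 / 2) L s
    simp only [hc]
    positivity
  -- the remainder
  have hR : ∀ t : ℝ, ‖DD S m L α t - ((α ^ 2 : ℝ) : ℂ) * G t‖ ≤
      ∑ s ∈ S, c s * Real.exp (-(s.im - t) ^ 2 / 4) := by
    intro t
    have e1 : DD S m L α t - ((α ^ 2 : ℝ) : ℂ) * G t = ∑ s ∈ S, (m s : ℂ) *
        ((Real.exp (-(s.im - t) ^ 2 / 2) : ℂ) *
        ((cfac (s.re - 1 / 2) (s.im - t) L α - ((Real.cosh (yv L s * α) - 1 : ℝ) : ℂ)) *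
          cexp (I * (α * (L * s.im) : ℝ)))) := by
      simp only [hG]
      unfold DD GG
      rw [Finset.mul_sum, ← Finset.sum_sub_distrib]
      apply Finset.sum_congr rfl
      intro s _
      have h1 : ((Real.cosh (yv L s * α) - 1 : ℝ) : ℂ) = ((α ^ 2 : ℝ) : ℂ) *
          ((q0 (yv L s) α : ℝ) : ℂ) := by
        rw [← q0_mul]
        push_cast
        ring
      have h2 : ((Real.exp (-(s.im - t) ^ 2 / 2) : ℝ) : ℂ) = cexp (-((s.im : ℂ) - t) ^ 2 / 2) := by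
        push_cast
        rfl
      have h3 : cexp (I * (α * (L * s.im) : ℝ)) = cexp (I * ((α * L : ℝ) : ℂ) * (s.im : ℂ)) := by
        congr 1
        push_cast
        ring
      rw [h1, h2, h3]
      push_cast
      ring
    rw [e1]
    refine (norm_sum_le _ _).trans (Finset.sum_le_sum fun s hs => ?_)
    rw [hS, mem_Zf good_zeta hA] at hs
    have hy : |s.re - 1 / 2| ≤ 1 / 2 := by
      rw [abs_le]
      constructor <;> linarith [hs.1, hs.2.1]
    have h1 := cfac_diff (v := s.im - t) hy hL hα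
    rw [norm_mul, norm_mul, norm_mul, Complex.norm_real, Complex.norm_real, Real.norm_eq_abs,
      Real.norm_eq_abs, abs_of_nonneg (hm0 s), abs_of_pos (Real.exp_pos _),
      show I * ((α * (L * s.im) : ℝ) : ℂ) = ((α * (L * s.im) : ℝ) : ℂ) * I by ring,
      Complex.norm_exp_ofReal_mul_I, mul_one]
    have h2 := Pool.Agent.Y750.OM.v_le (s.im - t)
    have h3 : 0 ≤ bw (1 / 2) L s := Pool.Agent.Y750.OM.bw_nonneg _ _ _
    have h4 := hm0 s
    have e2 : yv L s * α = (s.re - 1 / 2) * L * α := rfl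
    rw [e2]
    calc m s * (Real.exp (-(s.im - t) ^ 2 / 2) * ‖cfac (s.re - 1 / 2) (s.im - t) L α -
          ((Real.cosh ((s.re - 1 / 2) * L * α) - 1 : ℝ) : ℂ)‖) ≤
        m s * (Real.exp (-(s.im - t) ^ 2 / 2) * (2 / L * bw (1 / 2) L s *
          (1 + (s.im - t) ^ 2))) := by
          unfold bw
          gcongr
      _ = 2 / L * (m s * bw (1 / 2) L s) *
          ((1 + (s.im - t) ^ 2) * Real.exp (-(s.im - t) ^ 2 / 2)) := by ring
      _ ≤ 2 / L * (m s * bw (1 / 2) L s) * (4 * Real.exp (-(s.im - t) ^ 2 / 4)) := by gcongr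
      _ = _ := by simp only [hc]; ring
  have hpt : ∀ t : ℝ, ‖DD S m L α t‖ ^ 2 ≤ 2 * α ^ 4 * ‖G t‖ ^ 2 + 2 * ∑ s ∈ S, ∑ s' ∈ S,
      (c s * c s') * (Real.exp (-(s.im - t) ^ 2 / 4) * Real.exp (-(s'.im - t) ^ 2 / 4)) := by
    intro t
    have h1 := hR t
    have e1 : DD S m L α t = ((α ^ 2 : ℝ) : ℂ) * G t + (DD S m L α t - ((α ^ 2 : ℝ) : ℂ) * G t) := by
      ring
    have h2 : ‖DD S m L α t‖ ≤ α ^ 2 * ‖G t‖ + ‖DD S m L α t - ((α ^ 2 : ℝ) : ℂ) * G t‖ := by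
      calc ‖DD S m L α t‖ = ‖((α ^ 2 : ℝ) : ℂ) * G t + (DD S m L α t - ((α ^ 2 : ℝ) : ℂ) * G t)‖ := by
            rw [← e1]
        _ ≤ ‖((α ^ 2 : ℝ) : ℂ) * G t‖ + ‖DD S m L α t - ((α ^ 2 : ℝ) : ℂ) * G t‖ := norm_add_le _ _
        _ = _ := by
            rw [norm_mul, Complex.norm_real, Real.norm_eq_abs, abs_of_nonneg (sq_nonneg α)]
    have h3 : (∑ s ∈ S, c s * Real.exp (-(s.im - t) ^ 2 / 4)) ^ 2 = ∑ s ∈ S, ∑ s' ∈ S,
        (c s * c s') * (Real.exp (-(s.im - t) ^ 2 / 4) * Real.exp (-(s'.im - t) ^ 2 / 4)) := by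
      rw [sq, Finset.sum_mul_sum]
      apply Finset.sum_congr rfl
      intro s _
      apply Finset.sum_congr rfl
      intro s' _
      ring
    rw [← h3]
    set P := ‖DD S m L α t - ((α ^ 2 : ℝ) : ℂ) * G t‖ with hP
    set Q := ∑ s ∈ S, c s * Real.exp (-(s.im - t) ^ 2 / 4) with hQ
    have hP0 : 0 ≤ P := norm_nonneg _
    have hPQ : P ^ 2 ≤ Q ^ 2 := pow_le_pow_left₀ hP0 h1 2
    have h4 : ‖DD S m L α t‖ ^ 2 ≤ (α ^ 2 * ‖G t‖ + P) ^ 2 :=
      pow_le_pow_left₀ (norm_nonneg _) h2 2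
    nlinarith [sq_nonneg (α ^ 2 * ‖G t‖ - P)]
  have hRi : Integrable fun t : ℝ => ∑ s ∈ S, ∑ s' ∈ S,
      (c s * c s') * (Real.exp (-(s.im - t) ^ 2 / 4) * Real.exp (-(s'.im - t) ^ 2 / 4)) :=
    integrable_finsetSum _ fun s _ => integrable_finsetSum _ fun s' _ =>
      (gauss2 s.im s'.im).1.const_mul _
  have h1 : JD S m L α ≤ 2 * α ^ 4 * JM S m L α + 2 * ∑ s ∈ S, ∑ s' ∈ S,
      (c s * c s') * (96 * (1 / (1 + (s.im - s'.im) ^ 2))) := by
    have e0 : JM S m L α = ∫ t : ℝ, ‖G t‖ ^ 2 := rfl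
    rw [e0]
    unfold JD
    calc ∫ t : ℝ, ‖DD S m L α t‖ ^ 2 ≤ ∫ t : ℝ, (2 * α ^ 4 * ‖G t‖ ^ 2 + 2 * ∑ s ∈ S, ∑ s' ∈ S,
          (c s * c s') * (Real.exp (-(s.im - t) ^ 2 / 4) * Real.exp (-(s'.im - t) ^ 2 / 4))) :=
          integral_mono hDi ((hGi.const_mul _).add (hRi.const_mul _)) hpt
      _ = (2 * α ^ 4 * ∫ t : ℝ, ‖G t‖ ^ 2) + 2 * ∫ t : ℝ, ∑ s ∈ S, ∑ s' ∈ S,
          (c s * c s') * (Real.exp (-(s.im - t) ^ 2 / 4) * Real.exp (-(s'.im - t) ^ 2 / 4)) := by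
          have e := integral_add (hGi.const_mul (2 * α ^ 4)) (hRi.const_mul 2)
          rw [integral_const_mul, integral_const_mul] at e
          exact e
      _ ≤ _ := by
          apply add_le_add_right
          apply mul_le_mul_of_nonneg_left _ (by norm_num)
          rw [integral_finsetSum _ fun s _ => integrable_finsetSum _ fun s' _ =>
            (gauss2 s.im s'.im).1.const_mul _]
          apply Finset.sum_le_sum
          intro s _
          rw [integral_finsetSum _ fun s' _ => (gauss2 s.im s'.im).1.const_mul _]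
          apply Finset.sum_le_sum
          intro s' _
          rw [integral_const_mul]
          exact mul_le_mul_of_nonneg_left (gauss2 s.im s'.im).2 (mul_nonneg (hc0 s) (hc0 s'))
  refine h1.trans (add_le_add_right (le_of_eq ?_) _)
  rw [Finset.mul_sum, Finset.mul_sum]
  apply Finset.sum_congr rfl
  intro s _
  rw [Finset.mul_sum, Finset.mul_sum]
  apply Finset.sum_congr rfl
  intro s' _
  simp only [hc]
  field_simp
  ring

end Pool.Agent.E8helper72.PC
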