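import Pool.Agent.E8helper72.PC.UpC

/-! # The block error with a test function singular at the origin -/

set_option autoImplicit false

namespace Pool.Agent.E8helper72.PC

open MeasureTheory Set Filter Topology Complex
open H370 (Zf mult mem_Zf good_zeta zset NN NN_eq JJ JJ_cont)
open H370.A2 (JN)
open Pool.Agent.Y750.OM (GG JB JD DD cfac bw NO PO rh)

lemma TF.zero_at {δ : ℝ} {r : ℝ → ℝ} (h : TF δ r) (α : ℝ) (hα : δ ≤ |α|) : r α = 0 := by
  rcases hα.lt_or_eq with h' | h'
  · exact h.supp α h'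
  · have hcl : IsClosed {x : ℝ | r x = 0} := isClosed_eq h.cont continuous_const
    rcases le_total 0 α with h0 | h0
    · rw [abs_of_nonneg h0] at h'
      have h1 : Set.Ioi δ ⊆ {x : ℝ | r x = 0} := fun x hx =>
        h.supp x (lt_of_lt_of_le hx (le_abs_self x))
      have h2 := closure_minimal h1 hcl
      rw [closure_Ioi] at h2
      exact h2 (by rw [← h']; exact Set.self_mem_Ici)
    · rw [abs_of_nonpos h0] at h'
      have h1 : Set.Iio (-δ) ⊆ {x : ℝ | r x = 0} := fun x hx => h.supp x (by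
        have : x < -δ := hx
        have := neg_abs_le x
        linarith)
      have h2 := closure_minimal h1 hcl
      rw [closure_Iio] at h2
      exact h2 (by rw [h', neg_neg]; exact Set.self_mem_Iic)

/-- a nonnegative cutoff -/
lemma exists_cut : ∃ g : ℝ → ℝ, TF (11 / 20) g ∧ (∀ α, 0 ≤ g α) ∧ ∀ α, |α| ≤ 1 / 2 → g α = 1 := by
  obtain ⟨g0, hg, hs, h1⟩ := Pool.Agent.Y750.OM.exists_cutoff (rr := 11 / 10) (by norm_num)
  refine ⟨fun α => g0 (2 * α) ^ 2, ⟨(hg.comp (contDiff_const.mul contDiff_id)).pow 2, ?_⟩,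
    fun α => sq_nonneg _, ?_⟩
  · intro α hα
    rw [hs (2 * α) (by rw [abs_mul, abs_of_pos (by norm_num : (0 : ℝ) < 2)]; linarith)]
    norm_num
  · intro α hα
    show g0 (2 * α) ^ 2 = 1
    rw [h1 (2 * α) (by rw [abs_mul, abs_of_pos (by norm_num : (0 : ℝ) < 2)]; linarith)]
    norm_num

/-- the number of zeros off the line is at most the number of zeros -/
lemma NO_pow : ∀ᶠ T : ℝ in atTop, ∀ θ : ℝ, 0 < θ → θ < 1 →
    NO T (2 * T) ^ θ * (T * Real.log T) ^ (1 - θ) ≤ T * Real.log T := by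
  filter_upwards [block_count 1 one_pos, eventually_ge_atTop 10] with T h1 h2 θ hθ hθ1
  have hX := XX_pos h2
  have hL := log_ge h2
  have hTL : 0 < T * Real.log T := by positivity
  have hNO : NO T (2 * T) ≤ T * Real.log T := by
    have h3 : NO T (2 * T) ≤ ∑ s ∈ Zf riemannZeta T (2 * T), mz s :=
      Finset.sum_le_sum_of_subset_of_nonneg (Finset.filter_subset _ _) fun s _ _ => mz_nonneg s
    have h4 := (abs_le.1 h1).2
    have h5 : 2 * XX T ≤ T * Real.log T := by
      unfold XX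
      have hpi := Real.pi_gt_three
      rw [mul_div_assoc', div_le_iff₀ (by positivity)]
      nlinarith
    linarith
  calc NO T (2 * T) ^ θ * (T * Real.log T) ^ (1 - θ) ≤
      (T * Real.log T) ^ θ * (T * Real.log T) ^ (1 - θ) := by
        apply mul_le_mul_of_nonneg_right _ (by positivity)
        exact Real.rpow_le_rpow (Pool.Agent.Y750.OM.NO_nonneg _ _) hNO hθ.le
    _ = T * Real.log T := by
        rw [← Real.rpow_add hTL]
        simp

lemma Zf_sub {T : ℝ} (hT : 1 ≤ T) : Zf riemannZeta (T + 1) (2 * T - 1) ⊆ Zf riemannZeta T (2 * T) := by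
  intro s hs
  rw [mem_Zf good_zeta (by linarith)] at hs ⊢
  obtain ⟨h1, h2, h3, h4, h5⟩ := hs
  exact ⟨h1, h2, by linarith, by linarith, h5⟩

/-- the mean of the quadratic part -/
lemma JM_half : ∃ C : ℝ, 0 < C ∧ ∀ᶠ T : ℝ in atTop, ∫ α in Icc (-(1 / 2) : ℝ) (1 / 2),
    JM (Zf riemannZeta (T + 1) (2 * T - 1)) (fun s => (mult riemannZeta s : ℝ)) (Real.log T) α ≤
      C * XX T := by
  obtain ⟨g, hg, hg0, hg1⟩ := exists_cut
  obtain ⟨C, hC, h⟩ := JM_int hg
  obtain ⟨C1, θ, T1, hC1, hθ, hθ1, hT1, hoff⟩ := Pool.Agent.Y750.OM.off_bound (κ := 3 / 5)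
    (by norm_num) (by norm_num)
  refine ⟨C * (1602 ^ 2 * (C1 * (2 * Real.pi))), by have := Real.pi_pos; positivity, ?_⟩
  filter_upwards [eventually_ge_atTop T1, NO_pow, eventually_ge_atTop 10] with T hT hNO hT10
  have hX := XX_pos hT10
  set L := Real.log T with hL
  have hL1 : 1 ≤ L := log_ge hT10
  set S := Zf riemannZeta (T + 1) (2 * T - 1) with hS
  set m : ℂ → ℝ := fun s => (mult riemannZeta s : ℝ) with hm
  have hm0 : ∀ s, 0 ≤ m s := fun s => Nat.cast_nonneg _
  have hint : Integrable fun α => g α * JM S m L α := hg.int_mul (JM_cont S m L)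
  have h1 : ∫ α in Icc (-(1 / 2) : ℝ) (1 / 2), JM S m L α ≤ ∫ α, g α * JM S m L α := by
    calc ∫ α in Icc (-(1 / 2) : ℝ) (1 / 2), JM S m L α =
        ∫ α in Icc (-(1 / 2) : ℝ) (1 / 2), g α * JM S m L α := by
          apply setIntegral_congr_fun measurableSet_Icc
          intro α hα
          simp only
          rw [hg1 α (abs_le.2 hα), one_mul]
      _ ≤ _ := setIntegral_le_integral hint
          (Eventually.of_forall fun α => mul_nonneg (hg0 α) (JM_nonneg _ _ _ _))
  have h2 := h S m hm0 L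
  have h3 := hoff T hT 1 one_pos le_rfl S (Zf_sub (by linarith)) (3 / 5) (by norm_num) le_rfl
  have h4 : ∑ s ∈ S, ∑ s' ∈ S, (m s * qb (yv L s)) * (m s' * qb (yv L s')) *
      (1 / (1 + (L * (s.im - s'.im)) ^ 2)) ≤ 1602 ^ 2 * ∑ s ∈ S, ∑ s' ∈ S,
      (m s * bw (3 / 5) L s) * (m s' * bw (3 / 5) L s') *
      (1 / (1 + (1 * (L * (s.im - s'.im))) ^ 2)) := by
    rw [Finset.mul_sum]
    apply Finset.sum_le_sum
    intro s _
    rw [Finset.mul_sum]
    apply Finset.sum_le_sum
    intro s' _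
    rw [one_mul]
    have a1 := qb_bw L s
    have a2 := qb_bw L s'
    have a3 := qb_nonneg (yv L s)
    have a4 := qb_nonneg (yv L s')
    have a5 : 0 ≤ 1 / (1 + (L * (s.im - s'.im)) ^ 2) := by positivity
    have a6 := hm0 s
    have a7 := hm0 s'
    have a8 := Pool.Agent.Y750.OM.bw_nonneg (3 / 5) L s
    calc (m s * qb (yv L s)) * (m s' * qb (yv L s')) * (1 / (1 + (L * (s.im - s'.im)) ^ 2)) ≤
        (m s * (1602 * bw (3 / 5) L s)) * (m s' * (1602 * bw (3 / 5) L s')) *
          (1 / (1 + (L * (s.im - s'.im)) ^ 2)) := by gcongr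
      _ = _ := by ring
  have h5 : T * L = 2 * Real.pi * XX T := by
    unfold XX
    have := Real.pi_pos
    field_simp
    rfl
  calc ∫ α in Icc (-(1 / 2) : ℝ) (1 / 2), JM S m L α ≤ C * ∑ s ∈ S, ∑ s' ∈ S,
        (m s * qb (yv L s)) * (m s' * qb (yv L s')) * (1 / (1 + (L * (s.im - s'.im)) ^ 2)) :=
        h1.trans h2
    _ ≤ C * (1602 ^ 2 * (C1 / 1 * (NO T (2 * T) ^ θ * (T * L) ^ (1 - θ)))) := by
        apply mul_le_mul_of_nonneg_left _ hC.le
        exact h4.trans (mul_le_mul_of_nonneg_left h3 (by norm_num))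
    _ ≤ C * (1602 ^ 2 * (C1 / 1 * (T * L))) := by
        have := hNO θ hθ hθ1
        gcongr
    _ = _ := by rw [h5]; ring

/-- the remainder in `JD_le` -/
lemma JR_half : ∃ C : ℝ, 0 < C ∧ ∀ᶠ T : ℝ in atTop,
    12288 / Real.log T ^ 2 * ∑ s ∈ Zf riemannZeta (T + 1) (2 * T - 1),
      ∑ s' ∈ Zf riemannZeta (T + 1) (2 * T - 1),
        ((mult riemannZeta s : ℝ) * bw (1 / 2) (Real.log T) s) *
        ((mult riemannZeta s' : ℝ) * bw (1 / 2) (Real.log T) s') * (1 / (1 + (s.im - s'.im) ^ 2)) ≤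
      C * T := by
  obtain ⟨C1, θ, T1, hC1, hθ, hθ1, hT1, hoff⟩ := Pool.Agent.Y750.OM.off_bound (κ := 3 / 5)
    (by norm_num) (by norm_num)
  refine ⟨12288 * C1, by positivity, ?_⟩
  filter_upwards [eventually_ge_atTop T1, NO_pow, eventually_ge_atTop 10] with T hT hNO hT10
  have hL1 := log_ge hT10
  set L := Real.log T with hL
  have hL0 : 0 < L := by linarith
  have h3 := hoff T hT (1 / L) (by positivity) (by rw [div_le_one hL0]; exact hL1)
    (Zf riemannZeta (T + 1) (2 * T - 1)) (Zf_sub (by linarith)) (1 / 2) (by norm_num) (by norm_num)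
  have e1 : ∀ x : ℝ, (1 / L * (L * x)) ^ 2 = x ^ 2 := by
    intro x
    field_simp
  simp only [← hL, e1] at h3
  calc _ ≤ 12288 / L ^ 2 * (C1 / (1 / L) * (NO T (2 * T) ^ θ * (T * L) ^ (1 - θ))) :=
        mul_le_mul_of_nonneg_left h3 (by positivity)
    _ ≤ 12288 / L ^ 2 * (C1 / (1 / L) * (T * L)) := by
        have := hNO θ hθ hθ1
        gcongr
    _ = _ := by field_simp

/-- the reduction of the pair sum of a block to the comparison of the mean squares -/
theorem pair_gen {r : ℝ → ℝ} (hr : TF (1 / 2) r) (ε : ℝ) (hε : 0 < ε) : ∀ᶠ T : ℝ in atTop,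
    |QS (Zf riemannZeta T (2 * T)) (Zf riemannZeta T (2 * T)) (Real.log T) (bl r) - MM r * XX T| ≤
      |(∫ α in (-(1 / 2) : ℝ)..(1 / 2), r α * JN riemannZeta (T + 1) (2 * T - 1)
          (α * Real.log T)) - ∫ α in (-(1 / 2) : ℝ)..(1 / 2), r α *
          (JB (Zf riemannZeta (T + 1) (2 * T - 1)) (fun s => (mult riemannZeta s : ℝ))
            (α * Real.log T) / Real.sqrt Real.pi)| + ε * XX T := by
  obtain ⟨Ce, hCe, hedge⟩ := Pool.Agent.Y750.OM.edges
  obtain ⟨Cg, hCg, hgauss⟩ := Pool.Agent.Y750.OM.degauss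
  obtain ⟨K, hK⟩ := hr.lip
  obtain ⟨A0, hA0, hdec⟩ := hr.decay 1
  simp only [pow_one] at hdec
  have hf := Pool.Agent.Y750.OM.rh_of_bl hdec
  set Cf := (2 * Real.pi) ^ 2 * A0 with hCf
  have hpi := Real.pi_pos
  have hCf0 : 0 < Cf := by positivity
  obtain ⟨e, he⟩ : ∃ e : ℝ, e = min 1 (ε / 4 / (|MM r| + 1)) := ⟨_, rfl⟩
  have he0 : 0 < e := by rw [he]; positivity
  have he1 : e ≤ 1 := by rw [he]; exact min_le_left _ _
  have he2 : (|MM r| + 1) * e ≤ ε / 4 := by
    have h2 : e ≤ ε / 4 / (|MM r| + 1) := by rw [he]; exact min_le_right _ _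
    have h3 := abs_nonneg (MM r)
    calc (|MM r| + 1) * e ≤ (|MM r| + 1) * (ε / 4 / (|MM r| + 1)) := by
          apply mul_le_mul_of_nonneg_left h2 (by linarith)
      _ = ε / 4 := by field_simp
  obtain ⟨T0, hT0, hpsi⟩ := Pool.Agent.Y750.OM.psi_full (1 / 2) e (by norm_num) (by norm_num) he0
    r K hK hr.zero_at
  have hlog : ∀ᶠ T : ℝ in atTop, Real.log T ≤ ε / (8 * Real.pi * Ce * Cf) * T := by
    have h := Real.isLittleO_log_id_atTop.bound
      (show 0 < ε / (8 * Real.pi * Ce * Cf) by positivity)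
    filter_upwards [h, eventually_ge_atTop 1] with T hT hT1
    rw [Real.norm_of_nonneg (Real.log_nonneg hT1), id, Real.norm_of_nonneg (by linarith)] at hT
    exact hT
  filter_upwards [eventually_ge_atTop T0, hlog,
    Real.tendsto_log_atTop.eventually_ge_atTop (8 * Cg * Cf / ε),
    XX_large ((|MM r|) * 1) (ε / 8) (by positivity), eventually_ge_atTop 10] with T h1 h2 h3 h4 h5
  have hX := XX_pos h5
  have hL := log_ge h5
  obtain ⟨p1, p2⟩ := hpsi T h1
  have p4 := hedge T h5 (rh r) Cf hCf0.le hf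
  have p5 := hgauss T h5 (rh r) Cf hCf0.le hf
  rw [← Pool.Agent.Y750.OM.JB_int hr.cont (by norm_num : (0 : ℝ) ≤ 1 / 2) hr.supp] at p5
  set L := Real.log T with hLdef
  set N1 : ℝ := (NN riemannZeta (T + 1) (2 * T - 1) : ℝ) with hN1
  set M : ℝ := (T - 2) * L / (2 * Real.pi) with hM
  set P := PO (rh r) T (2 * T) L with hP
  set P1 := PO (rh r) (T + 1) (2 * T - 1) L with hP1
  set G := ∫ α in (-(1 / 2) : ℝ)..(1 / 2), r α *
    (JB (Zf riemannZeta (T + 1) (2 * T - 1)) (fun s => (mult riemannZeta s : ℝ)) (α * L) /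
      Real.sqrt Real.pi) with hG
  set A := ∫ α in (-(1 / 2) : ℝ)..(1 / 2), r α * JN riemannZeta (T + 1) (2 * T - 1) (α * L) with hA
  rw [QS_PO]
  have hTL : T * L = 2 * Real.pi * XX T := by
    unfold XX
    field_simp
    rfl
  have hM0 : 0 ≤ M := by
    rw [hM]
    have : 0 ≤ T - 2 := by linarith
    positivity
  have hMX : M ≤ XX T := by
    rw [hM]
    unfold XX
    rw [← hLdef]
    apply div_le_div_of_nonneg_right _ (by positivity)
    nlinarith
  have q1 : |P - P1| ≤ ε / 4 * XX T := by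
    refine p4.trans ?_
    have h6 : L * (8 * Real.pi * Ce * Cf) ≤ ε * T := by
      rw [div_mul_eq_mul_div, le_div_iff₀ (by positivity)] at h2
      exact h2
    have h7 : L * (8 * Real.pi * Ce * Cf) * L ≤ ε * T * L := by gcongr
    have h8 : ε * T * L = ε * (2 * Real.pi * XX T) := by rw [mul_assoc, hTL]
    rw [h8] at h7
    have h9 : 8 * Real.pi * (Ce * Cf * L ^ 2) ≤ 8 * Real.pi * (ε / 4 * XX T) := by
      calc 8 * Real.pi * (Ce * Cf * L ^ 2) = L * (8 * Real.pi * Ce * Cf) * L := by ring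
        _ ≤ ε * (2 * Real.pi * XX T) := h7
        _ = _ := by ring
    exact le_of_mul_le_mul_left h9 (by positivity)
  have hN1X : N1 ≤ 2 * XX T := by
    have h6 := (abs_le.1 p1).2
    have h7 : e * M ≤ 1 * M := mul_le_mul_of_nonneg_right he1 hM0
    linarith
  have q2 : |G - P1| ≤ ε / 4 * XX T := by
    refine p5.trans ?_
    have h6 : Cg * Cf / L ≤ ε / 8 := by
      rw [div_le_iff₀ (by linarith)]
      rw [div_le_iff₀ hε] at h3
      linarith
    calc Cg * Cf / L * N1 ≤ ε / 8 * (2 * XX T) := by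
          apply mul_le_mul h6 hN1X (Nat.cast_nonneg _) (by positivity)
      _ = _ := by ring
  have hc : r 0 + ∫ α in (-(1 / 2) : ℝ)..(1 / 2), |α| * r α = MM r := by
    rw [MM_eq hr le_rfl]
    congr 1
    exact (Pool.Agent.Y750.OM.whole_int (by norm_num : (0 : ℝ) < 1 / 2) fun α hα => by
      rw [hr.supp α hα, mul_zero]).symm
  rw [hc] at p2
  have q3 : |A - M * MM r| ≤ ε / 4 * XX T := by
    refine p2.trans ?_
    have h6 : e ≤ ε / 4 := by
      have := abs_nonneg (MM r)
      nlinarith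
    exact mul_le_mul h6 hMX hM0 (by positivity)
  have q4 : |M * MM r - MM r * XX T| ≤ ε / 8 * XX T := by
    have e1 : M * MM r - MM r * XX T = MM r * (M - XX T) := by ring
    rw [e1, abs_mul]
    have e2 : |M - XX T| ≤ T := by
      have e3 : M - XX T = -(L / Real.pi) := by
        rw [hM]
        unfold XX
        rw [← hLdef]
        field_simp
        ring
      rw [e3, abs_neg, abs_of_nonneg (by positivity)]
      have h6 : L ≤ T := by
        have := Real.log_le_sub_one_of_pos (show 0 < T by linarith)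
        linarith
      calc L / Real.pi ≤ L := div_le_self (by linarith) (by linarith [Real.pi_gt_three])
        _ ≤ T := h6
    calc |MM r| * |M - XX T| ≤ |MM r| * T := mul_le_mul_of_nonneg_left e2 (abs_nonneg _)
      _ = |MM r| * 1 * T := by ring
      _ ≤ _ := h4
  have hfin := Pool.Agent.Y750.OM.chain5 P P1 G A (M * MM r) (MM r * XX T)
  refine hfin.trans ?_
  have : 0 < ε * XX T := by positivity
  linarith

end Pool.Agent.E8helper72.PC
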