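import Pool.Agent.E8helper72.PC.UpD

/-! # The block error with a test function singular at the origin: the bound -/

set_option autoImplicit false

namespace Pool.Agent.E8helper72.PC

open MeasureTheory Set Filter Topology Complex
open H370 (Zf mult mem_Zf good_zeta zset NN NN_eq JJ JJ_cont)
open H370.A2 (JN)
open Pool.Agent.Y750.OM (GG JB JD DD cfac bw NO PO rh)

/-- the truncated weight -/
noncomputable def psi (r : ℝ → ℝ) (α : ℝ) : ℝ := min |α| (1 / 2) * r α

lemma psi_eq {r : ℝ → ℝ} (hr : TF (1 / 2) r) (α : ℝ) : psi r α = |α| * r α := by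
  unfold psi
  rcases le_or_gt |α| (1 / 2) with h | h
  · rw [min_eq_left h]
  · rw [hr.supp α h, mul_zero, mul_zero]

lemma psi_lip {r : ℝ → ℝ} (hr : TF (1 / 2) r) : ∃ K : ℝ, ∀ x y, |psi r x - psi r y| ≤ K * |x - y| := by
  obtain ⟨K, hK⟩ := hr.lip
  obtain ⟨R, hR0, hR⟩ := hr.bdd
  refine ⟨K / 2 + R, fun x y => ?_⟩
  have e1 : psi r x - psi r y = min |x| (1 / 2) * (r x - r y) +
      (min |x| (1 / 2) - min |y| (1 / 2)) * r y := by
    unfold psi
    ring
  have h1 : |min |x| (1 / 2) - min |y| (1 / 2)| ≤ |x - y| := by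
    have h2 := abs_min_sub_min_le_max |x| (1 / 2) |y| (1 / 2)
    have h3 := abs_abs_sub_abs_le_abs_sub x y
    refine h2.trans (max_le h3 ?_)
    simp
  have h2 : |min |x| (1 / 2)| ≤ 1 / 2 := by
    rw [abs_of_nonneg (le_min (abs_nonneg _) (by norm_num))]
    exact min_le_right _ _
  have h3 := hK x y
  have h4 := hR y
  rw [e1]
  calc |min |x| (1 / 2) * (r x - r y) + (min |x| (1 / 2) - min |y| (1 / 2)) * r y| ≤
      |min |x| (1 / 2)| * |r x - r y| + |min |x| (1 / 2) - min |y| (1 / 2)| * |r y| := by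
        rw [← abs_mul, ← abs_mul]
        exact abs_add_le _ _
    _ ≤ 1 / 2 * (K * |x - y|) + |x - y| * R := by gcongr
    _ = _ := by ring

/-- **The block error for a test function that is large near the origin.** -/
theorem block_err2 : ∃ C : ℝ, 0 < C ∧ ∀ r, TF (1 / 2) r → (∀ α, 0 ≤ r α) → ∀ a : ℝ, 0 < a →
    (∀ α, |α| < a → r α = 0) → (∀ α, r α * |α| ^ 3 ≤ 1) → ∀ c : ℝ, 0 < c → ∀ ε : ℝ, 0 < ε →
    ∀ᶠ A : ℝ in atTop,
    |QS (Zf riemannZeta A (2 * A)) (Zf riemannZeta A (2 * A)) (Real.log A) (bl r) - MM r * XX A| ≤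
      (C * (c * (∫ α, α ^ 2 * r α) + 1 + 1 / c) + ε) * XX A := by
  obtain ⟨C1, hC1, hJM⟩ := JM_half
  obtain ⟨C2, hC2, hJR⟩ := JR_half
  refine ⟨2 + 2 * C1, by positivity, fun r hr hr0 a ha hra hr3 c hc ε hε => ?_⟩
  have hpi := Real.pi_pos
  obtain ⟨K, hK⟩ := psi_lip hr
  obtain ⟨R, hR0, hR⟩ := hr.bdd
  set I2 := ∫ α, α ^ 2 * r α with hI2
  have hI20 : 0 ≤ I2 := integral_nonneg fun α => mul_nonneg (sq_nonneg _) (hr0 α)
  obtain ⟨e, he⟩ : ∃ e : ℝ, e = ε / (8 * c) := ⟨_, rfl⟩
  have he0 : 0 < e := by rw [he]; positivity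
  have he2 : 2 * c * e = ε / 4 := by rw [he]; field_simp; ring
  have hpsi0 : ∀ x, 1 / 2 ≤ |x| → psi r x = 0 := fun x hx => by
    unfold psi
    rw [hr.zero_at x hx, mul_zero]
  obtain ⟨T0, hT0, hpsi⟩ := Pool.Agent.Y750.OM.psi_full (1 / 2) e (by norm_num) (by norm_num) he0
    (psi r) K hK hpsi0
  have hpsiI : ∫ α in (-(1 / 2) : ℝ)..(1 / 2), |α| * psi r α = I2 := by
    rw [← Pool.Agent.Y750.OM.whole_int (by norm_num : (0 : ℝ) < 1 / 2) fun α hα => by
      rw [hpsi0 α hα.le, mul_zero]]
    rw [hI2]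
    congr 1
    funext α
    rw [psi_eq hr, ← mul_assoc, ← sq, sq_abs]
  have hpsi00 : psi r 0 = 0 := by
    unfold psi
    rw [hra 0 (by simpa using ha), mul_zero]
  set D : ℝ := R * (1 + 1 / (c * a)) with hD
  have hD0 : 0 < D := by positivity
  filter_upwards [pair_gen hr (ε / 4) (by positivity), hJM, hJR, eventually_ge_atTop T0,
    XX_large (D * C2) (ε / 4) (by positivity), eventually_ge_atTop 10] with T h1 h2 h3 h4 h5 h6
  have hX := XX_pos h6
  have hL1 := log_ge h6
  refine h1.trans ?_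
  obtain ⟨-, p2⟩ := hpsi T h4
  rw [hpsiI, hpsi00, zero_add] at p2
  set L := Real.log T with hL
  have hL0 : 0 < L := by linarith
  set S := Zf riemannZeta (T + 1) (2 * T - 1) with hS
  set m : ℂ → ℝ := fun s => (mult riemannZeta s : ℝ) with hm
  set J' := 12288 / L ^ 2 * ∑ s ∈ S, ∑ s' ∈ S,
        ((mult riemannZeta s : ℝ) * bw (1 / 2) L s) *
        ((mult riemannZeta s' : ℝ) * bw (1 / 2) L s') * (1 / (1 + (s.im - s'.im) ^ 2)) with hJ'
  have hJ'0 : 0 ≤ J' := by
    rw [hJ']
    apply mul_nonneg (by positivity)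
    apply Finset.sum_nonneg
    intro s _
    apply Finset.sum_nonneg
    intro s' _
    have := Pool.Agent.Y750.OM.bw_nonneg (1 / 2) L s
    have := Pool.Agent.Y750.OM.bw_nonneg (1 / 2) L s'
    positivity
  have hspi : 1 ≤ Real.sqrt Real.pi := by rw [Real.one_le_sqrt]; linarith [Real.pi_gt_three]
  have hspi0 : 0 < Real.sqrt Real.pi := by linarith
  set JA : ℝ → ℝ := fun α => JJ riemannZeta (T + 1) (2 * T - 1) (α * L) with hJA
  have hJAc : Continuous JA :=
    (JJ_cont good_zeta (U2 := 2 * T - 1) (by linarith : (1 : ℝ) ≤ T + 1)).comp (by fun_prop)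
  have hJA0 : ∀ α, 0 ≤ JA α := fun α => integral_nonneg fun t => by positivity
  have hBc : Continuous fun α : ℝ => JB S m (α * L) :=
    (Pool.Agent.Y750.OM.JB_cont S m).comp (by fun_prop)
  have hMc := JM_cont S m L
  have hrc := hr.cont
  have hpc : Continuous (psi r) := by
    unfold psi
    fun_prop
  have hpt : ∀ α ∈ Icc (-(1 / 2) : ℝ) (1 / 2), |r α * ((JA α - JB S m (α * L)) / Real.sqrt Real.pi)| ≤
      c * (psi r α * JA α) + 2 * (1 + 1 / c) * JM S m L α + D * J' := by
    intro α hα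
    have hα2 : |α| ≤ 1 / 2 := abs_le.2 hα
    have n1 : 0 ≤ psi r α := by
      unfold psi
      exact mul_nonneg (le_min (abs_nonneg _) (by norm_num)) (hr0 α)
    have n2 := JM_nonneg S m L α
    have n3 := hJA0 α
    rcases lt_or_ge |α| a with h7 | h7
    · rw [hra α h7, zero_mul, abs_zero]
      positivity
    · have hα0 : 0 < |α| := ha.trans_le h7
      have h8 := Pool.Agent.Y750.OM.diff_le (A := T + 1) (B := 2 * T - 1) (by linarith) L α (c * |α|)
        (by positivity)
      have h9 := JD_le (A := T + 1) (B := 2 * T - 1) (by linarith) hL1 hα2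
      have hr' := hr0 α
      have hR' : r α ≤ R := (le_abs_self _).trans (hR α)
      have h10 : r α * |α| ^ 3 ≤ 1 := hr3 α
      have hα4 : α ^ 4 = |α| ^ 4 := by
        rw [show (4 : ℕ) = 2 * 2 by norm_num, pow_mul, pow_mul, sq_abs]
      have t1 : r α * (1 + 1 / (c * |α|)) * (2 * α ^ 4) ≤ 2 * (1 + 1 / c) := by
        have e1 : r α * (1 + 1 / (c * |α|)) * (2 * α ^ 4) =
            2 * (r α * |α| ^ 3) * (|α| + 1 / c) := by
          rw [hα4]
          field_simp
        rw [e1]
        have h11 : 0 ≤ r α * |α| ^ 3 := by positivity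
        have h12 : 0 < 1 / c := by positivity
        calc 2 * (r α * |α| ^ 3) * (|α| + 1 / c) ≤ 2 * 1 * (1 + 1 / c) := by gcongr; linarith
          _ = _ := by ring
      have t2 : r α * (1 + 1 / (c * |α|)) ≤ D := by
        rw [hD]
        gcongr
      calc |r α * ((JA α - JB S m (α * L)) / Real.sqrt Real.pi)| ≤
          r α * |JA α - JB S m (α * L)| := by
            rw [abs_mul, abs_div, abs_of_pos hspi0, abs_of_nonneg hr']
            apply mul_le_mul_of_nonneg_left _ hr'
            exact div_le_self (abs_nonneg _) hspi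
        _ ≤ r α * (c * |α| * JA α + (1 + 1 / (c * |α|)) * (2 * α ^ 4 * JM S m L α + J')) := by
            apply mul_le_mul_of_nonneg_left _ hr'
            refine h8.trans ?_
            apply add_le_add_right
            exact mul_le_mul_of_nonneg_left h9 (by positivity)
        _ = c * (|α| * r α * JA α) + (r α * (1 + 1 / (c * |α|)) * (2 * α ^ 4)) * JM S m L α +
            (r α * (1 + 1 / (c * |α|))) * J' := by ring
        _ ≤ c * (|α| * r α * JA α) + (2 * (1 + 1 / c)) * JM S m L α + D * J' := by gcongr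
        _ = _ := by rw [psi_eq hr]
  -- the difference
  have hdiff : (∫ α in (-(1 / 2) : ℝ)..(1 / 2), r α * JN riemannZeta (T + 1) (2 * T - 1)
          (α * L)) - ∫ α in (-(1 / 2) : ℝ)..(1 / 2), r α * (JB S m (α * L) / Real.sqrt Real.pi) =
      ∫ α in (-(1 / 2) : ℝ)..(1 / 2), r α * ((JA α - JB S m (α * L)) / Real.sqrt Real.pi) := by
    rw [← intervalIntegral.integral_sub]
    · refine intervalIntegral.integral_congr fun α _ => ?_
      simp only [JN, hJA]
      ring
    · unfold JN
      exact (hrc.mul (hJAc.div_const _)).intervalIntegrable _ _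
    · exact (hrc.mul (hBc.div_const _)).intervalIntegrable _ _
  have hint : |∫ α in (-(1 / 2) : ℝ)..(1 / 2), r α * ((JA α - JB S m (α * L)) / Real.sqrt Real.pi)| ≤
      c * (∫ α in (-(1 / 2) : ℝ)..(1 / 2), psi r α * JA α) +
        2 * (1 + 1 / c) * (∫ α in (-(1 / 2) : ℝ)..(1 / 2), JM S m L α) + D * J' := by
    refine (intervalIntegral.abs_integral_le_integral_abs (by norm_num)).trans ?_
    have h7 : ∫ α in (-(1 / 2) : ℝ)..(1 / 2), |r α * ((JA α - JB S m (α * L)) / Real.sqrt Real.pi)| ≤
        ∫ α in (-(1 / 2) : ℝ)..(1 / 2), (c * (psi r α * JA α) + 2 * (1 + 1 / c) * JM S m L α +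
          D * J') := by
      refine intervalIntegral.integral_mono_on (by norm_num) ?_ ?_ hpt
      · exact ((hrc.mul ((hJAc.sub hBc).div_const _)).abs).intervalIntegrable _ _
      · exact (((continuous_const.mul (hpc.mul hJAc)).add (continuous_const.mul hMc)).add
          continuous_const).intervalIntegrable _ _
    refine h7.trans (le_of_eq ?_)
    rw [intervalIntegral.integral_add, intervalIntegral.integral_add,
      intervalIntegral.integral_const_mul, intervalIntegral.integral_const_mul,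
      intervalIntegral.integral_const]
    · norm_num
    · exact (continuous_const.mul (hpc.mul hJAc)).intervalIntegrable _ _
    · exact (continuous_const.mul hMc).intervalIntegrable _ _
    · exact ((continuous_const.mul (hpc.mul hJAc)).add
        (continuous_const.mul hMc)).intervalIntegrable _ _
    · exact continuous_const.intervalIntegrable _ _
  rw [hdiff]
  -- the first integral
  have q1 : ∫ α in (-(1 / 2) : ℝ)..(1 / 2), psi r α * JA α ≤ 2 * (I2 + e) * XX T := by
    have e1 : ∫ α in (-(1 / 2) : ℝ)..(1 / 2), psi r α * JA α = Real.sqrt Real.pi *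
        ∫ α in (-(1 / 2) : ℝ)..(1 / 2), psi r α * JN riemannZeta (T + 1) (2 * T - 1) (α * L) := by
      rw [← intervalIntegral.integral_const_mul]
      refine intervalIntegral.integral_congr fun α _ => ?_
      unfold JN
      simp only [hJA]
      field_simp
    rw [e1]
    have h7 := (abs_le.1 p2).2
    have hM0 : 0 ≤ (T - 2) * L / (2 * Real.pi) := by
      have : 0 ≤ T - 2 := by linarith
      positivity
    have hMX : (T - 2) * L / (2 * Real.pi) ≤ XX T := by
      unfold XX
      rw [← hL]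
      apply div_le_div_of_nonneg_right _ (by positivity)
      nlinarith
    have hs2 : Real.sqrt Real.pi ≤ 2 := by
      rw [Real.sqrt_le_left (by norm_num)]
      linarith [Real.pi_lt_four]
    have h8 : ∫ α in (-(1 / 2) : ℝ)..(1 / 2), psi r α * JN riemannZeta (T + 1) (2 * T - 1) (α * L) ≤
        (I2 + e) * XX T := by
      have : (I2 + e) * ((T - 2) * L / (2 * Real.pi)) ≤ (I2 + e) * XX T :=
        mul_le_mul_of_nonneg_left hMX (by positivity)
      linarith
    calc _ ≤ Real.sqrt Real.pi * ((I2 + e) * XX T) := mul_le_mul_of_nonneg_left h8 hspi0.le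
      _ ≤ 2 * ((I2 + e) * XX T) := by gcongr
      _ = _ := by ring
  have q2 : ∫ α in (-(1 / 2) : ℝ)..(1 / 2), JM S m L α ≤ C1 * XX T := by
    rw [intervalIntegral.integral_of_le (by norm_num), ← integral_Icc_eq_integral_Ioc]
    exact h2
  have q3 : D * J' ≤ ε / 4 * XX T := by
    calc D * J' ≤ D * (C2 * T) := mul_le_mul_of_nonneg_left h3 hD0.le
      _ = D * C2 * T := by ring
      _ ≤ _ := h5
  have hc1 : 0 < 1 + 1 / c := by positivity
  calc _ ≤ (c * (2 * (I2 + e) * XX T) + 2 * (1 + 1 / c) * (C1 * XX T) + ε / 4 * XX T) +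
        ε / 4 * XX T := by
        apply add_le_add_left
        refine hint.trans ?_
        gcongr
    _ = (2 * c * I2 + 2 * C1 * (1 + 1 / c) + (2 * c * e) + ε / 2) * XX T := by ring
    _ ≤ _ := by
        rw [he2]
        apply mul_le_mul_of_nonneg_right _ hX.le
        have h7 : 0 ≤ c * I2 := by positivity
        have h8 : 0 ≤ C1 * (c * I2) := by positivity
        nlinarith

end Pool.Agent.E8helper72.PC
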