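import Pool.Agent.E8helper72.PC.Wind

/-! # Rigidity of the limit measures that are dominated by the predicted one -/

set_option autoImplicit false

namespace Pool.Agent.E8helper72.PC

open MeasureTheory Set Filter Topology

lemma TF.zero_at' {δ : ℝ} {r : ℝ → ℝ} (h : TF δ r) (α : ℝ) (hα : δ ≤ |α|) : r α = 0 := by
  rcases hα.lt_or_eq with h' | h'
  · exact h.supp α h'
  · have hcl : IsClosed {x : ℝ | r x = 0} := isClosed_eq h.cont continuous_const
    rcases le_total 0 α with h0 | h0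
    · rw [abs_of_nonneg h0] at h'
      have h1 : Set.Ioi δ ⊆ {x : ℝ | r x = 0} := fun x hx =>
        h.supp x (lt_of_lt_of_le hx (le_abs_self x))
      have h2 := closure_minimal h1 hcl
      rw [closure_Ioi] at h2
      exact h2 (by rw [← h']; exact Set.self_mem_Ici)
    · rw [abs_of_nonpos h0] at h'
      have h1 : Set.Iio (-δ) ⊆ {x : ℝ | r x = 0} := fun x hx => h.supp x (by
        have : x < -δ := hx
        have := neg_abs_le x
        linarith)
      have h2 := closure_minimal h1 hcl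
      rw [closure_Iio] at h2
      exact h2 (by rw [h', neg_neg]; exact Set.self_mem_Iic)

/-- the basic bump -/
lemma exists_phi : ∃ φ : ℝ → ℝ, TF 1 φ ∧ (∀ x, 0 ≤ φ x) ∧ (∀ x, |x| < 1 / 2 → φ x = 0) ∧
    (∀ x, φ x * |x| ^ 3 ≤ 1) ∧ 0 < ∫ x, x ^ 2 * φ x := by
  let b : ContDiffBump (3 / 4 : ℝ) := ⟨1 / 16, 1 / 8, by norm_num, by norm_num⟩
  set φ : ℝ → ℝ := fun x => b x with hφ
  have hz : ∀ x, 1 / 8 ≤ |x - 3 / 4| → φ x = 0 := by
    intro x hx
    apply b.zero_of_le_dist
    simpa [Real.dist_eq, b] using hx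
  have hTF : TF 1 φ := ⟨b.contDiff, fun x hx => hz x (by
    have h1 := abs_sub_abs_le_abs_sub x (3 / 4)
    rw [abs_of_pos (by norm_num : (0 : ℝ) < 3 / 4)] at h1
    linarith)⟩
  have h0 : ∀ x, 0 ≤ φ x := fun x => b.nonneg
  refine ⟨φ, hTF, h0, fun x hx => hz x ?_, fun x => ?_, ?_⟩
  · have h1 := abs_sub_abs_le_abs_sub (3 / 4) x
    rw [abs_of_pos (by norm_num : (0 : ℝ) < 3 / 4), abs_sub_comm] at h1
    linarith
  · rcases le_or_gt |x| 1 with h | h
    · have h1 : φ x ≤ 1 := b.le_one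
      have h2 : |x| ^ 3 ≤ 1 := pow_le_one₀ (abs_nonneg _) h
      calc φ x * |x| ^ 3 ≤ 1 * 1 := mul_le_mul h1 h2 (by positivity) (by norm_num)
        _ = 1 := by norm_num
    · rw [hTF.supp x h, zero_mul]
      norm_num
  · have hc : Continuous fun x : ℝ => x ^ 2 * φ x := (continuous_pow 2).mul hTF.cont
    apply hc.integral_pos_of_hasCompactSupport_nonneg_nonzero (x := 3 / 4) hTF.hcs.mul_left
      (fun x => mul_nonneg (sq_nonneg x) (h0 x))
    have h1 : φ (3 / 4) = 1 := by
      apply b.one_of_mem_closedBall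
      rw [Metric.mem_closedBall, dist_self]
      norm_num [b]
    simp only [h1]
    norm_num

/-- test functions with a large second moment -/
lemma exists_big {α0 : ℝ} (hα0 : 0 < α0) (M : ℝ) : ∃ r : ℝ → ℝ, TF α0 r ∧ (∀ α, 0 ≤ r α) ∧
    (∃ a : ℝ, 0 < a ∧ ∀ α, |α| < a → r α = 0) ∧ (∀ α, r α * |α| ^ 3 ≤ 1) ∧
    M ≤ ∫ α, α ^ 2 * r α := by
  obtain ⟨φ, hφ, hφ0, hφz, hφ3, hI⟩ := exists_phi
  set I0 := ∫ x, x ^ 2 * φ x with hI0
  have hind : ∀ J : ℕ, ∃ r : ℝ → ℝ, TF α0 r ∧ (∀ α, 0 ≤ r α) ∧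
      (∃ a : ℝ, 0 < a ∧ ∀ α, |α| < a → r α = 0) ∧ (∀ α, r α * |α| ^ 3 ≤ 1) ∧
      J * I0 ≤ ∫ α, α ^ 2 * r α := by
    intro J
    induction J with
    | zero => exact ⟨fun _ => 0, ⟨contDiff_const, fun _ _ => rfl⟩, fun _ => le_rfl,
        ⟨1, one_pos, fun _ _ => rfl⟩, fun _ => by simp, by simp⟩
    | succ J ih =>
      obtain ⟨r, hr, hr0, ⟨a, ha, hra⟩, hr3, hrI⟩ := ih
      obtain ⟨e, he⟩ : ∃ e, e = min a α0 := ⟨_, rfl⟩
      have he0 : 0 < e := by rw [he]; exact lt_min ha hα0
      have hea : e ≤ a := by rw [he]; exact min_le_left _ _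
      have heα : e ≤ α0 := by rw [he]; exact min_le_right _ _
      have hs := hφ.scale he0
      rw [mul_one] at hs
      have hs' : TF e (fun α => (e ^ 3)⁻¹ * φ (α / e)) := hs.const_mul _
      refine ⟨fun α => r α + (e ^ 3)⁻¹ * φ (α / e), hr.add (hs'.mono heα), fun α =>
        add_nonneg (hr0 α) (mul_nonneg (by positivity) (hφ0 _)), ⟨e / 2, by positivity, fun α hα => ?_⟩,
        fun α => ?_, ?_⟩
      · simp only
        rw [hra α (by linarith), hφz (α / e) (by
          rw [abs_div, abs_of_pos he0, div_lt_iff₀ he0]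
          linarith), mul_zero, add_zero]
      · simp only
        rcases lt_or_ge |α| e with h | h
        · rw [hra α (by linarith), zero_add]
          have h1 := hφ3 (α / e)
          rw [abs_div, abs_of_pos he0, div_pow] at h1
          refine le_trans (le_of_eq ?_) h1
          field_simp
        · have h1 : (e ^ 3)⁻¹ * φ (α / e) = 0 := hs'.zero_at' α h
          rw [h1, add_zero]
          exact hr3 α
      · have i1 : Integrable fun α : ℝ => α ^ 2 * r α := by
          have := hr.int_mul (g := fun α => α ^ 2) (by fun_prop)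
          refine this.congr (Eventually.of_forall fun α => ?_)
          simp only
          ring
        have i2 : Integrable fun α : ℝ => α ^ 2 * ((e ^ 3)⁻¹ * φ (α / e)) := by
          have := hs'.int_mul (g := fun α => α ^ 2) (by fun_prop)
          refine this.congr (Eventually.of_forall fun α => ?_)
          simp only
          ring
        have e1 : ∀ α : ℝ, α ^ 2 * (r α + (e ^ 3)⁻¹ * φ (α / e)) = α ^ 2 * r α +
            α ^ 2 * ((e ^ 3)⁻¹ * φ (α / e)) := fun α => by ring
        simp_rw [e1]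
        rw [integral_add i1 i2]
        have e2 : ∫ α : ℝ, α ^ 2 * ((e ^ 3)⁻¹ * φ (α / e)) = I0 := by
          have h := Measure.integral_comp_div (fun x : ℝ => x ^ 2 * φ x) e
          rw [abs_of_pos he0, smul_eq_mul] at h
          have h2 : ∫ α : ℝ, α ^ 2 * ((e ^ 3)⁻¹ * φ (α / e)) =
              e⁻¹ * ∫ α : ℝ, (α / e) ^ 2 * φ (α / e) := by
            rw [← integral_const_mul]
            congr 1
            funext α
            field_simp
          rw [h2, h, ← mul_assoc, inv_mul_cancel₀ he0.ne', one_mul]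
        rw [e2]
        push_cast
        linarith
  obtain ⟨J, hJ⟩ := exists_nat_gt (M / I0)
  obtain ⟨r, h1, h2, h3, h4, h5⟩ := hind J
  refine ⟨r, h1, h2, h3, h4, ?_⟩
  rw [div_lt_iff₀ hI] at hJ
  linarith

/-- the property of the limit measures that is used for the upper bounds -/
def Sing (μ : Measure ℝ) : Prop := ∃ C : ℝ, 0 < C ∧ ∀ r, TF (1 / 2) r → (∀ α, 0 ≤ r α) →
    ∀ a : ℝ, 0 < a → (∀ α, |α| < a → r α = 0) → (∀ α, r α * |α| ^ 3 ≤ 1) → ∀ c : ℝ, 0 < c →
    |2 * ∫ u, bl r u ∂μ - (bl r 0 + 2 * ∫ u in Ioi 0, bl r u ∂lam)| ≤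
      C * (c * (∫ α, α ^ 2 * r α) + 1 + 1 / c)

/-- the variation of the transform -/
lemma bl_var {δ : ℝ} {r : ℝ → ℝ} (hr : TF δ r) (hr0 : ∀ α, 0 ≤ r α) :
    (∀ u, bl r u ≤ bl r 0) ∧ ∀ A : ℝ, 0 < A → δ * A ≤ 1 / 2 → ∀ u, 0 ≤ u → u ≤ A →
      8 * u ^ 2 * ∫ α, α ^ 2 * r α ≤ bl r 0 - bl r u := by
  have e0 : ∀ u, bl r 0 - bl r u = ∫ α, r α * (1 - Real.cos (2 * Real.pi * α * u)) := by
    intro u
    unfold bl
    rw [← integral_sub (hr.int_mul (cos_cont 0)) (hr.int_mul (cos_cont u))]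
    congr 1
    funext α
    rw [mul_zero, Real.cos_zero]
    ring
  constructor
  · intro u
    rw [← sub_nonneg, e0]
    apply integral_nonneg
    intro α
    exact mul_nonneg (hr0 α) (by linarith [Real.cos_le_one (2 * Real.pi * α * u)])
  · intro A hA hδA u hu huA
    rw [e0, ← integral_const_mul]
    apply integral_mono
    · have := hr.int_mul (g := fun α => 8 * u ^ 2 * α ^ 2) (by fun_prop)
      refine this.congr (Eventually.of_forall fun α => ?_)
      simp only
      ring
    · exact hr.int_mul (by fun_prop)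
    intro α
    simp only
    rcases lt_or_ge δ |α| with h | h
    · rw [hr.supp α h]
      simp
    · have hpi := Real.pi_pos
      have h1 : |2 * Real.pi * α * u| ≤ Real.pi := by
        rw [abs_mul, abs_mul, abs_of_pos (by positivity : 0 < 2 * Real.pi), abs_of_nonneg hu]
        have h2 : |α| * u ≤ δ * A := by
          apply mul_le_mul h huA hu ((abs_nonneg _).trans h)
        nlinarith
      have h2 := Real.cos_le_one_sub_mul_cos_sq h1
      have e3 : 2 / Real.pi ^ 2 * (2 * Real.pi * α * u) ^ 2 = 8 * u ^ 2 * α ^ 2 := by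
        field_simp
        ring
      rw [e3] at h2
      have h3 := hr0 α
      nlinarith

/-- **Domination of the intervals by the predicted measure.** -/
theorem LimData.eq_of_upper {μ : Measure ℝ} {w : ℝ} (h : LimData μ w) (hS : Sing μ)
    (hdom : ∀ a b : ℝ, 0 ≤ a → a < b → μ (Ioc a b) ≤ lam (Ioc a b)) :
    μ.restrict (Ioi 0) = lam.restrict (Ioi 0) := by
  have := h.lf
  obtain ⟨g, hg⟩ := exists_excess lam μ 0 hdom
  obtain ⟨χ, hχ, -, hnn, h1⟩ := exists_kernel
  obtain ⟨R, hR0, hR⟩ := hχ.bdd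
  obtain ⟨C, hC⟩ := h.approx
  have hgle : g ≤ lam.restrict (Ioi 0) := by rw [hg]; exact Measure.le_add_left le_rfl
  have hgi : ∀ δ r, TF δ r → Integrable (bl r) g := fun δ r hr =>
    ((lam_int δ r hr).restrict).mono_measure hgle
  have hsplit : ∀ δ r, TF δ r → 2 * ∫ u, bl r u ∂μ - (bl r 0 + 2 * ∫ u in Ioi 0, bl r u ∂lam) =
      (2 * μ.real {0} - 1) * bl r 0 - 2 * ∫ u, bl r u ∂g := by
    intro δ r hr
    have hi := h.int δ r hr
    rw [split_zero μ h.neg hi, hg, integral_add_measure hi.restrict (hgi δ r hr)]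
    ring
  set E : ℝ := 2 * μ.real {0} - 1 with hE
  -- the bounded integrals
  have hb1 : ∀ n : ℕ, 2 ≤ n → |E - 2 * ∫ u, bl χ ((n : ℝ)⁻¹ * u) ∂g| ≤ |C| * R * ((n : ℝ)⁻¹) ^ 2 := by
    intro n hn
    have hn0 : (0 : ℝ) < n := by
      have : 0 < n := by omega
      exact_mod_cast this
    have hn2 : (2 : ℝ) ≤ n := by exact_mod_cast hn
    set δ : ℝ := (n : ℝ)⁻¹ with hδ
    have hδ0 : 0 < δ := by positivity
    have hδ2 : δ ≤ 1 / 2 := by
      rw [hδ, inv_eq_one_div]
      exact one_div_le_one_div_of_le (by norm_num) hn2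
    have hTF : TF δ (fun α => χ (α / δ)) := by
      have := hχ.scale hδ0
      rwa [mul_one] at this
    have h2 := hC δ hδ0 hδ2 _ hTF R (fun α => hR _)
    rw [hsplit δ _ hTF] at h2
    have e1 : ∀ u, bl (fun α => χ (α / δ)) u = δ * bl χ (δ * u) := fun u => bl_scale χ hδ0 u
    simp_rw [e1] at h2
    rw [mul_zero, h1, integral_const_mul] at h2
    have e2 : E * (δ * 1) - 2 * (δ * ∫ u, bl χ (δ * u) ∂g) =
        δ * (E - 2 * ∫ u, bl χ (δ * u) ∂g) := by ring
    rw [e2, abs_mul, abs_of_pos hδ0] at h2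
    have h3 : C * R * δ ^ 3 ≤ δ * (|C| * R * δ ^ 2) := by
      have := le_abs_self C
      have h4 : 0 ≤ R * δ ^ 3 := by positivity
      nlinarith
    exact le_of_mul_le_mul_left (h2.trans h3) hδ0
  have hint : ∀ n : ℕ, 2 ≤ n → Integrable (fun u => bl χ ((n : ℝ)⁻¹ * u)) g := by
    intro n hn
    have hn0 : (0 : ℝ) < n := by
      have : 0 < n := by omega
      exact_mod_cast this
    set δ : ℝ := (n : ℝ)⁻¹ with hδ
    have hδ0 : 0 < δ := by positivity
    have hTF : TF δ (fun α => χ (α / δ)) := by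
      have := hχ.scale hδ0
      rwa [mul_one] at this
    refine ((hgi δ _ hTF).const_mul δ⁻¹).congr (Eventually.of_forall fun u => ?_)
    simp only
    rw [bl_scale χ hδ0 u]
    field_simp
  have hpt : ∀ u : ℝ, Tendsto (fun n : ℕ => bl χ ((n : ℝ)⁻¹ * u)) atTop (𝓝 1) := by
    intro u
    have h2 : Tendsto (fun n : ℕ => (n : ℝ)⁻¹ * u) atTop (𝓝 (0 * u)) :=
      tendsto_inv_atTop_nhds_zero_nat.mul_const u
    rw [zero_mul] at h2
    have h3 := ((bl_cont hχ).tendsto 0).comp h2
    rw [h1] at h3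
    exact h3
  -- the excess is finite
  have hfin : g univ < ⊤ := by
    have h2 : ∫⁻ u, liminf (fun n : ℕ => ENNReal.ofReal (bl χ ((n : ℝ)⁻¹ * u))) atTop ∂g ≤
        liminf (fun n : ℕ => ∫⁻ u, ENNReal.ofReal (bl χ ((n : ℝ)⁻¹ * u)) ∂g) atTop := by
      apply lintegral_liminf_le
      intro n
      have := bl_cont hχ
      fun_prop
    have h3 : ∀ u : ℝ, liminf (fun n : ℕ => ENNReal.ofReal (bl χ ((n : ℝ)⁻¹ * u))) atTop = 1 := by
      intro u
      have h4 := (ENNReal.continuous_ofReal.tendsto 1).comp (hpt u)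
      rw [ENNReal.ofReal_one] at h4
      exact h4.liminf_eq
    simp_rw [h3] at h2
    rw [lintegral_one] at h2
    refine h2.trans_lt ?_
    have h4 : liminf (fun n : ℕ => ∫⁻ u, ENNReal.ofReal (bl χ ((n : ℝ)⁻¹ * u)) ∂g) atTop ≤
        ENNReal.ofReal ((|E| + |C| * R) / 2) := by
      apply liminf_le_of_le
      · isBoundedDefault
      intro b hb
      obtain ⟨n, hn1, hn2⟩ := (hb.and (eventually_ge_atTop 2)).exists
      refine hn1.trans ?_
      rw [← ofReal_integral_eq_lintegral_ofReal (hint n hn2) (Eventually.of_forall fun u => hnn _)]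
      apply ENNReal.ofReal_le_ofReal
      have h5 := (abs_le.1 (hb1 n hn2)).1
      have h6 : ((n : ℝ)⁻¹) ^ 2 ≤ 1 := by
        apply pow_le_one₀ (by positivity)
        rw [inv_le_one₀ (by
          have : 0 < n := by omega
          exact_mod_cast this)]
        have : 1 ≤ n := by omega
        exact_mod_cast this
      have h7 : |C| * R * ((n : ℝ)⁻¹) ^ 2 ≤ |C| * R := mul_le_of_le_one_right (by positivity) h6
      have h8 := le_abs_self E
      linarith
    exact h4.trans_lt ENNReal.ofReal_lt_top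
  have hgf : IsFiniteMeasure g := ⟨hfin⟩
  -- the total mass
  have hmass : E = 2 * g.real univ := by
    have h2 : Tendsto (fun n : ℕ => ∫ u, bl χ ((n : ℝ)⁻¹ * u) ∂g) atTop (𝓝 (∫ _, 1 ∂g)) := by
      obtain ⟨H, hH0, hH⟩ := hχ.decay 0
      simp only [pow_zero, mul_one] at hH
      apply tendsto_integral_of_dominated_convergence (fun _ => H)
      · intro n
        have := bl_cont hχ
        exact (this.comp (by fun_prop)).aestronglyMeasurable
      · exact integrable_const _
      · intro n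
        exact Eventually.of_forall fun u => hH _
      · exact Eventually.of_forall hpt
    have h3 : Tendsto (fun n : ℕ => E - 2 * ∫ u, bl χ ((n : ℝ)⁻¹ * u) ∂g) atTop
        (𝓝 (E - 2 * ∫ _, 1 ∂g)) := tendsto_const_nhds.sub (h2.const_mul 2)
    have h4 : Tendsto (fun n : ℕ => E - 2 * ∫ u, bl χ ((n : ℝ)⁻¹ * u) ∂g) atTop (𝓝 0) := by
      apply squeeze_zero_norm' (a := fun n : ℕ => |C| * R * ((n : ℝ)⁻¹) ^ 2)
      · filter_upwards [eventually_ge_atTop 2] with n hn
        exact hb1 n hn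
      · have h5 := (tendsto_inv_atTop_nhds_zero_nat (𝕜 := ℝ)).pow 2
        have h6 := h5.const_mul (|C| * R)
        simpa using h6
    have h5 := tendsto_nhds_unique h3 h4
    rw [integral_const, smul_eq_mul, mul_one] at h5
    linarith
  -- the singular test functions
  obtain ⟨C2, hC2, hS2⟩ := hS
  have hvar : ∀ δ r, TF δ r → 2 * ∫ u, bl r u ∂μ - (bl r 0 + 2 * ∫ u in Ioi 0, bl r u ∂lam) =
      2 * ∫ u, (bl r 0 - bl r u) ∂g := by
    intro δ r hr
    rw [hsplit δ r hr, integral_sub (integrable_const _) (hgi δ r hr), integral_const, smul_eq_mul,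
      hmass]
    ring
  have key : ∀ a b : ℝ, 0 < a → a < b → g (Ioc a b) = 0 := by
    intro a b ha hab
    have hb : 0 < b := ha.trans hab
    by_contra hne
    have hgp : 0 < g.real (Ioc a b) := by
      rw [measureReal_def]
      exact ENNReal.toReal_pos hne (measure_ne_top _ _)
    set q : ℝ := 16 * a ^ 2 * g.real (Ioc a b) with hq
    have hq0 : 0 < q := by positivity
    set c : ℝ := q / (2 * C2) with hc
    have hc0 : 0 < c := by positivity
    have hα0 : 0 < min (1 / 2) (1 / (2 * b)) := lt_min (by norm_num) (by positivity)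
    obtain ⟨r, hr, hr0, ⟨a0, ha0, hra⟩, hr3, hM⟩ := exists_big hα0
      (2 * (C2 * (1 + 1 / c) + 1) / q)
    have hr' : TF (1 / 2) r := hr.mono (min_le_left _ _)
    obtain ⟨v1, v2⟩ := bl_var hr hr0
    have h2 := hS2 r hr' hr0 a0 ha0 hra hr3 c hc0
    rw [hvar _ r hr] at h2
    have hI0 : 0 ≤ ∫ α, α ^ 2 * r α := integral_nonneg fun α => mul_nonneg (sq_nonneg _) (hr0 α)
    set I2 := ∫ α, α ^ 2 * r α with hI2
    have hvi : Integrable (fun u => bl r 0 - bl r u) g :=
      (integrable_const _).sub (hgi _ r hr)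
    have h3 : q * I2 ≤ 2 * ∫ u, (bl r 0 - bl r u) ∂g := by
      have h4 : ∫ u in Ioc a b, (8 * a ^ 2 * I2) ∂g ≤ ∫ u in Ioc a b, (bl r 0 - bl r u) ∂g := by
        apply setIntegral_mono_on (integrable_const _).integrableOn hvi.integrableOn
          measurableSet_Ioc
        intro u hu
        have h5 := v2 b hb (by
          calc min (1 / 2) (1 / (2 * b)) * b ≤ 1 / (2 * b) * b :=
                mul_le_mul_of_nonneg_right (min_le_right _ _) hb.le
            _ = 1 / 2 := by field_simp) u (ha.le.trans hu.1.le) hu.2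
        refine le_trans ?_ h5
        have h6 : a ^ 2 ≤ u ^ 2 := pow_le_pow_left₀ ha.le hu.1.le 2
        gcongr
      have h5 : ∫ u in Ioc a b, (bl r 0 - bl r u) ∂g ≤ ∫ u, (bl r 0 - bl r u) ∂g :=
        setIntegral_le_integral hvi (Eventually.of_forall fun u => sub_nonneg.2 (v1 u))
      rw [setIntegral_const, smul_eq_mul] at h4
      have h6 : q * I2 = 2 * (g.real (Ioc a b) * (8 * a ^ 2 * I2)) := by
        rw [hq]
        ring
      rw [h6]
      linarith
    have h4 := (le_abs_self _).trans h2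
    have h5 : C2 * (c * I2 + 1 + 1 / c) = q / 2 * I2 + C2 * (1 + 1 / c) := by
      rw [hc]
      field_simp
      ring
    rw [h5] at h4
    have h6 : q / 2 * I2 ≤ C2 * (1 + 1 / c) := by linarith
    have h7 : C2 * (1 + 1 / c) + 1 ≤ q / 2 * I2 := by
      calc C2 * (1 + 1 / c) + 1 = q / 2 * (2 * (C2 * (1 + 1 / c) + 1) / q) := by field_simp
        _ ≤ _ := mul_le_mul_of_nonneg_left hM (by positivity)
    linarith
  -- the excess vanishes
  have hgz : g (Ioi 0) = 0 := by
    have h2 : Ioi (0 : ℝ) = ⋃ n : ℕ, Ioc (1 / ((n : ℝ) + 1)) (1 / ((n : ℝ) + 1) + n + 1) := by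
      ext x
      simp only [mem_Ioi, mem_iUnion, mem_Ioc]
      constructor
      · intro hx
        obtain ⟨n, hn⟩ := exists_nat_gt (max (1 / x) x)
        have hn1 : 1 / x < n := (le_max_left _ _).trans_lt hn
        have hn2 : x < n := (le_max_right _ _).trans_lt hn
        refine ⟨n, ?_, ?_⟩
        · rw [div_lt_iff₀ (by positivity)]
          rw [div_lt_iff₀ hx] at hn1
          nlinarith
        · have : (0 : ℝ) < 1 / ((n : ℝ) + 1) := by positivity
          linarith
      · rintro ⟨n, hn, -⟩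
        have : (0 : ℝ) < 1 / ((n : ℝ) + 1) := by positivity
        linarith
    rw [h2]
    refine measure_iUnion_null fun n => key _ _ (by positivity) ?_
    have : (0 : ℝ) ≤ n := Nat.cast_nonneg n
    linarith
  have hgz' : g (Ioi 0)ᶜ = 0 := by
    have h3 : g (Ioi 0)ᶜ ≤ lam.restrict (Ioi 0) (Ioi 0)ᶜ := hgle _
    rw [Measure.restrict_apply measurableSet_Ioi.compl, compl_inter_self, measure_empty] at h3
    exact le_antisymm h3 bot_le
  have hg0 : g = 0 := by
    rw [← Measure.measure_univ_eq_zero, ← union_compl_self (Ioi (0 : ℝ))]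
    exact measure_union_null hgz hgz'
  rw [hg, hg0, add_zero]

end Pool.Agent.E8helper72.PC
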