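import Pool.Agent.E8helper72.PC.ZBlock
import Pool.Agent.E8helper72.PC.Tfae

/-! # The limit measures of the zeros of zeta -/

set_option autoImplicit false

namespace Pool.Agent.E8helper72.PC

open MeasureTheory Set Filter Topology
open H370 (Zf mult mem_Zf good_zeta zset NN NN_eq)

/-- the pairs of zeros -/
noncomputable def SS (T : ℝ) : Finset (ℂ × ℂ) := ZT T ×ˢ ZT T

/-- the normalised weights -/
noncomputable def wn (T : ℝ) (p : ℂ × ℂ) : ℝ := ww p / (2 * XX T)

/-- the normalised distances -/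
noncomputable def xn (T : ℝ) (p : ℂ × ℂ) : ℝ := dd (Real.log T) p

lemma fam : ∃ C : ℝ, ∀ᶠ T : ℝ in atTop, (∀ p ∈ SS T, 0 ≤ wn T p) ∧ (∀ p ∈ SS T, 0 ≤ xn T p) ∧
    ∀ n : ℕ, ∑ p ∈ SS T with (n : ℝ) ≤ xn T p, wn T p / (1 + xn T p ^ 2) ≤ C / (n + 1) := by
  obtain ⟨C, T0, hC, hT0, h⟩ := full_tail
  refine ⟨C / 2, ?_⟩
  filter_upwards [eventually_ge_atTop T0] with T hT
  have hX := XX_pos (hT0.trans hT)
  have hL := log_ge (hT0.trans hT)
  refine ⟨fun p _ => div_nonneg (ww_nonneg p) (by linarith), fun p _ => dd_nonneg (by linarith) p,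
    fun n => ?_⟩
  have h1 := h T hT n
  have h2 : ∑ p ∈ SS T with (n : ℝ) ≤ xn T p, wn T p / (1 + xn T p ^ 2) =
      (∑ p ∈ ZT T ×ˢ ZT T with (n : ℝ) ≤ dd (Real.log T) p,
        ww p / (1 + dd (Real.log T) p ^ 2)) / (2 * XX T) := by
    rw [Finset.sum_div]
    apply Finset.sum_congr rfl
    intro p _
    unfold wn xn
    ring
  rw [h2, div_le_iff₀ (by positivity)]
  refine h1.trans (le_of_eq ?_)
  field_simp

lemma sum_QS (T : ℝ) (f : ℝ → ℝ) : ∑ p ∈ SS T, wn T p * f (xn T p) =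
    QS (ZT T) (ZT T) (Real.log T) f / (2 * XX T) := by
  unfold QS SS wn xn
  rw [Finset.sum_div]
  apply Finset.sum_congr rfl
  intro p _
  ring

/-- pairs of equal ordinates -/
lemma diag_count : ∃ C : ℝ, ∀ T : ℝ, 10 ≤ T → NT T + NF T - C ≤
    ∑ p ∈ ZT T ×ˢ ZT T with dd (Real.log T) p = 0, ww p := by
  classical
  refine ⟨2 * NT 1, fun T hT => ?_⟩
  set Z := Zf riemannZeta 1 T with hZ
  have hmem : ∀ s, s ∈ Z ↔ s ∈ zset riemannZeta 1 T := fun s => by
    rw [hZ, mem_Zf good_zeta le_rfl]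
  have hsub : Z ⊆ ZT T := by
    intro s hs
    rw [hmem] at hs
    rw [mem_ZT]
    obtain ⟨h1, h2, h3, h4, h5⟩ := hs
    exact ⟨h1, h2, by linarith, h4, h5⟩
  have hcov : ZT T ⊆ ZT 1 ∪ Z := by
    intro s hs
    rw [mem_ZT] at hs
    obtain ⟨h1, h2, h3, h4, h5⟩ := hs
    rw [Finset.mem_union, mem_ZT, hmem]
    rcases le_or_gt s.im 1 with h | h
    · exact Or.inl ⟨h1, h2, h3, h, h5⟩
    · exact Or.inr ⟨h1, h2, h, h4, h5⟩
  have hu : ∀ P Q : Finset ℂ, ∑ s ∈ P ∪ Q, mz s ≤ ∑ s ∈ P, mz s + ∑ s ∈ Q, mz s := by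
    intro P Q
    rw [← Finset.sum_union_inter]
    have := Finset.sum_nonneg (s := P ∩ Q) fun s _ => mz_nonneg s
    linarith
  have hN : NT T ≤ NT 1 + ∑ s ∈ Z, mz s :=
    (Finset.sum_le_sum_of_subset_of_nonneg hcov fun s _ _ => mz_nonneg s).trans (hu _ _)
  have hF : NF T ≤ NT 1 + ∑ s ∈ Z.filter (fun s => s.re ≠ 1 / 2), mz s := by
    refine le_trans (Finset.sum_le_sum_of_subset_of_nonneg (t := ZT 1 ∪
      Z.filter (fun s => s.re ≠ 1 / 2)) ?_ fun s _ _ => mz_nonneg s) (hu _ _)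
    intro s hs
    rw [Finset.mem_filter] at hs
    have := hcov hs.1
    rw [Finset.mem_union] at this ⊢
    rcases this with h | h
    · exact Or.inl h
    · exact Or.inr (Finset.mem_filter.2 ⟨h, hs.2⟩)
  have hone : ∀ s ∈ Z, 1 ≤ mz s := by
    intro s hs
    rw [hmem] at hs
    unfold mz
    exact_mod_cast H370.Loc.mult_pos' good_zeta (show 0 < s.im by linarith [hs.2.2.1]) hs.2.2.2.2
  set W := Z.filter (fun s => s.re ≠ 1 / 2) with hW
  set f : ℂ → ℂ × ℂ := fun s => (s, s) with hf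
  set g : ℂ → ℂ × ℂ := fun s => (s, 1 - (starRingEnd ℂ) s) with hg
  have hfi : Function.Injective f := fun s s' h => (Prod.mk.inj h).1
  have hgi : Function.Injective g := fun s s' h => (Prod.mk.inj h).1
  have hdisj : Disjoint (Z.image f) (W.image g) := by
    rw [Finset.disjoint_left]
    intro p hp1 hp2
    obtain ⟨s, hs, rfl⟩ := Finset.mem_image.1 hp1
    obtain ⟨s', hs', h⟩ := Finset.mem_image.1 hp2
    obtain ⟨h1, h2⟩ := Prod.mk.inj h
    rw [hW, Finset.mem_filter] at hs'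
    apply hs'.2
    have h3 : 1 - (starRingEnd ℂ) s' = s' := h2.trans h1.symm
    have h4 := congrArg Complex.re h3
    simp only [Complex.sub_re, Complex.one_re, Complex.conj_re] at h4
    linarith
  have hsubset : Z.image f ∪ W.image g ⊆
      (ZT T ×ˢ ZT T).filter (fun p => dd (Real.log T) p = 0) := by
    intro p hp
    rw [Finset.mem_union] at hp
    rw [Finset.mem_filter, Finset.mem_product]
    rcases hp with hp | hp
    · obtain ⟨s, hs, rfl⟩ := Finset.mem_image.1 hp
      exact ⟨⟨hsub hs, hsub hs⟩, by simp [dd, hf]⟩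
    · obtain ⟨s, hs, rfl⟩ := Finset.mem_image.1 hp
      have h1 := (Finset.mem_filter.1 hs).1
      refine ⟨⟨hsub h1, hsub ?_⟩, by simp [dd, hg]⟩
      rw [hmem] at h1 ⊢
      exact H370.zset_refl good_zeta le_rfl h1
  have hsq : ∀ s ∈ Z, mz s ≤ ww (f s) := by
    intro s hs
    have := hone s hs
    simp only [ww, hf]
    nlinarith
  have hsq2 : ∀ s ∈ W, mz s ≤ ww (g s) := by
    intro s hs
    have h1 := (Finset.mem_filter.1 hs).1
    have h2 := hone s h1
    rw [hmem] at h1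
    have h3 : mz (1 - (starRingEnd ℂ) s) = mz s := by
      unfold mz
      rw [H370.mult_refl good_zeta h1.1 h1.2.1 (by linarith [h1.2.2.1])]
    simp only [ww, hg]
    rw [h3]
    nlinarith
  calc NT T + NF T - 2 * NT 1 ≤ ∑ s ∈ Z, mz s + ∑ s ∈ W, mz s := by linarith
    _ ≤ ∑ s ∈ Z, ww (f s) + ∑ s ∈ W, ww (g s) :=
        add_le_add (Finset.sum_le_sum hsq) (Finset.sum_le_sum hsq2)
    _ = ∑ p ∈ Z.image f ∪ W.image g, ww p := by
        rw [Finset.sum_union hdisj, Finset.sum_image (fun s _ s' _ h => hfi h),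
          Finset.sum_image (fun s _ s' _ h => hgi h)]
    _ ≤ _ := Finset.sum_le_sum_of_subset_of_nonneg hsubset fun p _ _ => ww_nonneg p

/-- **The limit measures of the zeros have the required properties.** -/
theorem zlim (U : Ultrafilter ℝ) (hU : (U : Filter ℝ) ≤ atTop) (μ : Measure ℝ) (p : ℝ)
    (hμ : LimM (U : Filter ℝ) SS wn xn μ) (hp : Tendsto offp (U : Filter ℝ) (𝓝 p)) :
    LimData μ p := by
  have := hμ.lf
  have hXev : ∀ᶠ T : ℝ in (U : Filter ℝ), 10 ≤ T := hU (eventually_ge_atTop 10)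
  -- limits of the pair sums
  have hlim : ∀ δ r, TF δ r → Tendsto (fun T => QS (ZT T) (ZT T) (Real.log T) (bl r) / XX T)
      (U : Filter ℝ) (𝓝 (2 * ∫ u, bl r u ∂μ)) := by
    intro δ r hr
    obtain ⟨B, hB, hdec⟩ := hr.decay 1
    simp only [pow_one] at hdec
    have h1 := (hμ.lim (bl r) (bl_cont hr) ⟨B, hdec⟩).const_mul 2
    refine h1.congr fun T => ?_
    rw [sum_QS]
    ring
  have hdiff : ∀ δ r, TF δ r → Tendsto
      (fun T => |QS (ZT T) (ZT T) (Real.log T) (bl r) - MM r * XX T| / XX T)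
      (U : Filter ℝ) (𝓝 |2 * ∫ u, bl r u ∂μ - MM r|) := by
    intro δ r hr
    have h1 := ((hlim δ r hr).sub_const (MM r)).abs
    refine h1.congr' ?_
    filter_upwards [hXev] with T hT
    have hX := XX_pos hT
    rw [← abs_of_pos hX, ← abs_div, abs_of_pos hX]
    congr 1
    field_simp
  refine ⟨hμ.lf, hμ.neg, ?_, ?_, ?_, ?_, ?_⟩
  · intro δ r hr
    obtain ⟨B, hB, hdec⟩ := hr.decay 1
    simp only [pow_one] at hdec
    exact hμ.int _ (bl_cont hr) ⟨B, hdec⟩
  · exact ge_of_tendsto hp (Eventually.of_forall fun T => (offp_mem T).1)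
  · -- the diagonal
    obtain ⟨C, hC⟩ := diag_count
    obtain ⟨C0, hfam⟩ := fam
    have hw : ∀ᶠ T in (U : Filter ℝ), ∀ p ∈ SS T, 0 ≤ wn T p := hU (hfam.mono fun T h => h.1)
    have hcw : ∀ᶠ T in (U : Filter ℝ), (NT T / XX T * (1 + offp T) - C / XX T) / 2 ≤
        cw (SS T) (wn T) (xn T) 0 0 := by
      filter_upwards [hXev] with T hT
      have hX := XX_pos hT
      have h1 := hC T hT
      have h2 : NT T / XX T * (1 + offp T) - C / XX T = (NT T + NF T - C) / XX T := by
        have h3 : NT T * offp T = NF T := by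
          unfold offp
          rcases (NT_nonneg T).eq_or_lt with h0 | h0
          · have h4 := NF_le T
            have h5 := NF_nonneg T
            rw [← h0] at h4 ⊢
            rw [zero_mul]
            linarith
          · field_simp
        rw [← h3]
        field_simp
      rw [h2]
      have h3 : cw (SS T) (wn T) (xn T) 0 0 =
          (∑ p ∈ ZT T ×ˢ ZT T with dd (Real.log T) p = 0, ww p) / (2 * XX T) := by
        unfold cw SS wn xn
        rw [Finset.sum_div]
        apply Finset.sum_congr _ fun p _ => rfl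
        apply Finset.filter_congr
        intro p _
        constructor
        · rintro ⟨h4, h5⟩
          exact le_antisymm h5 h4
        · intro h4
          rw [h4]
          exact ⟨le_rfl, le_rfl⟩
      rw [h3, div_div, mul_comm (XX T) 2]
      exact div_le_div_of_nonneg_right h1 (by positivity)
    have hconst : Tendsto (fun T : ℝ => C / XX T) (U : Filter ℝ) (𝓝 0) := by
      apply Tendsto.mono_left _ hU
      apply Tendsto.const_div_atTop
      rw [tendsto_atTop]
      intro b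
      filter_upwards [XX_large 1 1 one_pos, eventually_ge_atTop b] with T h1 h2
      linarith
    have hlow : Tendsto (fun T => (NT T / XX T * (1 + offp T) - C / XX T) / 2) (U : Filter ℝ)
        (𝓝 ((1 * (1 + p) - 0) / 2)) :=
      (((NT_asymp.mono_left hU).mul (tendsto_const_nhds.add hp)).sub hconst).div_const 2
    have hη : ∀ η : ℝ, 0 < η → (1 + p) / 2 ≤ μ.real {0} + (μ (Ioc 0 η)).toReal := by
      intro η hη
      have h1 : μ.real (Ioc (-1) η) = μ.real {0} + (μ (Ioc 0 η)).toReal := by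
        rw [real_Ioc_add hμ (show (-1 : ℝ) ≤ 0 by norm_num) hη.le]
        congr 1
        rw [measureReal_def, measureReal_def]
        congr 1
        apply le_antisymm
        · have h4 : Ioc (-1 : ℝ) 0 ⊆ {0} ∪ Iio 0 := by
            intro y hy
            rcases hy.2.lt_or_eq with h7 | h7
            · exact Or.inr h7
            · exact Or.inl h7
          refine (measure_mono h4).trans ((measure_union_le _ _).trans ?_)
          rw [hμ.neg, add_zero]
        · apply measure_mono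
          intro y hy
          rw [mem_singleton_iff.1 hy]
          exact ⟨by norm_num, le_rfl⟩
      rw [← h1]
      by_contra hcon
      push Not at hcon
      obtain ⟨v, hv1, hv2⟩ := exists_between hcon
      have h2 := hμ.window_lt hw (show (-1 : ℝ) < 0 by norm_num) hη hv1
      have h3 : ∀ᶠ T in (U : Filter ℝ), v < (NT T / XX T * (1 + offp T) - C / XX T) / 2 :=
        hlow.eventually (lt_mem_nhds (by linarith))
      obtain ⟨T, h4, h5, h6⟩ := (h2.and (h3.and hcw)).exists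
      linarith
    have hlim0 : Tendsto (fun η => μ.real {0} + (μ (Ioc 0 η)).toReal) (𝓝[>] 0)
        (𝓝 (μ.real {0} + 0)) := by
      apply Tendsto.const_add
      have := dist_right μ 0 0
      simpa using this
    have h7 : (1 + p) / 2 ≤ μ.real {0} + 0 := by
      apply ge_of_tendsto hlim0
      filter_upwards [self_mem_nhdsWithin] with η h8
      exact hη η h8
    linarith
  · obtain ⟨C, hC, h⟩ := pair_full
    refine ⟨C, fun δ hδ hδ2 r hr R hR => ?_⟩
    apply le_of_forall_pos_le_add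
    intro ε hε
    apply le_of_tendsto (hdiff δ r hr)
    exact hU (h δ hδ hδ2 r hr R hR ε hε)
  · intro hp0 r hr
    have h1 : |2 * ∫ u, bl r u ∂μ - MM r| ≤ 0 := by
      apply le_of_forall_pos_le_add
      intro ε hε
      rw [zero_add]
      obtain ⟨η, hη, h⟩ := pair_exact hr ε hε
      apply le_of_tendsto (hdiff (1 / 2) r hr)
      rw [hp0] at hp
      filter_upwards [hU h, hp.eventually (gt_mem_nhds hη)] with T h1 h2
      exact h1 h2.le
    have h2 := abs_nonpos_iff.1 h1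
    unfold MM at h2
    linarith

/-- **The equivalences for the zeros of zeta, along every filter.** -/
theorem zeta_tfae (l : Filter ℝ) (hl : l ≤ atTop) :
    List.TFAE [
      ∀ α β : ℝ, 0 < α → α < β → Tendsto (fun T => cw (SS T) (wn T) (xn T) α β) l (𝓝 (II α β)),
      ∀ α β : ℝ, 0 < α → α < β → ∀ ε : ℝ, 0 < ε →
        ∀ᶠ T in l, II α β - ε ≤ cw (SS T) (wn T) (xn T) α β,
      ∀ β : ℝ, 0 < β → ∀ ε : ℝ, 0 < ε → ∃ α : ℝ, 0 < α ∧ α < β ∧
        ∀ᶠ T in l, II 0 β - ε ≤ cw (SS T) (wn T) (xn T) α β,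
      ∀ β : ℝ, 0 < β → ∀ ε : ℝ, 0 < ε →
        ∀ᶠ T in l, cw (SS T) (wn T) (xn T) 0 β ≤ 1 / 2 + II 0 β + ε,
      Tendsto offp l (𝓝 0) ∧ ∃ A : ℝ, ∀ α β : ℝ, A < α → α < β → ∀ ε : ℝ, 0 < ε →
        ∀ᶠ T in l, II α β - ε ≤ cw (SS T) (wn T) (xn T) α β,
      Tendsto offp l (𝓝 0) ∧ ∃ A : ℝ, ∀ α β : ℝ, A < α → α < β → ∀ ε : ℝ, 0 < ε →
        ∀ᶠ T in l, cw (SS T) (wn T) (xn T) α β ≤ II α β + ε] := by
  obtain ⟨C, hC⟩ := fam
  exact abstract_tfae l SS wn xn offp ⟨C, hl hC⟩
    ⟨1, Eventually.of_forall fun T => offp_mem T⟩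
    (fun U hU μ p hμ hp => zlim U (hU.trans hl) μ p hμ hp)

end Pool.Agent.E8helper72.PC
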