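import Pool.Agent.E8helper72.PC.UpE
import Pool.Agent.E8helper72.PC.UpG
import Pool.Agent.E8helper72.PC.ZLim

/-! # The upper half of the pair correlation conjecture -/

set_option autoImplicit false

namespace Pool.Agent.E8helper72.PC

open MeasureTheory Set Filter Topology
open H370 (Zf mult mem_Zf good_zeta zset NN NN_eq)
open Pool.Agent.Y750.OM (NO)

/-- **The pair sums for test functions that are large near the origin.** -/
theorem pair_full2 : ∃ C : ℝ, 0 < C ∧ ∀ r, TF (1 / 2) r → (∀ α, 0 ≤ r α) → ∀ a : ℝ, 0 < a →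
    (∀ α, |α| < a → r α = 0) → (∀ α, r α * |α| ^ 3 ≤ 1) → ∀ c : ℝ, 0 < c → ∀ ε : ℝ, 0 < ε →
    ∀ᶠ T : ℝ in atTop,
    |QS (ZT T) (ZT T) (Real.log T) (bl r) - MM r * XX T| / XX T ≤
      C * (c * (∫ α, α ^ 2 * r α) + 1 + 1 / c) + ε := by
  obtain ⟨C, hC, h⟩ := block_err2
  refine ⟨C, hC, fun r hr hr0 a ha hra hr3 c hc ε hε => ?_⟩
  have hI0 : 0 ≤ ∫ α, α ^ 2 * r α := integral_nonneg fun α => mul_nonneg (sq_nonneg _) (hr0 α)
  obtain ⟨K, hK⟩ := pair_recur hr (ε / 2) (by linarith)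
  have hbl : ∀ᶠ A : ℝ in atTop, |QS (Zf riemannZeta A (2 * A)) (Zf riemannZeta A (2 * A))
      (Real.log A) (bl r) - MM r * XX A| / XX A ≤
      C * (c * (∫ α, α ^ 2 * r α) + 1 + 1 / c) + ε / 2 := by
    filter_upwards [h r hr hr0 a ha hra hr3 c hc (ε / 2) (by linarith), eventually_ge_atTop 10]
      with A h1 h2
    rw [div_le_iff₀ (XX_pos h2)]
    exact h1
  have hall : ∀ᶠ T : ℝ in atTop, ∀ k ∈ Finset.Icc 1 K,
      |QS (Zf riemannZeta (T / 2 ^ k) (2 * (T / 2 ^ k))) (Zf riemannZeta (T / 2 ^ k)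
        (2 * (T / 2 ^ k))) (Real.log (T / 2 ^ k)) (bl r) - MM r * XX (T / 2 ^ k)| /
        XX (T / 2 ^ k) ≤ C * (c * (∫ α, α ^ 2 * r α) + 1 + 1 / c) + ε / 2 := by
    rw [Filter.eventually_all_finset]
    intro k _
    exact ev_div hbl (2 ^ k) (by positivity)
  filter_upwards [hK, hall] with T h1 h2
  have := h1 (C * (c * (∫ α, α ^ 2 * r α) + 1 + 1 / c) + ε / 2) (by positivity)
    (fun k hk1 hk2 => h2 k (Finset.mem_Icc.2 ⟨hk1, hk2⟩))
  linarith

/-- the limit measures have the property used for the upper bounds -/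
theorem zlim2 (U : Ultrafilter ℝ) (hU : (U : Filter ℝ) ≤ atTop) (μ : Measure ℝ)
    (hμ : LimM (U : Filter ℝ) SS wn xn μ) : Sing μ := by
  have hXev : ∀ᶠ T : ℝ in (U : Filter ℝ), 10 ≤ T := hU (eventually_ge_atTop 10)
  obtain ⟨C, hC, h⟩ := pair_full2
  refine ⟨C, hC, fun r hr hr0 a ha hra hr3 c hc => ?_⟩
  apply le_of_forall_pos_le_add
  intro ε hε
  have hlim : Tendsto (fun T => QS (ZT T) (ZT T) (Real.log T) (bl r) / XX T)
      (U : Filter ℝ) (𝓝 (2 * ∫ u, bl r u ∂μ)) := by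
    obtain ⟨B, hB, hdec⟩ := hr.decay 1
    simp only [pow_one] at hdec
    have h1 := (hμ.lim (bl r) (bl_cont hr) ⟨B, hdec⟩).const_mul 2
    refine h1.congr fun T => ?_
    rw [sum_QS]
    ring
  have hdiff : Tendsto (fun T => |QS (ZT T) (ZT T) (Real.log T) (bl r) - MM r * XX T| / XX T)
      (U : Filter ℝ) (𝓝 |2 * ∫ u, bl r u ∂μ - MM r|) := by
    have h1 := (hlim.sub_const (MM r)).abs
    refine h1.congr' ?_
    filter_upwards [hXev] with T hT
    have hX := XX_pos hT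
    rw [← abs_of_pos hX, ← abs_div, abs_of_pos hX]
    congr 1
    field_simp
  exact le_of_tendsto hdiff (hU (h r hr hr0 a ha hra hr3 c hc ε hε))

/-- **The upper half implies the conjecture, along every filter.** -/
theorem zeta_up (l : Filter ℝ) (hl : l ≤ atTop) (h : ∀ α β : ℝ, 0 < α → α < β → ∀ ε : ℝ, 0 < ε →
    ∀ᶠ T in l, cw (SS T) (wn T) (xn T) α β ≤ II α β + ε) (α β : ℝ) (hα : 0 < α) (hαβ : α < β) :
    Tendsto (fun T => cw (SS T) (wn T) (xn T) α β) l (𝓝 (II α β)) := by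
  obtain ⟨C, hC⟩ := fam
  rw [tendsto_iff_ultrafilter]
  intro U hU
  have hUt := hU.trans hl
  obtain ⟨μ, hμ⟩ := exists_limM U SS wn xn C (hUt hC)
  have hw : ∀ᶠ T in (U : Filter ℝ), ∀ p ∈ SS T, 0 ≤ wn T p := hUt (hC.mono fun T h => h.1)
  obtain ⟨p, -, hp⟩ := (isCompact_Icc (a := (0 : ℝ)) (b := 1)).ultrafilter_le_nhds' (U.map offp) (by
    rw [Ultrafilter.mem_map]
    exact Filter.univ_mem' fun T => offp_mem T)
  rw [Ultrafilter.coe_map] at hp
  have hdata := zlim U hUt μ p hμ hp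
  have hdom : ∀ a b : ℝ, 0 ≤ a → a < b → μ (Ioc a b) ≤ lam (Ioc a b) := fun a b ha hab =>
    hμ.up_far hw (fun α β h1 h2 ε hε => hU (h α β h1 h2 ε hε)) ha hab
  exact hμ.window_tendsto hw (hdata.eq_of_upper (zlim2 U hUt μ hμ) hdom) hα hαβ

end Pool.Agent.E8helper72.PC
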