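import Pool.Agent.E8helper72.PC.Fam

/-! # Windows and limit measures -/

set_option autoImplicit false

namespace Pool.Agent.E8helper72.PC

open MeasureTheory Set Filter Topology

variable {ι κ : Type*}

/-- the predicted density of a window -/
noncomputable def II (a b : ℝ) : ℝ := ∫ u in a..b, FF u

lemma FF_ii (a b : ℝ) : IntervalIntegrable FF volume a b := FF_cont.intervalIntegrable _ _

lemma II_add (a b c : ℝ) : II a b + II b c = II a c :=
  intervalIntegral.integral_add_adjacent_intervals (FF_ii a b) (FF_ii b c)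

lemma II_nonneg {a b : ℝ} (h : a ≤ b) : 0 ≤ II a b :=
  intervalIntegral.integral_nonneg h fun u _ => FF_nonneg u

lemma II_le {a b : ℝ} (h : a ≤ b) : II a b ≤ b - a := by
  have h1 : II a b ≤ ∫ _ in a..b, (1 : ℝ) :=
    intervalIntegral.integral_mono_on h (FF_ii a b) (by simp) fun u _ => FF_le_one u
  simpa using h1

lemma lam_real {a b : ℝ} (h : a ≤ b) : lam.real (Ioc a b) = II a b := by
  rw [measureReal_def, lam_Ioc h]
  exact ENNReal.toReal_ofReal (II_nonneg h)

/-- the point masses of the predicted measure vanish -/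
lemma lam_Icc {a b : ℝ} (h : a ≤ b) : lam.real (Icc a b) = II a b := by
  have h1 : lam (Icc a b) = lam (Ioc a b) := by
    rw [← Ioc_union_left h]
    apply le_antisymm _ (measure_mono subset_union_left)
    refine (measure_union_le _ _).trans ?_
    have : lam {a} = 0 := le_antisymm ((lam_le {a}).trans (by simp)) bot_le
    rw [this, add_zero]
  rw [measureReal_def, h1, ← measureReal_def, lam_real h]

lemma cw_mono {S : Finset κ} {w x : κ → ℝ} (hw : ∀ p ∈ S, 0 ≤ w p) {a b a' b' : ℝ} (h1 : a' ≤ a)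
    (h2 : b ≤ b') : cw S w x a b ≤ cw S w x a' b' := by
  unfold cw
  apply Finset.sum_le_sum_of_subset_of_nonneg
  · intro p hp
    rw [Finset.mem_filter] at hp ⊢
    exact ⟨hp.1, h1.trans hp.2.1, hp.2.2.trans h2⟩
  · intro p hp _
    exact hw p (Finset.mem_filter.1 hp).1

variable {U : Filter ι} [U.NeBot] {S : ι → Finset κ} {w x : ι → κ → ℝ} {μ : Measure ℝ}

omit [U.NeBot] in
lemma real_Ioc_add (h : LimM U S w x μ) {a b c : ℝ} (h1 : a ≤ b) (h2 : b ≤ c) :
    μ.real (Ioc a c) = μ.real (Ioc a b) + μ.real (Ioc b c) := by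
  have := h.lf
  exact dist_add μ h1 h2

/-- lower bounds of the windows pass to the limit -/
lemma LimM.le_of_windows (h : LimM U S w x μ) (hw : ∀ᶠ i in U, ∀ p ∈ S i, 0 ≤ w i p)
    {a α β d v : ℝ} (h1 : a < α) (h2 : β < d)
    (hv : ∀ᶠ i in U, v ≤ cw (S i) (w i) (x i) α β) : v ≤ μ.real (Ioc a d) := by
  by_contra hcon
  push Not at hcon
  obtain ⟨i, hi1, hi2⟩ := ((h.window_lt hw h1 h2 hcon).and hv).exists
  linarith

lemma LimM.ge_of_windows (h : LimM U S w x μ) (hw : ∀ᶠ i in U, ∀ p ∈ S i, 0 ≤ w i p)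
    {b α β c v : ℝ} (h1 : α < b) (h2 : c < β)
    (hv : ∀ᶠ i in U, cw (S i) (w i) (x i) α β ≤ v) : μ.real (Icc b c) ≤ v := by
  by_contra hcon
  push Not at hcon
  obtain ⟨i, hi1, hi2⟩ := ((h.window_gt hw h1 h2 hcon).and hv).exists
  linarith

/-- lower bounds near the origin -/
lemma LimM.low_near (h : LimM U S w x μ) (hw : ∀ᶠ i in U, ∀ p ∈ S i, 0 ≤ w i p)
    (hyp : ∀ β, 0 < β → ∀ ε, 0 < ε → ∃ α, 0 < α ∧ α < β ∧
      ∀ᶠ i in U, II 0 β - ε ≤ cw (S i) (w i) (x i) α β) {y : ℝ} (hy : 0 < y) :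
    lam (Ioc 0 y) ≤ μ (Ioc 0 y) := by
  have := h.lf
  rw [← ENNReal.toReal_le_toReal measure_Ioc_lt_top.ne measure_Ioc_lt_top.ne]
  have h1 : (lam (Ioc 0 y)).toReal = II 0 y := lam_real hy.le
  rw [h1]
  apply ge_of_tendsto (dist_right μ 0 y)
  filter_upwards [self_mem_nhdsWithin] with z hz
  apply le_of_forall_pos_sub_le
  intro ε hε
  obtain ⟨α, ha, -, hα⟩ := hyp y hy ε hε
  exact h.le_of_windows hw ha hz hα

/-- lower bounds of the distant windows -/
lemma LimM.low_far (h : LimM U S w x μ) (hw : ∀ᶠ i in U, ∀ p ∈ S i, 0 ≤ w i p) {A : ℝ}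
    (hyp : ∀ α β, A < α → α < β → ∀ ε, 0 < ε →
      ∀ᶠ i in U, II α β - ε ≤ cw (S i) (w i) (x i) α β) {a b : ℝ} (ha : A ≤ a) (hab : a < b) :
    lam (Ioc a b) ≤ μ (Ioc a b) := by
  have := h.lf
  rw [← ENNReal.toReal_le_toReal measure_Ioc_lt_top.ne measure_Ioc_lt_top.ne]
  have h1 : (lam (Ioc a b)).toReal = II a b := lam_real hab.le
  rw [h1]
  apply ge_of_tendsto (dist_right μ a b)
  filter_upwards [self_mem_nhdsWithin] with z hz
  apply le_of_forall_pos_sub_le
  intro ε hε
  set η : ℝ := min (ε / 2) ((b - a) / 2) with hη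
  have hη0 : 0 < η := by
    rw [hη]
    exact lt_min (by linarith) (by linarith)
  have hη1 : η ≤ ε / 2 := min_le_left _ _
  have hη2 : η ≤ (b - a) / 2 := min_le_right _ _
  have h2 := h.le_of_windows hw (show a < a + η by linarith) hz
    (hyp (a + η) b (by linarith) (by linarith) (ε / 2) (by linarith))
  have h3 := II_add a (a + η) b
  have h4 := II_le (show a ≤ a + η by linarith)
  refine le_trans ?_ h2
  linarith

/-- upper bounds of the distant windows -/
lemma LimM.up_far (h : LimM U S w x μ) (hw : ∀ᶠ i in U, ∀ p ∈ S i, 0 ≤ w i p) {A : ℝ}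
    (hyp : ∀ α β, A < α → α < β → ∀ ε, 0 < ε →
      ∀ᶠ i in U, cw (S i) (w i) (x i) α β ≤ II α β + ε) {a b : ℝ} (ha : A ≤ a) (hab : a < b) :
    μ (Ioc a b) ≤ lam (Ioc a b) := by
  have := h.lf
  rw [← ENNReal.toReal_le_toReal measure_Ioc_lt_top.ne measure_Ioc_lt_top.ne]
  have h1 : (lam (Ioc a b)).toReal = II a b := lam_real hab.le
  rw [h1]
  -- the part near the left end point is small
  have hlim : Tendsto (fun z => (μ (Ioc a z)).toReal) (𝓝[>] a) (𝓝 0) := by
    have := dist_right μ a a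
    simpa using this
  apply le_of_forall_pos_le_add
  intro ε hε
  obtain ⟨z, hz1, hz2, hz3⟩ : ∃ z, a < z ∧ z < b ∧ (μ (Ioc a z)).toReal < ε / 4 := by
    have h2 := hlim.eventually (gt_mem_nhds (show (0 : ℝ) < ε / 4 by linarith))
    have h3 : Ioo a b ∈ 𝓝[>] a := Ioo_mem_nhdsGT hab
    obtain ⟨z, hz, hz'⟩ := (h2.and h3).exists
    exact ⟨z, hz'.1, hz'.2, hz⟩
  have h2 := h.ge_of_windows hw (show (a + z) / 2 < z by linarith) (show b < b + ε / 4 by linarith)
    (hyp ((a + z) / 2) (b + ε / 4) (by linarith) (by linarith) (ε / 4) (by linarith))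
  have h3 := II_add a ((a + z) / 2) (b + ε / 4)
  have h4 := II_nonneg (show a ≤ (a + z) / 2 by linarith)
  have h5 := II_add a b (b + ε / 4)
  have h6 := II_le (show b ≤ b + ε / 4 by linarith)
  have h7 : (μ (Ioc z b)).toReal ≤ μ.real (Icc z b) :=
    ENNReal.toReal_mono measure_Icc_lt_top.ne (measure_mono Ioc_subset_Icc_self)
  have h8 := dist_add μ hz1.le hz2.le
  linarith

/-- upper bounds that include the origin -/
lemma LimM.up_near (h : LimM U S w x μ) (hw : ∀ᶠ i in U, ∀ p ∈ S i, 0 ≤ w i p)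
    (hx : ∀ᶠ i in U, ∀ p ∈ S i, 0 ≤ x i p)
    (hyp : ∀ β, 0 < β → ∀ ε, 0 < ε →
      ∀ᶠ i in U, cw (S i) (w i) (x i) 0 β ≤ 1 / 2 + II 0 β + ε) {y : ℝ} (hy : 0 ≤ y) :
    μ.real (Icc 0 y) ≤ 1 / 2 + II 0 y := by
  apply le_of_forall_pos_le_add
  intro ε hε
  have h2 : ∀ᶠ i in U, cw (S i) (w i) (x i) (-1) (y + ε / 2) ≤ 1 / 2 + II 0 (y + ε / 2) + ε / 2 := by
    filter_upwards [hx, hyp (y + ε / 2) (by linarith) (ε / 2) (by linarith)] with i hi1 hi2
    refine le_trans (le_of_eq ?_) hi2
    unfold cw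
    congr 1
    apply Finset.filter_congr
    intro p hp
    have := hi1 p hp
    constructor
    · rintro ⟨-, h⟩
      exact ⟨this, h⟩
    · rintro ⟨-, h⟩
      exact ⟨by linarith, h⟩
  have h3 := h.ge_of_windows hw (show (-1 : ℝ) < 0 by norm_num) (show y < y + ε / 2 by linarith) h2
  have h5 := II_add 0 y (y + ε / 2)
  have h6 := II_le (show y ≤ y + ε / 2 by linarith)
  linarith

omit [U.NeBot] in
/-- equality of the measures gives the convergence of the windows -/
lemma LimM.window_tendsto (h : LimM U S w x μ) (hw : ∀ᶠ i in U, ∀ p ∈ S i, 0 ≤ w i p)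
    (heq : μ.restrict (Ioi 0) = lam.restrict (Ioi 0)) {α β : ℝ} (hα : 0 < α) (hαβ : α < β) :
    Tendsto (fun i => cw (S i) (w i) (x i) α β) U (𝓝 (II α β)) := by
  have := h.lf
  rw [tendsto_order]
  constructor
  · intro v hv
    set η : ℝ := min ((II α β - v) / 4) ((β - α) / 4) with hη
    have hη0 : 0 < η := by
      rw [hη]
      exact lt_min (by linarith) (by linarith)
    have hη1 : η ≤ (II α β - v) / 4 := min_le_left _ _
    have hη2 : η ≤ (β - α) / 4 := min_le_right _ _
    apply h.window_gt hw (show α < α + η by linarith) (show β - η < β by linarith)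
    have h1 : μ.real (Ioc (α + η) (β - η)) = II (α + η) (β - η) := by
      rw [← lam_real (by linarith), measureReal_def, measureReal_def,
        restrict_Ioc heq (show 0 ≤ α + η by linarith)]
    have h2 : μ.real (Ioc (α + η) (β - η)) ≤ μ.real (Icc (α + η) (β - η)) :=
      ENNReal.toReal_mono measure_Icc_lt_top.ne (measure_mono Ioc_subset_Icc_self)
    have h3 := II_add α (α + η) β
    have h4 := II_le (show α ≤ α + η by linarith)
    have h5 := II_add (α + η) (β - η) β
    have h6 := II_le (show β - η ≤ β by linarith)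
    linarith
  · intro v hv
    set η : ℝ := min ((v - II α β) / 4) (α / 2) with hη
    have hη0 : 0 < η := by
      rw [hη]
      exact lt_min (by linarith) (by linarith)
    have hη1 : η ≤ (v - II α β) / 4 := min_le_left _ _
    have hη2 : η ≤ α / 2 := min_le_right _ _
    apply h.window_lt hw (show α - η < α by linarith) (show β < β + η by linarith)
    have h1 : μ.real (Ioc (α - η) (β + η)) = II (α - η) (β + η) := by
      rw [← lam_real (by linarith), measureReal_def, measureReal_def,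
        restrict_Ioc heq (show 0 ≤ α - η by linarith)]
    have h3 := II_add (α - η) α (β + η)
    have h4 := II_le (show α - η ≤ α by linarith)
    have h5 := II_add α β (β + η)
    have h6 := II_le (show β ≤ β + η by linarith)
    linarith

lemma measure_lt_top_of_singleton (ν : Measure ℝ) [IsLocallyFiniteMeasure ν] (a : ℝ) :
    ν {a} < ⊤ :=
  isCompact_singleton.measure_lt_top

/-- upper bounds that include the origin suffice -/
theorem LimData.eq_of_up {ν : Measure ℝ} {p : ℝ} (h : LimData ν p)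
    (hup : ∀ y, 0 ≤ y → ν.real (Icc 0 y) ≤ 1 / 2 + II 0 y) :
    p = 0 ∧ ν.real {0} = 1 / 2 ∧ ν.restrict (Ioi 0) = lam.restrict (Ioi 0) := by
  have := h.lf
  have h1 := hup 0 le_rfl
  rw [Icc_self] at h1
  have h2 : II 0 0 = 0 := by simp [II]
  rw [h2] at h1
  have hdiag := h.diag
  have hp := h.nonneg
  have hp0 : p = 0 := by linarith
  have hhalf : ν.real {0} = 1 / 2 := by linarith
  refine ⟨hp0, hhalf, ?_⟩
  have h3 := mono_eq lam ν lam_int (δ := 1 / 2) (by norm_num) (fun s hs => by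
    have h4 := h.exact hp0 s hs
    rw [split_zero ν h.neg (h.int _ s hs), hhalf] at h4
    linarith) (fun y hy => by
    rw [← ENNReal.toReal_le_toReal measure_Ioc_lt_top.ne measure_Ioc_lt_top.ne]
    have h4 : (lam (Ioc 0 y)).toReal = II 0 y := lam_real hy.le
    rw [h4]
    have h5 : ν.real (Icc 0 y) = ν.real {0} + ν.real (Ioc 0 y) := by
      rw [← Ioc_union_left hy.le, union_comm]
      refine measureReal_union (by simp) measurableSet_Ioc (measure_lt_top_of_singleton ν 0).ne
        measure_Ioc_lt_top.ne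
    have h6 := hup y hy.le
    rw [h5, hhalf] at h6
    have h7 : (ν (Ioc 0 y)).toReal = ν.real (Ioc 0 y) := rfl
    linarith)
  exact h3.symm

end Pool.Agent.E8helper72.PC
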