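import Pool.Agent.E8helper72.PC.Pairs
import Pool.Agent.Y750.OM.Conv1
import Pool.Agent.H370R2.Dyadic

/-! # Second moment of the local counts of all zeros up to height `T` -/

set_option autoImplicit false

namespace Pool.Agent.E8helper72.PC

open MeasureTheory Set Filter Topology
open H370 (Zf mult mem_Zf good_zeta zset NN NN_eq)

/-- the zeros with ordinate in `(0, T]` -/
noncomputable def ZT (T : ℝ) : Finset ℂ := (H370.zeta_zeros_finite T).toFinset

lemma mem_ZT {s : ℂ} {T : ℝ} : s ∈ ZT T ↔ s ∈ zset riemannZeta 0 T := by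
  unfold ZT
  rw [Set.Finite.mem_toFinset]

/-- multiplicities -/
noncomputable def mz (s : ℂ) : ℝ := (mult riemannZeta s : ℝ)

lemma mz_nonneg (s : ℂ) : 0 ≤ mz s := Nat.cast_nonneg _

lemma ZT_mono {T T' : ℝ} (h : T ≤ T') : ZT T ⊆ ZT T' := by
  intro s hs
  rw [mem_ZT] at hs ⊢
  obtain ⟨h1, h2, h3, h4, h5⟩ := hs
  exact ⟨h1, h2, h3, h4.trans h, h5⟩

lemma ZT_split {A : ℝ} (hA : 1 ≤ A) : ZT (2 * A) = ZT A ∪ Zf riemannZeta A (2 * A) := by
  ext s
  rw [Finset.mem_union, mem_ZT, mem_ZT, mem_Zf good_zeta hA]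
  constructor
  · rintro ⟨h1, h2, h3, h4, h5⟩
    rcases le_or_gt s.im A with h | h
    · exact Or.inl ⟨h1, h2, h3, h, h5⟩
    · exact Or.inr ⟨h1, h2, h, h4, h5⟩
  · rintro (⟨h1, h2, h3, h4, h5⟩ | ⟨h1, h2, h3, h4, h5⟩)
    · exact ⟨h1, h2, h3, by linarith, h5⟩
    · exact ⟨h1, h2, by linarith, h4, h5⟩

lemma ZT_disj {A : ℝ} (hA : 1 ≤ A) : Disjoint (ZT A) (Zf riemannZeta A (2 * A)) := by
  rw [Finset.disjoint_left]
  intro s hs hs2
  rw [mem_ZT] at hs
  rw [mem_Zf good_zeta hA] at hs2
  obtain ⟨h1, h2, h3, h4, h5⟩ := hs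
  obtain ⟨g1, g2, g3, g4, g5⟩ := hs2
  linarith

/-- few zeros near a point -/
lemma near2 : ∃ C : ℝ, 0 < C ∧ ∀ A : ℝ, 10 ≤ A → ∀ S : Finset ℂ, (∀ s ∈ S,
    (0 < s.re ∧ s.re < 1 ∧ riemannZeta s = 0) ∧ |s.im - A| ≤ 2) → ∑ s ∈ S, mz s ≤ C * Real.log A := by
  classical
  obtain ⟨C, hC, hz⟩ := H370.zcount good_zeta
  refine ⟨6 * C, by positivity, fun A hA S hS => ?_⟩
  have hw : ∀ t : ℝ, 3 ≤ t → t ≤ A + 2 →
      ∑ s ∈ Zf riemannZeta (t - 1) (t + 1), mz s ≤ 2 * C * Real.log A := by
    intro t h3 ht
    have h1 := hz t h3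
    rw [NN_eq good_zeta (by linarith)] at h1
    push_cast at h1
    refine h1.trans ?_
    have h2 : Real.log t ≤ 2 * Real.log A := by
      calc Real.log t ≤ Real.log (A ^ 2) := Real.log_le_log (by linarith) (by nlinarith)
        _ = 2 * Real.log A := by rw [Real.log_pow]; push_cast; ring
    nlinarith
  have hsub : S ⊆ Zf riemannZeta (A - 2 - 1) (A - 2 + 1) ∪ (Zf riemannZeta (A - 1) (A + 1) ∪
      Zf riemannZeta (A + 2 - 1) (A + 2 + 1)) := by
    intro s hs
    obtain ⟨⟨h1, h2, h3⟩, h4⟩ := hS s hs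
    rw [abs_le] at h4
    rw [Finset.mem_union, Finset.mem_union, mem_Zf good_zeta (by linarith),
      mem_Zf good_zeta (by linarith), mem_Zf good_zeta (by linarith)]
    rcases le_or_gt s.im (A - 1) with h | h
    · exact Or.inl ⟨h1, h2, by linarith, by linarith, h3⟩
    · rcases le_or_gt s.im (A + 1) with h' | h'
      · exact Or.inr (Or.inl ⟨h1, h2, h, h', h3⟩)
      · exact Or.inr (Or.inr ⟨h1, h2, by linarith, by linarith, h3⟩)
  have hu : ∀ P Q : Finset ℂ, ∑ s ∈ P ∪ Q, mz s ≤ ∑ s ∈ P, mz s + ∑ s ∈ Q, mz s := by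
    intro P Q
    rw [← Finset.sum_union_inter]
    have := Finset.sum_nonneg (s := P ∩ Q) fun s _ => mz_nonneg s
    linarith
  calc ∑ s ∈ S, mz s ≤ _ := Finset.sum_le_sum_of_subset_of_nonneg hsub fun s _ _ => mz_nonneg s
    _ ≤ _ := (hu _ _).trans (add_le_add_right (hu _ _) _)
    _ ≤ 2 * C * Real.log A + (2 * C * Real.log A + 2 * C * Real.log A) := by
        apply add_le_add (hw _ (by linarith) (by linarith))
        exact add_le_add (hw _ (by linarith) (by linarith)) (hw _ (by linarith) le_rfl)
    _ = 6 * C * Real.log A := by ring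

lemma lc_mono (S : Finset ℂ) {h h' : ℝ} (hh : h ≤ h') (t : ℝ) : lc S mz h t ≤ lc S mz h' t := by
  unfold lc
  apply Finset.sum_le_sum_of_subset_of_nonneg
  · intro s hs
    rw [Finset.mem_filter] at hs ⊢
    exact ⟨hs.1, hs.2.trans hh⟩
  · intro s _ _
    exact mz_nonneg s

/-- the second moment of the local counts in a block -/
lemma block_sq : ∃ C T0 : ℝ, 0 < C ∧ 10 ≤ T0 ∧ ∀ A : ℝ, T0 ≤ A → ∀ h : ℝ, h ≤ 1 / Real.log A →
    ∫ t, lc (Zf riemannZeta A (2 * A)) mz h t ^ 2 ≤ C * A := by
  obtain ⟨C, T0, hC, hT0, h⟩ := Pool.Agent.Y750.OM.cntmom 2 (by norm_num)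
  refine ⟨C, T0, hC, hT0, fun A hA w hw => ?_⟩
  have h1 := h A hA
  have hi := lc_sq_int (Zf riemannZeta A (2 * A)) mz (1 / Real.log A)
  have h2 : ∫ t, lc (Zf riemannZeta A (2 * A)) mz w t ^ 2 ≤
      ∫ t, lc (Zf riemannZeta A (2 * A)) mz (1 / Real.log A) t ^ 2 := by
    apply integral_mono (lc_sq_int _ _ _) hi
    intro t
    exact pow_le_pow_left₀ (lc_nonneg mz_nonneg _ _) (lc_mono _ hw t) 2
  refine h2.trans ?_
  have h3 := ofReal_integral_eq_lintegral_ofReal hi (Eventually.of_forall fun t => sq_nonneg _)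
  have h4 : ENNReal.ofReal (∫ t, lc (Zf riemannZeta A (2 * A)) mz (1 / Real.log A) t ^ 2) ≤
      ENNReal.ofReal (C * A) := by
    rw [h3]
    exact h1
  exact (ENNReal.ofReal_le_ofReal_iff (by nlinarith)).1 h4

/-- the second moment of the local counts of all zeros up to `T` -/
theorem full_sq : ∃ C T0 : ℝ, 0 < C ∧ 10 ≤ T0 ∧ ∀ T : ℝ, T0 ≤ T → ∀ h : ℝ, 0 ≤ h →
    h ≤ 1 / Real.log T → ∫ t, lc (ZT T) mz h t ^ 2 ≤ C * T := by
  classical
  obtain ⟨C1, T0, hC1, hT0, hblock⟩ := block_sq
  obtain ⟨C2, hC2, hnear⟩ := near2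
  set N0 : ℝ := ∑ s ∈ ZT (2 * T0), mz s with hN0
  have hN0' : 0 ≤ N0 := Finset.sum_nonneg fun s _ => mz_nonneg s
  set C : ℝ := 4 * N0 ^ 2 + C1 + 16 * C2 ^ 2 with hC
  have hone : ∀ A : ℝ, 10 ≤ A → 1 / Real.log A ≤ 1 := by
    intro A hA
    have : 1 ≤ Real.log A := by
      rw [Real.le_log_iff_exp_le (by linarith)]
      have := Real.exp_one_lt_d9
      linarith
    rw [div_le_one (by linarith)]
    exact this
  refine ⟨C, T0, by positivity, hT0, ?_⟩
  have key : ∀ k : ℕ, ∀ T : ℝ, T0 ≤ T → T ≤ 2 ^ (k + 1) * T0 → ∀ h : ℝ, 0 ≤ h →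
      h ≤ 1 / Real.log T → ∫ t, lc (ZT T) mz h t ^ 2 ≤ C * T := by
    intro k
    induction k with
    | zero =>
      intro T hT hT2 h hh hh2
      have hh1 : h ≤ 1 := hh2.trans (hone T (by linarith))
      have hb : ∀ t, lc (ZT T) mz h t ^ 2 ≤
          (Icc (-1 : ℝ) (2 * T0 + 1)).indicator (fun _ => N0 ^ 2) t := by
        intro t
        by_cases ht : t ∈ Icc (-1 : ℝ) (2 * T0 + 1)
        · rw [indicator_of_mem ht]
          apply pow_le_pow_left₀ (lc_nonneg mz_nonneg _ _)
          unfold lc
          apply Finset.sum_le_sum_of_subset_of_nonneg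
          · intro s hs
            have h1 := (Finset.mem_filter.1 hs).1
            exact ZT_mono (by rw [zero_add, pow_one] at hT2; exact hT2) h1
          · intro s _ _
            exact mz_nonneg s
        · rw [indicator_of_notMem ht]
          have : lc (ZT T) mz h t = 0 := by
            unfold lc
            rw [Finset.sum_eq_zero]
            intro s hs
            exfalso
            rw [Finset.mem_filter, mem_ZT] at hs
            obtain ⟨⟨h1, h2, h3, h4, h5⟩, h6⟩ := hs
            rw [abs_le] at h6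
            rw [zero_add, pow_one] at hT2
            exact ht ⟨by linarith, by linarith⟩
          rw [this]
          norm_num
      calc ∫ t, lc (ZT T) mz h t ^ 2 ≤
          ∫ t, (Icc (-1 : ℝ) (2 * T0 + 1)).indicator (fun _ => N0 ^ 2) t := by
            apply integral_mono (lc_sq_int _ _ _) _ hb
            exact (integrable_indicator_iff measurableSet_Icc).2
              (integrableOn_const measure_Icc_lt_top.ne)
        _ = (2 * T0 + 2) * N0 ^ 2 := by
            rw [integral_indicator measurableSet_Icc, setIntegral_const, Real.volume_real_Icc,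
              smul_eq_mul, max_eq_left (by linarith)]
            ring
        _ ≤ C * T := by
            rw [hC]
            have h1 : 0 ≤ N0 ^ 2 := by positivity
            have h2 : 0 ≤ C1 + 16 * C2 ^ 2 := by positivity
            have h3 : (2 * T0 + 2) * N0 ^ 2 ≤ 4 * T * N0 ^ 2 :=
              mul_le_mul_of_nonneg_right (by linarith) h1
            have h4 : 0 ≤ (C1 + 16 * C2 ^ 2) * T := mul_nonneg h2 (by linarith)
            nlinarith
    | succ k ih =>
      intro T hT hT2 h hh hh2
      rcases le_or_gt T (2 * T0) with hsmall | hbig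
      · apply ih T hT _ h hh hh2
        have : (1 : ℝ) ≤ 2 ^ k := one_le_pow₀ (by norm_num)
        rw [pow_succ]
        nlinarith
      obtain ⟨A, hA⟩ : ∃ A, T = 2 * A := ⟨T / 2, by ring⟩
      have hA0 : T0 ≤ A := by linarith
      have hA10 : 10 ≤ A := by linarith
      have hlogA : 1 ≤ Real.log A := by
        rw [Real.le_log_iff_exp_le (by linarith)]
        have := Real.exp_one_lt_d9
        linarith
      have hlog : 1 / Real.log T ≤ 1 / Real.log A :=
        one_div_le_one_div_of_le (by linarith) (Real.log_le_log (by linarith) (by linarith))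
      have hh3 := hh2.trans hlog
      have hh1 : h ≤ 1 := hh3.trans (hone A hA10)
      have h1 := ih A hA0 (by rw [pow_succ] at hT2; linarith) h hh hh3
      have h2 := hblock A hA0 h hh3
      set f : ℝ → ℝ := fun t => lc (ZT A) mz h t with hf
      set g : ℝ → ℝ := fun t => lc (Zf riemannZeta A (2 * A)) mz h t with hg
      have hfg : ∀ t, lc (ZT T) mz h t = f t + g t := by
        intro t
        simp only [hf, hg]
        unfold lc
        rw [hA, ZT_split (by linarith), Finset.filter_union, Finset.sum_union]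
        exact (ZT_disj (by linarith)).mono (Finset.filter_subset _ _) (Finset.filter_subset _ _)
      have hcross : ∀ t, f t * g t ≤
          (Icc (A - 1) (A + 1)).indicator (fun _ => (C2 * Real.log A) ^ 2) t := by
        intro t
        by_cases ht : t ∈ Icc (A - 1) (A + 1)
        · rw [indicator_of_mem ht, sq]
          have hb1 : f t ≤ C2 * Real.log A := by
            apply hnear A hA10
            intro s hs
            rw [Finset.mem_filter, mem_ZT] at hs
            obtain ⟨⟨h1, h2, h3, h4, h5⟩, h6⟩ := hs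
            refine ⟨⟨h1, h2, h5⟩, ?_⟩
            rw [abs_le] at h6 ⊢
            constructor <;> linarith [ht.1, ht.2]
          have hb2 : g t ≤ C2 * Real.log A := by
            apply hnear A hA10
            intro s hs
            rw [Finset.mem_filter, mem_Zf good_zeta (by linarith)] at hs
            obtain ⟨⟨h1, h2, h3, h4, h5⟩, h6⟩ := hs
            refine ⟨⟨h1, h2, h5⟩, ?_⟩
            rw [abs_le] at h6 ⊢
            constructor <;> linarith [ht.1, ht.2]
          exact mul_le_mul hb1 hb2 (lc_nonneg mz_nonneg _ _)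
            (mul_nonneg hC2.le (by linarith))
        · rw [indicator_of_notMem ht]
          by_contra hcon
          push Not at hcon
          have hf0 : f t ≠ 0 := by
            intro h0
            rw [h0, zero_mul] at hcon
            exact lt_irrefl _ hcon
          have hg0 : g t ≠ 0 := by
            intro h0
            rw [h0, mul_zero] at hcon
            exact lt_irrefl _ hcon
          obtain ⟨s, hs, -⟩ := Finset.exists_ne_zero_of_sum_ne_zero hf0
          obtain ⟨s', hs', -⟩ := Finset.exists_ne_zero_of_sum_ne_zero hg0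
          rw [Finset.mem_filter, mem_ZT] at hs
          rw [Finset.mem_filter, mem_Zf good_zeta (by linarith)] at hs'
          obtain ⟨⟨h1, h2, h3, h4, h5⟩, h6⟩ := hs
          obtain ⟨⟨g1, g2, g3, g4, g5⟩, g6⟩ := hs'
          rw [abs_le] at h6 g6
          exact ht ⟨by linarith, by linarith⟩
      have hicross : Integrable ((Icc (A - 1) (A + 1)).indicator
          (fun _ => (C2 * Real.log A) ^ 2)) :=
        (integrable_indicator_iff measurableSet_Icc).2 (integrableOn_const measure_Icc_lt_top.ne)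
      have hcint : ∫ t, (Icc (A - 1) (A + 1)).indicator (fun _ => (C2 * Real.log A) ^ 2) t =
          2 * (C2 * Real.log A) ^ 2 := by
        rw [integral_indicator measurableSet_Icc, setIntegral_const, Real.volume_real_Icc,
          smul_eq_mul, max_eq_left (by linarith)]
        ring
      have hfi := lc_sq_int (ZT A) mz h
      have hgi := lc_sq_int (Zf riemannZeta A (2 * A)) mz h
      have hlog2 : Real.log A ^ 2 ≤ 4 * A := by
        have h3 : Real.log A = 2 * Real.log (Real.sqrt A) := by
          rw [Real.log_sqrt (by linarith)]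
          ring
        have h4 : Real.log (Real.sqrt A) ≤ Real.sqrt A := by
          have := Real.log_le_sub_one_of_pos (Real.sqrt_pos.2 (show 0 < A by linarith))
          linarith
        have h5 : 0 ≤ Real.log (Real.sqrt A) := by linarith
        have h6 : Real.sqrt A ^ 2 = A := Real.sq_sqrt (by linarith)
        rw [h3]
        nlinarith
      calc ∫ t, lc (ZT T) mz h t ^ 2 ≤ ∫ t, (f t ^ 2 + (g t ^ 2 +
            2 * (Icc (A - 1) (A + 1)).indicator (fun _ => (C2 * Real.log A) ^ 2) t)) := by
            apply integral_mono (lc_sq_int _ _ _) (hfi.add (hgi.add (hicross.const_mul 2)))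
            intro t
            have h3 := hcross t
            have h4 := hfg t
            show lc (ZT T) mz h t ^ 2 ≤ f t ^ 2 + (g t ^ 2 +
              2 * (Icc (A - 1) (A + 1)).indicator (fun _ => (C2 * Real.log A) ^ 2) t)
            rw [h4]
            nlinarith
        _ = (∫ t, f t ^ 2) + ((∫ t, g t ^ 2) + 2 * (2 * (C2 * Real.log A) ^ 2)) := by
            have e1 := integral_add (f := fun t => f t ^ 2) (g := fun t => g t ^ 2 +
              2 * (Icc (A - 1) (A + 1)).indicator (fun _ => (C2 * Real.log A) ^ 2) t) hfi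
              (hgi.add (hicross.const_mul 2))
            have e2 := integral_add (f := fun t => g t ^ 2) (g := fun t =>
              2 * (Icc (A - 1) (A + 1)).indicator (fun _ => (C2 * Real.log A) ^ 2) t) hgi
              (hicross.const_mul 2)
            rw [e1, e2, integral_const_mul, hcint]
        _ ≤ C * A + (C1 * A + 2 * (2 * (C2 ^ 2 * (4 * A)))) := by
            apply add_le_add h1 (add_le_add h2 _)
            rw [mul_pow]
            have : 0 ≤ C2 ^ 2 := by positivity
            nlinarith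
        _ ≤ C * T := by
            rw [hA]
            have h5 : C1 + 16 * C2 ^ 2 ≤ C := by rw [hC]; nlinarith [sq_nonneg N0]
            nlinarith
  intro T hT h hh hh2
  obtain ⟨k, hk⟩ := pow_unbounded_of_one_lt (T / T0) (one_lt_two)
  refine key k T hT ?_ h hh hh2
  have hT00 : 0 < T0 := by linarith
  rw [div_lt_iff₀ hT00] at hk
  rw [pow_succ]
  nlinarith

end Pool.Agent.E8helper72.PC
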