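import Pool.Agent.E8helper72.PC.ZMom
import Pool.Agent.E8helper72.PC.Wind

/-! # Pair sums over all zeros up to height `T` -/

set_option autoImplicit false

namespace Pool.Agent.E8helper72.PC

open MeasureTheory Set Filter Topology
open H370 (Zf mult mem_Zf good_zeta zset NN NN_eq)

/-- the expected number of zeros -/
noncomputable def XX (T : ℝ) : ℝ := T * Real.log T / (2 * Real.pi)

/-- the normalised distance -/
noncomputable def dd (L : ℝ) (p : ℂ × ℂ) : ℝ := |p.1.im - p.2.im| * L / (2 * Real.pi)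

/-- the weight of a pair -/
noncomputable def ww (p : ℂ × ℂ) : ℝ := mz p.1 * mz p.2

lemma ww_nonneg (p : ℂ × ℂ) : 0 ≤ ww p := mul_nonneg (mz_nonneg _) (mz_nonneg _)

lemma dd_nonneg {L : ℝ} (hL : 0 ≤ L) (p : ℂ × ℂ) : 0 ≤ dd L p := by
  unfold dd
  have := Real.pi_pos
  positivity

lemma log_ge {T : ℝ} (hT : 10 ≤ T) : 1 ≤ Real.log T := by
  rw [Real.le_log_iff_exp_le (by linarith)]
  have := Real.exp_one_lt_d9
  linarith

lemma XX_pos {T : ℝ} (hT : 10 ≤ T) : 0 < XX T := by
  unfold XX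
  have := Real.pi_pos
  have := log_ge hT
  positivity

lemma XX_double {T : ℝ} (hT : 0 < T) : XX (2 * T) = 2 * XX T + T * Real.log 2 / Real.pi := by
  unfold XX
  rw [Real.log_mul (by norm_num) hT.ne']
  have := Real.pi_pos
  field_simp
  ring

lemma XX_double_ge {T : ℝ} (hT : 10 ≤ T) : 2 * XX T ≤ XX (2 * T) := by
  rw [XX_double (by linarith)]
  have : 0 ≤ T * Real.log 2 / Real.pi := by
    have := Real.pi_pos
    have := Real.log_nonneg (show (1 : ℝ) ≤ 2 by norm_num)
    positivity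
  linarith

/-- the expected number of zeros grows faster than the height -/
lemma XX_large (c ε : ℝ) (hε : 0 < ε) : ∀ᶠ T : ℝ in atTop, c * T ≤ ε * XX T := by
  filter_upwards [Real.tendsto_log_atTop.eventually_ge_atTop (c * (2 * Real.pi) / ε),
    eventually_ge_atTop 0] with T hT hT0
  have hpi := Real.pi_pos
  unfold XX
  rw [div_le_iff₀ hε] at hT
  have h1 : c * T * (2 * Real.pi) ≤ ε * (T * Real.log T) := by nlinarith
  rw [mul_div_assoc', le_div_iff₀ (by positivity)]
  exact h1

lemma XX_double_le : ∀ᶠ T : ℝ in atTop, XX (2 * T) ≤ 4 * XX T := by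
  filter_upwards [XX_large (Real.log 2 / Real.pi) 1 one_pos, eventually_ge_atTop 10] with T h1 h2
  rw [XX_double (by linarith)]
  have h3 := XX_pos h2
  have h4 : T * Real.log 2 / Real.pi = Real.log 2 / Real.pi * T := by ring
  rw [h4]
  linarith

/-- the distant pairs -/
theorem full_tail : ∃ C T0 : ℝ, 0 < C ∧ 10 ≤ T0 ∧ ∀ T : ℝ, T0 ≤ T → ∀ n : ℕ,
    ∑ p ∈ ZT T ×ˢ ZT T with (n : ℝ) ≤ dd (Real.log T) p, ww p / (1 + dd (Real.log T) p ^ 2) ≤
      C * XX T / (n + 1) := by
  classical
  obtain ⟨C, T0, hC, hT0, h⟩ := full_sq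
  have hpi := Real.pi_pos
  refine ⟨64 * Real.pi * C, T0, by positivity, hT0, fun T hT n => ?_⟩
  have hL := log_ge (hT0.trans hT)
  have hL0 : 0 < Real.log T := by linarith
  have h1 := h T hT (1 / Real.log T) (by positivity) le_rfl
  have h2 := tail_le (ZT T ×ˢ ZT T) ww (dd (Real.log T)) (fun p _ => ww_nonneg p)
    (fun p _ => dd_nonneg hL0.le p) (B := 8 * (C * T) * Real.log T) (fun k => by
      rw [Finset.sum_filter, Finset.sum_product]
      exact window_pairs (ZT T) mz mz_nonneg hL0 h1 k) n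
  refine h2.trans (le_of_eq ?_)
  unfold XX
  field_simp
  ring

/-- the number of zeros is at most a constant multiple of the expected one -/
lemma sum_mz_le : ∃ C T0 : ℝ, 0 < C ∧ 10 ≤ T0 ∧ ∀ T : ℝ, T0 ≤ T →
    ∑ s ∈ ZT T, mz s ≤ C * XX T := by
  classical
  obtain ⟨C, T0, hC, hT0, h⟩ := full_tail
  refine ⟨C, T0, hC, hT0, fun T hT => ?_⟩
  have hL := log_ge (hT0.trans hT)
  have h1 := h T hT 0
  simp only [Nat.cast_zero, zero_add, div_one] at h1
  refine le_trans ?_ h1
  have hone : ∀ s ∈ ZT T, 1 ≤ mz s := by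
    intro s hs
    rw [mem_ZT] at hs
    unfold mz
    exact_mod_cast H370.Loc.mult_pos' good_zeta hs.2.2.1 hs.2.2.2.2
  calc ∑ s ∈ ZT T, mz s ≤ ∑ s ∈ ZT T, ww (s, s) / (1 + dd (Real.log T) (s, s) ^ 2) := by
        apply Finset.sum_le_sum
        intro s hs
        have h2 : dd (Real.log T) (s, s) = 0 := by simp [dd]
        rw [h2]
        simp only [ww]
        have := hone s hs
        norm_num
        nlinarith
    _ = ∑ p ∈ (ZT T).image (fun s => (s, s)), ww p / (1 + dd (Real.log T) p ^ 2) := by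
        rw [Finset.sum_image]
        intro s _ s' _ hss
        exact (Prod.mk.inj hss).1
    _ ≤ _ := by
        apply Finset.sum_le_sum_of_subset_of_nonneg
        · intro p hp
          obtain ⟨s, hs, rfl⟩ := Finset.mem_image.1 hp
          rw [Finset.mem_filter, Finset.mem_product]
          exact ⟨⟨hs, hs⟩, dd_nonneg (by linarith) _⟩
        · intro p _ _
          exact div_nonneg (ww_nonneg p) (by positivity)

/-- the number of zeros in a block -/
lemma block_count (ε : ℝ) (hε : 0 < ε) : ∀ᶠ A : ℝ in atTop,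
    |∑ s ∈ Zf riemannZeta A (2 * A), mz s - XX A| ≤ ε * XX A := by
  classical
  obtain ⟨T0, hT0, h⟩ := Pool.Agent.Y750.OM.psi_full (1 / 2) (min ε 1 / 2) (by norm_num) (by norm_num)
    (by positivity) (fun _ => 0) 0 (by simp) (by simp)
  obtain ⟨C, hC, hedge⟩ := Pool.Agent.Y750.OM.edge_count
  have hpi := Real.pi_pos
  filter_upwards [eventually_ge_atTop T0, XX_large (C + 1) (min ε 1 / 4) (by positivity),
    eventually_ge_atTop 10] with A hA hX hA10
  have hL := log_ge hA10
  have h1 := (h A hA).1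
  have h2 := hedge A hA10
  have hsub : Zf riemannZeta (A + 1) (2 * A - 1) ⊆ Zf riemannZeta A (2 * A) := by
    intro s hs
    rw [mem_Zf good_zeta (by linarith)] at hs ⊢
    obtain ⟨h1, h2, h3, h4, h5⟩ := hs
    exact ⟨h1, h2, by linarith, by linarith, h5⟩
  have h3 : ∑ s ∈ Zf riemannZeta A (2 * A), mz s =
      ∑ s ∈ Zf riemannZeta A (2 * A) \ Zf riemannZeta (A + 1) (2 * A - 1), mz s +
        ∑ s ∈ Zf riemannZeta (A + 1) (2 * A - 1), mz s := (Finset.sum_sdiff hsub).symm
  have h4 : (NN riemannZeta (A + 1) (2 * A - 1) : ℝ) =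
      ∑ s ∈ Zf riemannZeta (A + 1) (2 * A - 1), mz s := by
    rw [NN_eq good_zeta (by linarith)]
    push_cast
    rfl
  rw [h4] at h1
  have h5 : 0 ≤ ∑ s ∈ Zf riemannZeta A (2 * A) \ Zf riemannZeta (A + 1) (2 * A - 1), mz s :=
    Finset.sum_nonneg fun s _ => mz_nonneg s
  have hm0 : 0 < min ε 1 := by positivity
  have hm1 : min ε 1 ≤ ε := min_le_left _ _
  have hm2 : min ε 1 ≤ 1 := min_le_right _ _
  have hXA : (A - 2) * Real.log A / (2 * Real.pi) = XX A - Real.log A / Real.pi := by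
    unfold XX
    field_simp
  rw [hXA] at h1
  have hlogA : Real.log A ≤ A := by
    have := Real.log_le_sub_one_of_pos (show 0 < A by linarith)
    linarith
  have hlp : Real.log A / Real.pi ≤ Real.log A := div_le_self (by linarith) (by linarith [Real.pi_gt_three])
  have hlp0 : 0 ≤ Real.log A / Real.pi := by positivity
  have hXp := XX_pos hA10
  have h6 : ∑ s ∈ Zf riemannZeta A (2 * A) \ Zf riemannZeta (A + 1) (2 * A - 1), mz s ≤
      C * Real.log A := h2
  have h7 : C * Real.log A ≤ C * A := by nlinarith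
  have h8 : (C + 1) * A ≤ min ε 1 / 4 * XX A := hX
  rw [abs_le] at h1 ⊢
  rw [h3]
  have h9 : min ε 1 / 2 * (XX A - Real.log A / Real.pi) ≤ min ε 1 / 2 * XX A := by
    apply mul_le_mul_of_nonneg_left _ (by positivity)
    linarith
  have h10 : min ε 1 * XX A ≤ ε * XX A := mul_le_mul_of_nonneg_right hm1 hXp.le
  constructor
  · nlinarith [h1.1]
  · nlinarith [h1.2]

end Pool.Agent.E8helper72.PC
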