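import Pool.Agent.E8helper72.PC.ZPair
import Pool.Agent.E8helper72.PC.Recur

/-! # One halving step for the pair sums -/

set_option autoImplicit false

namespace Pool.Agent.E8helper72.PC

open MeasureTheory Set Filter Topology
open H370 (Zf mult mem_Zf good_zeta zset NN NN_eq)

/-- a pair sum -/
noncomputable def QS (S S' : Finset ℂ) (L : ℝ) (f : ℝ → ℝ) : ℝ :=
  ∑ p ∈ S ×ˢ S', ww p * f (dd L p)

/-- the standard weight of the pairs -/
noncomputable def WS (S : Finset ℂ) (L : ℝ) : ℝ := ∑ p ∈ S ×ˢ S, ww p / (1 + dd L p ^ 2)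

lemma WS_nonneg (S : Finset ℂ) (L : ℝ) : 0 ≤ WS S L :=
  Finset.sum_nonneg fun p _ => div_nonneg (ww_nonneg p) (by positivity)

lemma WS_mono {S S' : Finset ℂ} (h : S ⊆ S') (L : ℝ) : WS S L ≤ WS S' L := by
  classical
  apply Finset.sum_le_sum_of_subset_of_nonneg (Finset.product_subset_product h h)
  intro p _ _
  exact div_nonneg (ww_nonneg p) (by positivity)

lemma QS_swap (S S' : Finset ℂ) (L : ℝ) (f : ℝ → ℝ) : QS S S' L f = QS S' S L f := by
  unfold QS
  rw [Finset.sum_product, Finset.sum_product, Finset.sum_comm]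
  apply Finset.sum_congr rfl
  intro s _
  apply Finset.sum_congr rfl
  intro s' _
  simp only [ww, dd]
  rw [mul_comm (mz s'), abs_sub_comm]

lemma QS_union {S S' : Finset ℂ} [DecidableEq ℂ] (h : Disjoint S S') (L : ℝ) (f : ℝ → ℝ) :
    QS (S ∪ S') (S ∪ S') L f = QS S S L f + QS S' S' L f + 2 * QS S S' L f := by
  have h1 := QS_swap S' S L f
  unfold QS at h1 ⊢
  rw [Finset.sum_product, Finset.sum_union h]
  have h2 : ∀ s : ℂ, ∑ s' ∈ S ∪ S', ww (s, s') * f (dd L (s, s')) =
      ∑ s' ∈ S, ww (s, s') * f (dd L (s, s')) + ∑ s' ∈ S', ww (s, s') * f (dd L (s, s')) :=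
    fun s => Finset.sum_union h
  simp_rw [h2]
  rw [Finset.sum_add_distrib, Finset.sum_add_distrib]
  rw [Finset.sum_product, Finset.sum_product] at h1
  rw [Finset.sum_product, Finset.sum_product, Finset.sum_product]
  linarith

/-- the total weight -/
lemma WS_le : ∃ C T0 : ℝ, 0 < C ∧ 10 ≤ T0 ∧ ∀ T : ℝ, T0 ≤ T →
    WS (ZT T) (Real.log T) ≤ C * XX T := by
  classical
  obtain ⟨C, T0, hC, hT0, h⟩ := full_tail
  refine ⟨C, T0, hC, hT0, fun T hT => ?_⟩
  have hL := log_ge (hT0.trans hT)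
  have h1 := h T hT 0
  simp only [Nat.cast_zero, zero_add, div_one] at h1
  rw [Finset.filter_true_of_mem (fun p _ => dd_nonneg (by linarith) p)] at h1
  exact h1

/-- a change of the normalisation -/
lemma QS_rescale {δ : ℝ} {r : ℝ → ℝ} (hr : TF δ r) : ∃ C : ℝ, 0 < C ∧ ∀ (S : Finset ℂ) (L L' : ℝ),
    0 < L → L ≤ L' → |QS S S L' (bl r) - QS S S L (bl r)| ≤ C * (L' / L - 1) * WS S L := by
  obtain ⟨C, hC, h⟩ := bl_rescale hr
  refine ⟨C, hC, fun S L L' hL hLL => ?_⟩
  have hc : 1 ≤ L' / L := by rw [le_div_iff₀ hL]; linarith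
  unfold QS WS
  rw [← Finset.sum_sub_distrib, Finset.mul_sum]
  refine (Finset.abs_sum_le_sum_abs _ _).trans (Finset.sum_le_sum fun p _ => ?_)
  rw [← mul_sub, abs_mul, abs_of_nonneg (ww_nonneg p)]
  have e : dd L' p = L' / L * dd L p := by
    unfold dd
    field_simp
  rw [e]
  have h1 := h (L' / L) hc (dd L p)
  have h2 := mul_le_mul_of_nonneg_left h1 (ww_nonneg p)
  refine h2.trans (le_of_eq ?_)
  field_simp

/-- bounded test functions -/
lemma QS_bound {S : Finset ℂ} {L B : ℝ} {f : ℝ → ℝ} (hf : ∀ u, |f u| * (1 + u ^ 2) ≤ B) :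
    |QS S S L f| ≤ B * WS S L := by
  unfold QS WS
  rw [Finset.mul_sum]
  refine (Finset.abs_sum_le_sum_abs _ _).trans (Finset.sum_le_sum fun p _ => ?_)
  rw [abs_mul, abs_of_nonneg (ww_nonneg p), mul_div_assoc', le_div_iff₀ (by positivity)]
  have := mul_le_mul_of_nonneg_left (hf (dd L p)) (ww_nonneg p)
  linarith

/-- the pairs that cross the boundary of two blocks -/
lemma cross_le : ∃ C T0 : ℝ, 0 < C ∧ 10 ≤ T0 ∧ ∀ A : ℝ, T0 ≤ A → ∀ (f : ℝ → ℝ) (B : ℝ),
    (∀ u, |f u| * (1 + u ^ 2) ≤ B) →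
    |QS (ZT A) (Zf riemannZeta A (2 * A)) (Real.log (2 * A)) f| ≤ B * (C * A) := by
  classical
  obtain ⟨C1, hC1, hnear⟩ := near2
  obtain ⟨C2, T0, hC2, hT0, htail⟩ := full_tail
  have hpi := Real.pi_pos
  refine ⟨4 * C1 ^ 2 + 2 * C2, T0, by positivity, hT0, fun A hA f B hf => ?_⟩
  have hA10 : 10 ≤ A := hT0.trans hA
  have hB : 0 ≤ B := by
    have := hf 0
    have h1 : (0 : ℝ) ≤ |f 0| * (1 + 0 ^ 2) := by positivity
    linarith
  have hL := log_ge hA10
  set L := Real.log (2 * A) with hLdef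
  have hL2 : 1 ≤ L := log_ge (by linarith)
  set Z2 := Zf riemannZeta A (2 * A) with hZ2
  -- near pairs
  have hn : ∑ p ∈ ZT A ×ˢ Z2 with |p.1.im - p.2.im| ≤ 1, ww p * |f (dd L p)| ≤
      B * (C1 * Real.log A) ^ 2 := by
    set P := (ZT A).filter (fun s => |s.im - A| ≤ 1) with hP
    set Q := Z2.filter (fun s => |s.im - A| ≤ 1) with hQ
    have hPb : ∑ s ∈ P, mz s ≤ C1 * Real.log A := by
      apply hnear A hA10
      intro s hs
      rw [hP, Finset.mem_filter, mem_ZT] at hs
      obtain ⟨⟨h1, h2, h3, h4, h5⟩, h6⟩ := hs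
      exact ⟨⟨h1, h2, h5⟩, by linarith⟩
    have hQb : ∑ s ∈ Q, mz s ≤ C1 * Real.log A := by
      apply hnear A hA10
      intro s hs
      rw [hQ, Finset.mem_filter, hZ2, mem_Zf good_zeta (by linarith)] at hs
      obtain ⟨⟨h1, h2, h3, h4, h5⟩, h6⟩ := hs
      exact ⟨⟨h1, h2, h5⟩, by linarith⟩
    have hfB : ∀ u, |f u| ≤ B := by
      intro u
      have h1 := hf u
      have h2 := abs_nonneg (f u)
      nlinarith [sq_nonneg u]
    calc ∑ p ∈ ZT A ×ˢ Z2 with |p.1.im - p.2.im| ≤ 1, ww p * |f (dd L p)| ≤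
        ∑ p ∈ ZT A ×ˢ Z2 with |p.1.im - p.2.im| ≤ 1, ww p * B :=
          Finset.sum_le_sum fun p _ => mul_le_mul_of_nonneg_left (hfB _) (ww_nonneg p)
      _ ≤ ∑ p ∈ P ×ˢ Q, ww p * B := by
          apply Finset.sum_le_sum_of_subset_of_nonneg
          · intro p hp
            rw [Finset.mem_filter, Finset.mem_product, mem_ZT, hZ2,
              mem_Zf good_zeta (by linarith)] at hp
            obtain ⟨⟨⟨h1, h2, h3, h4, h5⟩, ⟨g1, g2, g3, g4, g5⟩⟩, h6⟩ := hp
            rw [abs_le] at h6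
            rw [Finset.mem_product, hP, hQ, Finset.mem_filter, Finset.mem_filter, mem_ZT, hZ2,
              mem_Zf good_zeta (by linarith), abs_le, abs_le]
            exact ⟨⟨⟨h1, h2, h3, h4, h5⟩, by constructor <;> linarith⟩,
              ⟨⟨g1, g2, g3, g4, g5⟩, by constructor <;> linarith⟩⟩
          · intro p _ _
            exact mul_nonneg (ww_nonneg p) hB
      _ = B * ((∑ s ∈ P, mz s) * ∑ s ∈ Q, mz s) := by
          rw [Finset.sum_mul_sum, ← Finset.sum_mul, Finset.sum_product, mul_comm]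
          rfl
      _ ≤ B * ((C1 * Real.log A) * (C1 * Real.log A)) := by
          apply mul_le_mul_of_nonneg_left _ hB
          exact mul_le_mul hPb hQb (Finset.sum_nonneg fun s _ => mz_nonneg s) (by positivity)
      _ = B * (C1 * Real.log A) ^ 2 := by ring
  -- distant pairs
  have hfar : ∑ p ∈ ZT A ×ˢ Z2 with ¬ |p.1.im - p.2.im| ≤ 1, ww p * |f (dd L p)| ≤
      B * (2 * C2 * A) := by
    set n : ℕ := ⌊L / (2 * Real.pi)⌋₊ with hn
    have ht := htail (2 * A) (by linarith) n
    rw [← hLdef] at ht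
    have hZA : ZT A ⊆ ZT (2 * A) := ZT_mono (by linarith)
    have hZ2A : Z2 ⊆ ZT (2 * A) := by
      rw [ZT_split (by linarith)]
      exact Finset.subset_union_right
    calc ∑ p ∈ ZT A ×ˢ Z2 with ¬ |p.1.im - p.2.im| ≤ 1, ww p * |f (dd L p)| ≤
        ∑ p ∈ ZT A ×ˢ Z2 with ¬ |p.1.im - p.2.im| ≤ 1, B * (ww p / (1 + dd L p ^ 2)) := by
          apply Finset.sum_le_sum
          intro p _
          rw [mul_div_assoc', le_div_iff₀ (by positivity)]
          have := mul_le_mul_of_nonneg_left (hf (dd L p)) (ww_nonneg p)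
          linarith
      _ ≤ ∑ p ∈ ZT (2 * A) ×ˢ ZT (2 * A) with (n : ℝ) ≤ dd L p, B * (ww p / (1 + dd L p ^ 2)) := by
          apply Finset.sum_le_sum_of_subset_of_nonneg
          · intro p hp
            rw [Finset.mem_filter, Finset.mem_product] at hp
            rw [Finset.mem_filter, Finset.mem_product]
            refine ⟨⟨hZA hp.1.1, hZ2A hp.1.2⟩, ?_⟩
            have h1 := hp.2
            push Not at h1
            refine (Nat.floor_le (by positivity)).trans ?_
            unfold dd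
            apply div_le_div_of_nonneg_right _ (by positivity)
            nlinarith
          · intro p _ _
            exact mul_nonneg hB (div_nonneg (ww_nonneg p) (by positivity))
      _ = B * ∑ p ∈ ZT (2 * A) ×ˢ ZT (2 * A) with (n : ℝ) ≤ dd L p, ww p / (1 + dd L p ^ 2) := by
          rw [Finset.mul_sum]
      _ ≤ B * (C2 * XX (2 * A) / (n + 1)) := mul_le_mul_of_nonneg_left ht hB
      _ ≤ B * (2 * C2 * A) := by
          apply mul_le_mul_of_nonneg_left _ hB
          have h1 := Nat.lt_floor_add_one (L / (2 * Real.pi))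
          rw [← hn] at h1
          rw [div_le_iff₀ (by positivity)]
          have h2 : XX (2 * A) = 2 * A * (L / (2 * Real.pi)) := by
            unfold XX
            rw [← hLdef]
            ring
          rw [h2]
          have h3 : 2 * A * (L / (2 * Real.pi)) ≤ 2 * A * (n + 1) :=
            mul_le_mul_of_nonneg_left h1.le (by linarith)
          nlinarith
  have hlog2 : Real.log A ^ 2 ≤ 4 * A := by
    have h3 : Real.log A = 2 * Real.log (Real.sqrt A) := by
      rw [Real.log_sqrt (by linarith)]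
      ring
    have h4 : Real.log (Real.sqrt A) ≤ Real.sqrt A := by
      have := Real.log_le_sub_one_of_pos (Real.sqrt_pos.2 (show 0 < A by linarith))
      linarith
    have h5 : 0 ≤ Real.log (Real.sqrt A) := by linarith
    have h6 : Real.sqrt A ^ 2 = A := Real.sq_sqrt (by linarith)
    rw [h3]
    nlinarith
  calc |QS (ZT A) Z2 L f| ≤ ∑ p ∈ ZT A ×ˢ Z2, ww p * |f (dd L p)| := by
        unfold QS
        refine (Finset.abs_sum_le_sum_abs _ _).trans (le_of_eq ?_)
        apply Finset.sum_congr rfl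
        intro p _
        rw [abs_mul, abs_of_nonneg (ww_nonneg p)]
    _ = ∑ p ∈ ZT A ×ˢ Z2 with |p.1.im - p.2.im| ≤ 1, ww p * |f (dd L p)| +
        ∑ p ∈ ZT A ×ˢ Z2 with ¬ |p.1.im - p.2.im| ≤ 1, ww p * |f (dd L p)| :=
        (Finset.sum_filter_add_sum_filter_not _ _ _).symm
    _ ≤ B * (C1 * Real.log A) ^ 2 + B * (2 * C2 * A) := add_le_add hn hfar
    _ ≤ B * ((4 * C1 ^ 2 + 2 * C2) * A) := by
        rw [← mul_add]
        apply mul_le_mul_of_nonneg_left _ hB
        rw [mul_pow]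
        have : 0 ≤ C1 ^ 2 := by positivity
        nlinarith

/-- **One halving step.** -/
theorem step {δ : ℝ} {r : ℝ → ℝ} (hr : TF δ r) (M : ℝ) (ε : ℝ) (hε : 0 < ε) :
    ∀ᶠ A : ℝ in atTop,
      |QS (ZT (2 * A)) (ZT (2 * A)) (Real.log (2 * A)) (bl r) - M * XX (2 * A)| ≤
      |QS (ZT A) (ZT A) (Real.log A) (bl r) - M * XX A| +
      |QS (Zf riemannZeta A (2 * A)) (Zf riemannZeta A (2 * A)) (Real.log A) (bl r) - M * XX A| +
      ε * XX A := by
  classical
  obtain ⟨B, hB, hdec⟩ := hr.decay 1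
  simp only [pow_one] at hdec
  obtain ⟨C1, hC1, hres⟩ := QS_rescale hr
  obtain ⟨C2, T2, hC2, hT2, hcross⟩ := cross_le
  obtain ⟨C3, T3, hC3, hT3, hW⟩ := WS_le
  have hpi := Real.pi_pos
  have hlog2 : 0 < Real.log 2 := Real.log_pos (by norm_num)
  filter_upwards [eventually_ge_atTop T2, eventually_ge_atTop T3, eventually_ge_atTop 10,
    XX_large (2 * (B * C2) + |M| * (Real.log 2 / Real.pi)) (ε / 2) (by positivity), XX_double_le,
    Real.tendsto_log_atTop.eventually_ge_atTop
      (C1 * Real.log 2 * (17 * C3) / (ε / 2))] with A hA2 hA3 hA10 hX hX4 hlogA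
  have hL := log_ge hA10
  have hL0 : 0 < Real.log A := by linarith
  have hXp := XX_pos hA10
  set L := Real.log A with hLdef
  set L' := Real.log (2 * A) with hL'def
  have hLL : L' = Real.log 2 + L := by
    rw [hL'def, Real.log_mul (by norm_num) (by linarith)]
  set Z2 := Zf riemannZeta A (2 * A) with hZ2
  have hsplit : QS (ZT (2 * A)) (ZT (2 * A)) L' (bl r) =
      QS (ZT A) (ZT A) L' (bl r) + QS Z2 Z2 L' (bl r) + 2 * QS (ZT A) Z2 L' (bl r) := by
    rw [ZT_split (by linarith)]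
    exact QS_union (ZT_disj (by linarith)) _ _
  have h1 := hcross A hA2 (bl r) B hdec
  rw [← hL'def, ← hZ2] at h1
  have h2 := hres (ZT A) L L' hL0 (by linarith)
  have h3 := hres Z2 L L' hL0 (by linarith)
  have hW1 := hW A hA3
  have hW2 : WS Z2 L ≤ 16 * C3 * XX A := by
    have h4 : WS Z2 L ≤ 4 * WS Z2 L' := by
      unfold WS
      rw [Finset.mul_sum]
      apply Finset.sum_le_sum
      intro p _
      have h5 : dd L' p ≤ 2 * dd L p := by
        unfold dd
        rw [hLL]
        have h6 : Real.log 2 ≤ L := Real.log_le_log (by norm_num) (by linarith)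
        have h7 : |p.1.im - p.2.im| * (Real.log 2 + L) ≤ 2 * (|p.1.im - p.2.im| * L) := by
          have := abs_nonneg (p.1.im - p.2.im)
          nlinarith
        calc |p.1.im - p.2.im| * (Real.log 2 + L) / (2 * Real.pi) ≤
            2 * (|p.1.im - p.2.im| * L) / (2 * Real.pi) :=
              div_le_div_of_nonneg_right h7 (by positivity)
          _ = 2 * (|p.1.im - p.2.im| * L / (2 * Real.pi)) := by ring
      have h6 : 0 ≤ dd L' p := dd_nonneg (by linarith) p
      have h7 : dd L' p ^ 2 ≤ 4 * dd L p ^ 2 := by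
        have := pow_le_pow_left₀ h6 h5 2
        nlinarith
      rw [mul_div_assoc', div_le_div_iff₀ (by positivity) (by positivity)]
      have := ww_nonneg p
      nlinarith
    have h8 : WS Z2 L' ≤ WS (ZT (2 * A)) L' := by
      apply WS_mono
      rw [ZT_split (by linarith)]
      exact Finset.subset_union_right
    have h9 := hW (2 * A) (by linarith)
    have h10 : C3 * XX (2 * A) ≤ C3 * (4 * XX A) := mul_le_mul_of_nonneg_left hX4 hC3.le
    linarith
  -- the change of the normalisation is small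
  have hc : L' / L - 1 = Real.log 2 / L := by
    rw [hLL]
    field_simp
    ring
  have hsm : C1 * (L' / L - 1) * (17 * C3 * XX A) ≤ ε / 2 * XX A := by
    rw [hc]
    rw [div_le_iff₀ (by positivity)] at hlogA
    have h5 : C1 * (Real.log 2 / L) * (17 * C3 * XX A) = (C1 * Real.log 2 * (17 * C3)) / L * XX A := by
      ring
    rw [h5]
    apply mul_le_mul_of_nonneg_right _ hXp.le
    rw [div_le_iff₀ hL0]
    linarith
  have hcn : 0 ≤ C1 * (L' / L - 1) := by
    rw [hc]
    positivity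
  have h5 : C1 * (L' / L - 1) * WS (ZT A) L + C1 * (L' / L - 1) * WS Z2 L ≤ ε / 2 * XX A := by
    refine le_trans ?_ hsm
    rw [← mul_add]
    apply mul_le_mul_of_nonneg_left _ hcn
    linarith
  -- the change of the main term
  have h6 : |M * XX (2 * A) - 2 * (M * XX A)| ≤ |M| * (Real.log 2 / Real.pi) * A := by
    rw [XX_double (by linarith)]
    have e : M * (2 * XX A + A * Real.log 2 / Real.pi) - 2 * (M * XX A) =
        M * (Real.log 2 / Real.pi * A) := by ring
    rw [e, abs_mul, abs_of_nonneg (show 0 ≤ Real.log 2 / Real.pi * A by positivity)]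
    linarith
  have h7 : 2 * (B * (C2 * A)) + |M| * (Real.log 2 / Real.pi) * A ≤ ε / 2 * XX A := by
    refine le_trans (le_of_eq ?_) hX
    ring
  rw [hsplit]
  have e : QS (ZT A) (ZT A) L' (bl r) + QS Z2 Z2 L' (bl r) + 2 * QS (ZT A) Z2 L' (bl r) -
      M * XX (2 * A) = (QS (ZT A) (ZT A) L (bl r) - M * XX A) + (QS Z2 Z2 L (bl r) - M * XX A) +
      (QS (ZT A) (ZT A) L' (bl r) - QS (ZT A) (ZT A) L (bl r)) +
      (QS Z2 Z2 L' (bl r) - QS Z2 Z2 L (bl r)) + 2 * QS (ZT A) Z2 L' (bl r) -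
      (M * XX (2 * A) - 2 * (M * XX A)) := by ring
  rw [e]
  calc _ ≤ |QS (ZT A) (ZT A) L (bl r) - M * XX A| + |QS Z2 Z2 L (bl r) - M * XX A| +
      |QS (ZT A) (ZT A) L' (bl r) - QS (ZT A) (ZT A) L (bl r)| +
      |QS Z2 Z2 L' (bl r) - QS Z2 Z2 L (bl r)| + |2 * QS (ZT A) Z2 L' (bl r)| +
      |M * XX (2 * A) - 2 * (M * XX A)| := by
        refine (abs_sub _ _).trans (add_le_add_left ?_ _)
        refine (abs_add_le _ _).trans (add_le_add_left ?_ _)
        refine (abs_add_le _ _).trans (add_le_add_left ?_ _)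
        refine (abs_add_le _ _).trans (add_le_add_left ?_ _)
        exact abs_add_le _ _
    _ ≤ _ := by
        rw [abs_mul, abs_two]
        linarith

end Pool.Agent.E8helper72.PC
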